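import Pool.Agent.H732R2.KK.Defs

namespace Pool.Agent.H732R2.KK

open Real Complex MeasureTheory Filter Topology Metric

noncomputable section

/-! ## Task S : the series -/

theorem G_eq (mu h : ℝ) (hmu : 0 < mu) (w : ℂ) :
    G mu h w = cexp (-(1 / 2 + w) * h - mu * (h : ℂ) ^ 2) * E mu (w + 2 * mu * h) := sorry

theorem G_summable (mu : ℝ) (hmu : 0 < mu) (w : ℂ) :
    Summable (fun n : ℕ => ‖G mu (lg n) w‖) := sorry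

theorem xi_hasSum (mu : ℝ) (hmu : 0 < mu) (w : ℂ) :
    HasSum (fun n : ℕ => G mu (lg n) w) (Xi (-mu) (-I * w)) := sorry

theorem xi_differentiable (mu : ℝ) (hmu : 0 < mu) : Differentiable ℂ (Xi (-mu)) := sorry

theorem xi_conj (mu : ℝ) (z : ℂ) :
    Xi (-mu) (-(starRingEnd ℂ z)) = starRingEnd ℂ (Xi (-mu) z) := sorry

/-! ## Task K : saddle point asymptotics -/

theorem key (mu C1 : ℝ) (hmu : 0 < mu) : ∃ X0 : ℝ, 10 ≤ X0 ∧ ∀ X ≥ X0, ∀ ζ : ℂ,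
    |ζ.re| ≤ C1 * Real.log X → |ζ.im| ≤ X ^ ((1 : ℝ) / 3) →
    ‖E mu (I * X + ζ) - E mu (I * X) * cexp (ζ * tau X)‖ ≤
      X ^ (-(1 : ℝ) / 20) * ‖E mu (I * X) * cexp (ζ * tau X)‖ := sorry

theorem E_lower (mu : ℝ) (hmu : 0 < mu) : ∃ X0 : ℝ, 10 ≤ X0 ∧ ∀ X ≥ X0,
    rexp (-(π * X / 4) - (mu + 1) * (Real.log X) ^ 2) ≤ ‖E mu (I * X)‖ := sorry

/-! ## Task T : tail of the series -/

theorem tail (mu C1 K : ℝ) (hmu : 0 < mu) : ∃ k0 : ℕ, ∀ k ≥ k0, ∃ X0 : ℝ, 10 ≤ X0 ∧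
    ∀ X ≥ X0, ∀ ζ : ℂ, |ζ.re| ≤ C1 * Real.log X → |ζ.im| ≤ X ^ ((1 : ℝ) / 3) →
    (∑' n : ℕ, if X ^ k < (n : ℝ) + 1 then ‖G mu (lg n) (I * X + ζ)‖ else 0) ≤
      rexp (-(π * (X + ζ.im) / 4) - K * (Real.log X) ^ 2) := sorry

/-! ## Task W : the majorant series -/

theorem W_summable (mu kap : ℝ) (hmu : 0 < mu) :
    Summable (fun n : ℕ => rexp (-(lg n) / 2 - mu * (lg n) ^ 2 + kap * lg n)) := sorry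

theorem W_mono (mu : ℝ) (hmu : 0 < mu) : Monotone (W mu) := sorry

theorem W_le (mu : ℝ) (hmu : 0 < mu) : ∃ C : ℝ, 1 ≤ C ∧ ∀ kap : ℝ, 0 ≤ kap →
    W mu kap ≤ C * rexp (kap ^ 2 / (2 * mu)) := sorry

theorem W_small (mu kap : ℝ) (hmu : 0 < mu) (hk : kap ≤ -5) : W mu kap ≤ 1 + 1 / 8 := sorry

theorem W_tail (mu C1 K : ℝ) (hmu : 0 < mu) : ∃ k0 : ℕ, ∀ k ≥ k0, ∃ X0 : ℝ, 10 ≤ X0 ∧
    ∀ X ≥ X0, ∀ kap : ℝ, kap ≤ C1 * Real.log X →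
    (∑' n : ℕ, if X ^ k < (n : ℝ) + 1 then
      rexp (-(lg n) / 2 - mu * (lg n) ^ 2 + kap * lg n) else 0) ≤
        rexp (-(K * (Real.log X) ^ 2)) := sorry

/-! ## Task P1 : the coefficients -/

theorem coeff (mu : ℝ) (hmu : 0 < mu) : ∃ C : ℝ, 1 ≤ C ∧ ∃ A0 : ℝ, 1 ≤ A0 ∧ ∀ A ≥ A0,
    let N := ⌊rexp (C * A)⌋₊
    let S := ∑ n ∈ Finset.Icc 1 N, bb mu A n ^ 2
    1 ≤ S ∧
    (∀ a : ℕ, 1 ≤ a → ∑ k ∈ (Finset.Icc 1 N).filter (fun k => a * k ≤ N), bb mu A (a * k) ^ 2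
        ≤ C / a * S) ∧
    W mu A ≤ rexp (C * A) * Real.sqrt S ∧
    (∑' n : ℕ, if N < n + 1 then bb mu A (n + 1) else 0) ≤ Real.sqrt S / 8 ∧
    rexp (A ^ 2 / (4 * mu) - C * A) ≤ W mu A := sorry

/-! ## Task P2 : mean values of Dirichlet polynomials -/

theorem mean_lower (N : ℕ) (hN : 1 ≤ N) (Y : ℝ) (hY : 0 ≤ Y) (d : ℕ → ℂ) :
    (Y - 4 * (N : ℝ) ^ 2) * ∑ n ∈ Finset.Icc 1 N, ‖d n‖ ^ 2 ≤
      ∫ v in (0 : ℝ)..Y, ‖∑ n ∈ Finset.Icc 1 N, d n * cexp (-I * v * Real.log n)‖ ^ 2 := sorry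

theorem fourth (N : ℕ) (hN : 1 ≤ N) (A Y : ℝ) (hA : 1 ≤ A) (hAY : A ≤ Y)
    (hY : (N : ℝ) ^ 5 ≤ Y) (d : ℕ → ℂ) :
    ∑ j ∈ Finset.range ⌊Y / A⌋₊, (∫ v in (j * A : ℝ)..((j + 1) * A),
        ‖∑ n ∈ Finset.Icc 1 N, d n * cexp (-I * v * Real.log n)‖ ^ 2) ^ 2 ≤
      200 * A * Y * ((∑ n ∈ Finset.Icc 1 N, ‖d n‖ ^ 2) ^ 2 +
        ∑ a ∈ Finset.Icc 1 N, ∑ b ∈ (Finset.Icc 1 N).filter (fun b => b ≠ a),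
          rexp (-(A ^ 2 * (Real.log ((a : ℝ) / b)) ^ 2)) *
          (∑ k ∈ (Finset.Icc 1 N).filter (fun k => a * k ≤ N), ‖d (a * k)‖ ^ 2) *
          (∑ k ∈ (Finset.Icc 1 N).filter (fun k => b * k ≤ N), ‖d (b * k)‖ ^ 2)) := sorry

/-! ## Task P3 : many good windows -/

theorem good_windows (mu : ℝ) (hmu : 0 < mu) : ∃ c : ℝ, 0 < c ∧ ∃ C : ℝ, 1 ≤ C ∧
    ∃ A0 : ℝ, 1 ≤ A0 ∧ ∀ A ≥ A0, ∀ u : ℕ → ℂ, (∀ n, ‖u n‖ = 1) → ∀ Y ≥ rexp (C * A),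
    ∃ s : Finset ℕ, (∀ j ∈ s, ((j : ℝ) + 1) * A ≤ Y) ∧ c * (Y / A) ≤ (s.card : ℝ) ∧
      ∀ j ∈ s, ∃ v ∈ Set.Icc ((j : ℝ) * A) ((j + 1) * A), rexp (-(C * A)) * W mu A ≤
        ‖∑' n : ℕ, u n * cexp (((-(lg n) / 2 - mu * (lg n) ^ 2 + A * lg n : ℝ) : ℂ)
          - I * v * lg n)‖ := sorry

/-! ## Task F : factoring out zeros, Jensen -/

theorem factor (f : ℂ → ℂ) (c : ℂ) (R r : ℝ) (hr : 0 < r) (hrR : r ≤ R)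
    (hf : AnalyticOnNhd ℂ f (closedBall c R)) (h0 : ∃ z ∈ closedBall c R, f z ≠ 0) :
    ∃ (s : Multiset ℂ) (g : ℂ → ℂ), AnalyticOnNhd ℂ g (closedBall c R) ∧
      (∀ z ∈ closedBall c R, f z = (s.map (fun a => z - a)).prod * g z) ∧
      (∀ z ∈ closedBall c r, g z ≠ 0) ∧ (∀ a ∈ s, a ∈ closedBall c r ∧ f a = 0) ∧
      Multiset.card s = zc f (closedBall c r) := sorry

theorem jensen (f : ℂ → ℂ) (c : ℂ) (r M : ℝ) (hr : 0 < r)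
    (hf : AnalyticOnNhd ℂ f (closedBall c (3 * r)))
    (hM : ∀ z ∈ closedBall c (3 * r), ‖f z‖ ≤ rexp M) (hc : 1 / 2 ≤ ‖f c‖) :
    (zc f (closedBall c r) : ℝ) ≤ (M + Real.log 2) / Real.log 2 := sorry

/-! ## Task H : large values force zeros -/

theorem many_zeros (δ : ℝ) (hδ : 0 < δ) (hδ1 : δ ≤ 1) : ∃ η : ℝ, 0 < η ∧ ∃ M0 : ℝ, 1 ≤ M0 ∧
    ∀ (f : ℂ → ℂ) (c p : ℂ) (R M : ℝ), 0 < R → M0 ≤ M →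
    AnalyticOnNhd ℂ f (closedBall c (6 * R)) →
    (∀ z ∈ closedBall c (6 * R), ‖f z‖ ≤ rexp M) →
    (∀ z ∈ closedBall c (R / 2), ‖f z - 1‖ ≤ 1 / 2) →
    p ∈ closedBall c (2 * R) → rexp (δ * M) ≤ ‖f p‖ →
    η * M ≤ (zc f (closedBall c (3 * R)) : ℝ) := sorry

end

end Pool.Agent.H732R2.KK
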