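import Pool.Agent.H732R2.KK.Defs

/-!
# Task P1: the coefficients (helper738)
-/

namespace Pool.Agent.H732R2.KK

open Real Finset

noncomputable section

/-- exponent of `bb^2` as a function of `h = log n`. -/
def qq (mu A h : ℝ) : ℝ := -h - 2 * mu * h ^ 2 + 2 * A * h

theorem bb_sq (mu A : ℝ) (n : ℕ) : bb mu A n ^ 2 = rexp (qq mu A (Real.log n)) := by
  rw [bb, ← Real.exp_nat_mul]
  congr 1
  simp only [qq]
  push_cast
  ring

theorem bb_pos (mu A : ℝ) (n : ℕ) : 0 < bb mu A n := Real.exp_pos _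

theorem qq_mono {mu A h h' : ℝ} (hmu : 0 < mu) (hh : h ≤ h')
    (hs : h + h' ≤ (2 * A - 1) / (2 * mu)) : qq mu A h ≤ qq mu A h' := by
  have h1 : (h + h') * (2 * mu) ≤ 2 * A - 1 := (le_div_iff₀ (by positivity)).1 hs
  have : 0 ≤ (h' - h) * (2 * A - 1 - (h + h') * (2 * mu)) :=
    mul_nonneg (by linarith) (by linarith)
  simp only [qq]
  nlinarith [this]

theorem qq_anti {mu A h h' : ℝ} (hmu : 0 < mu) (hh : h' ≤ h)
    (hs : (2 * A - 1) / (2 * mu) ≤ h + h') : qq mu A h ≤ qq mu A h' := by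
  have h1 : 2 * A - 1 ≤ (h + h') * (2 * mu) := (div_le_iff₀ (by positivity)).1 hs
  have : 0 ≤ (h - h') * ((h + h') * (2 * mu) - (2 * A - 1)) :=
    mul_nonneg (by linarith) (by linarith)
  simp only [qq]
  nlinarith [this]

/-- `n * bb(n)^2 ≤ exp (A^2/(2 mu))`. -/
theorem mul_bb_sq_le {mu A : ℝ} (hmu : 0 < mu) {n : ℕ} (hn : 1 ≤ n) :
    (n : ℝ) * bb mu A n ^ 2 ≤ rexp (A ^ 2 / (2 * mu)) := by
  have hn0 : (0 : ℝ) < n := by exact_mod_cast hn
  rw [bb_sq]
  nth_rewrite 1 [← Real.exp_log hn0]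
  rw [← Real.exp_add]
  apply Real.exp_le_exp.2
  simp only [qq]
  rw [le_div_iff₀ (by positivity)]
  nlinarith [sq_nonneg (A - 2 * mu * Real.log n)]

theorem peak {mu A : ℝ} (hmu : 0 < mu) (hA : 1 ≤ A) {N : ℕ}
    (hN : 4 * rexp (A / (2 * mu)) ≤ (N : ℝ)) :
    rexp (A ^ 2 / (2 * mu)) ≤ 2 * rexp (8 * mu) * ∑ n ∈ Finset.Icc 1 N, bb mu A n ^ 2 := by
  set h0 := A / (2 * mu) with hh0
  have hh0p : 0 < h0 := by positivity
  set M := ⌈rexp h0⌉₊ with hM
  have hM1 : rexp h0 ≤ (M : ℝ) := Nat.le_ceil _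
  have he1 : 1 ≤ rexp h0 := Real.one_le_exp hh0p.le
  have hM2 : (M : ℝ) < rexp h0 + 1 := Nat.ceil_lt_add_one (Real.exp_pos _).le
  have hMpos : 0 < M := by
    have : (0 : ℝ) < (M : ℝ) := by linarith
    exact_mod_cast this
  have hsub : Finset.Ico M (2 * M) ⊆ Finset.Icc 1 N := by
    intro n hn
    rw [Finset.mem_Ico] at hn
    rw [Finset.mem_Icc]
    refine ⟨by omega, ?_⟩
    have : (n : ℝ) < 2 * M := by exact_mod_cast hn.2
    have h2 : (n : ℝ) ≤ N := by linarith
    exact_mod_cast h2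
  have hterm : ∀ n ∈ Finset.Ico M (2 * M),
      rexp (A ^ 2 / (2 * mu)) * rexp (-(8 * mu)) / (2 * M) ≤ bb mu A n ^ 2 := by
    intro n hn
    rw [Finset.mem_Ico] at hn
    have hnR1 : (M : ℝ) ≤ n := by exact_mod_cast hn.1
    have hnR2 : (n : ℝ) < 2 * M := by exact_mod_cast hn.2
    have hn0 : (0 : ℝ) < n := by linarith
    have hl1 : h0 ≤ Real.log n := by
      rw [Real.le_log_iff_exp_le hn0]; linarith
    have hl2 : Real.log n ≤ h0 + 2 := by
      rw [Real.log_le_iff_le_exp hn0, Real.exp_add]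
      have h4 : (4 : ℝ) ≤ rexp 2 := by
        have := Real.add_one_le_exp (1 : ℝ)
        have h2 : rexp 2 = rexp 1 * rexp 1 := by rw [← Real.exp_add]; norm_num
        rw [h2]; nlinarith
      nlinarith [Real.exp_pos h0]
    rw [bb_sq, div_le_iff₀ (by positivity)]
    have h5 : rexp (qq mu A (Real.log n)) * (2 * M) ≥ rexp (qq mu A (Real.log n)) * n := by
      apply mul_le_mul_of_nonneg_left hnR2.le (Real.exp_pos _).le
    refine le_trans ?_ h5
    have hA' : A = 2 * mu * h0 := by rw [hh0]; field_simp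
    have h6 : A ^ 2 / (2 * mu) = 2 * mu * h0 ^ 2 := by
      rw [hA']; field_simp
    have h7 : (Real.log n - h0) ^ 2 ≤ 4 := by nlinarith
    calc rexp (A ^ 2 / (2 * mu)) * rexp (-(8 * mu))
        = rexp (A ^ 2 / (2 * mu) + -(8 * mu)) := (Real.exp_add _ _).symm
      _ ≤ rexp (qq mu A (Real.log n) + Real.log n) := by
          apply Real.exp_le_exp.2
          rw [h6]
          simp only [qq]
          rw [hA']
          nlinarith [mul_le_mul_of_nonneg_left h7 hmu.le]
      _ = rexp (qq mu A (Real.log n)) * n := by rw [Real.exp_add, Real.exp_log hn0]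
  have hsum : rexp (A ^ 2 / (2 * mu)) * rexp (-(8 * mu)) / 2 ≤ ∑ n ∈ Finset.Icc 1 N, bb mu A n ^ 2 := by
    calc rexp (A ^ 2 / (2 * mu)) * rexp (-(8 * mu)) / 2
        = (Finset.Ico M (2 * M)).card • (rexp (A ^ 2 / (2 * mu)) * rexp (-(8 * mu)) / (2 * M)) := by
          rw [Nat.card_Ico, nsmul_eq_mul]
          have : 2 * M - M = M := by omega
          rw [this]
          have hMR : (M : ℝ) ≠ 0 := by positivity
          field_simp
      _ ≤ ∑ n ∈ Finset.Ico M (2 * M), bb mu A n ^ 2 := Finset.card_nsmul_le_sum _ _ _ hterm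
      _ ≤ ∑ n ∈ Finset.Icc 1 N, bb mu A n ^ 2 :=
          Finset.sum_le_sum_of_subset_of_nonneg hsub (fun _ _ _ => by positivity)
  have h8 : rexp (8 * mu) * rexp (-(8 * mu)) = 1 := by rw [← Real.exp_add]; simp
  calc rexp (A ^ 2 / (2 * mu))
      = 2 * rexp (8 * mu) * (rexp (A ^ 2 / (2 * mu)) * rexp (-(8 * mu)) / 2) := by
        have : 2 * rexp (8 * mu) * (rexp (A ^ 2 / (2 * mu)) * rexp (-(8 * mu)) / 2)
          = rexp (A ^ 2 / (2 * mu)) * (rexp (8 * mu) * rexp (-(8 * mu))) := by ring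
        rw [this, h8, mul_one]
    _ ≤ _ := mul_le_mul_of_nonneg_left hsum (by positivity)

theorem fiber_sum_le {K : Finset ℕ} {s : Finset ℕ} (g : ℕ → ℕ) (f : ℕ → ℝ) (hf : ∀ n, 0 ≤ f n) :
    ∑ k ∈ K, ∑ n ∈ s, (if g n = k then f n else 0) ≤ ∑ n ∈ s, f n := by
  rw [Finset.sum_comm]
  apply Finset.sum_le_sum
  intro n _
  rw [Finset.sum_ite_eq]
  split_ifs
  · exact le_refl _
  · exact hf n

theorem block_inc {mu A : ℝ} (hmu : 0 < mu) {a k N : ℕ} (ha : 1 ≤ a) (hk : 1 ≤ k)
    (h1 : (a : ℝ) * (k + 1) ≤ rexp ((2 * A - 1) / (4 * mu))) (hN : a * (k + 1) ≤ N) :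
    (a : ℝ) * bb mu A (a * k) ^ 2 ≤
      ∑ n ∈ Finset.Icc 1 N, (if n / a = k then bb mu A n ^ 2 else 0) := by
  have hapos : 0 < a := ha
  have hinj : Set.InjOn (fun r => a * k + r) (Finset.range a : Set ℕ) := by
    intro x _ y _ hxy
    simp only at hxy
    omega
  calc (a : ℝ) * bb mu A (a * k) ^ 2
      = (Finset.range a).card • (bb mu A (a * k) ^ 2) := by
        rw [Finset.card_range, nsmul_eq_mul]
    _ ≤ ∑ r ∈ Finset.range a, bb mu A (a * k + r) ^ 2 := by
        apply Finset.card_nsmul_le_sum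
        intro r hr
        rw [Finset.mem_range] at hr
        rw [bb_sq, bb_sq]
        apply Real.exp_le_exp.2
        have hak : (0 : ℝ) < ((a * k : ℕ) : ℝ) := by
          have : 0 < a * k := Nat.mul_pos hapos hk
          exact_mod_cast this
        have hle : ((a * k : ℕ) : ℝ) ≤ ((a * k + r : ℕ) : ℝ) := by
          exact_mod_cast Nat.le_add_right _ _
        have hlt : ((a * k + r : ℕ) : ℝ) ≤ a * (k + 1) := by
          have : a * k + r ≤ a * (k + 1) := by rw [mul_add, mul_one]; omega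
          exact_mod_cast this
        apply qq_mono hmu (Real.log_le_log hak hle)
        have hl2 : Real.log ((a * k + r : ℕ) : ℝ) ≤ (2 * A - 1) / (4 * mu) := by
          rw [Real.log_le_iff_le_exp (lt_of_lt_of_le hak hle)]
          exact le_trans hlt h1
        have hl1 : Real.log ((a * k : ℕ) : ℝ) ≤ (2 * A - 1) / (4 * mu) :=
          le_trans (Real.log_le_log hak hle) hl2
        have : (2 * A - 1) / (2 * mu) = (2 * A - 1) / (4 * mu) + (2 * A - 1) / (4 * mu) := by
          field_simp; ring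
        rw [this]
        exact add_le_add hl1 hl2
    _ = ∑ n ∈ (Finset.range a).image (fun r => a * k + r), bb mu A n ^ 2 := by
        rw [Finset.sum_image hinj]
    _ = ∑ n ∈ (Finset.range a).image (fun r => a * k + r),
          (if n / a = k then bb mu A n ^ 2 else 0) := by
        apply Finset.sum_congr rfl
        intro n hn
        rw [Finset.mem_image] at hn
        obtain ⟨r, hr, rfl⟩ := hn
        rw [Finset.mem_range] at hr
        rw [if_pos]
        rw [Nat.mul_add_div hapos, Nat.div_eq_of_lt hr, add_zero]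
    _ ≤ _ := by
        apply Finset.sum_le_sum_of_subset_of_nonneg
        · intro n hn
          rw [Finset.mem_image] at hn
          obtain ⟨r, hr, rfl⟩ := hn
          rw [Finset.mem_range] at hr
          rw [Finset.mem_Icc]
          have : 0 < a * k := Nat.mul_pos hapos hk
          refine ⟨by omega, ?_⟩
          rw [mul_add, mul_one] at hN
          omega
        · intro n _ _
          split_ifs <;> positivity

theorem block_dec {mu A : ℝ} (hmu : 0 < mu) {a k N : ℕ} (ha : 1 ≤ a) (hk : 1 ≤ k)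
    (h1 : rexp ((2 * A - 1) / (4 * mu)) ≤ (a : ℝ) * (k - 1)) (hN : a * k ≤ N) :
    (a : ℝ) * bb mu A (a * k) ^ 2 ≤
      ∑ n ∈ Finset.Icc 1 N, (if (n + a - 1) / a = k then bb mu A n ^ 2 else 0) := by
  have hapos : 0 < a := ha
  have hak' : a ≤ a * k := Nat.le_mul_of_pos_right a hk
  have hinj : Set.InjOn (fun r => a * k - r) (Finset.range a : Set ℕ) := by
    intro x hx y hy hxy
    simp only [Finset.coe_range, Set.mem_Iio] at hx hy hxy
    omega
  calc (a : ℝ) * bb mu A (a * k) ^ 2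
      = (Finset.range a).card • (bb mu A (a * k) ^ 2) := by
        rw [Finset.card_range, nsmul_eq_mul]
    _ ≤ ∑ r ∈ Finset.range a, bb mu A (a * k - r) ^ 2 := by
        apply Finset.card_nsmul_le_sum
        intro r hr
        rw [Finset.mem_range] at hr
        rw [bb_sq, bb_sq]
        apply Real.exp_le_exp.2
        have hakr : (0 : ℝ) < ((a * k - r : ℕ) : ℝ) := by
          have : 0 < a * k - r := by omega
          exact_mod_cast this
        have hle : ((a * k - r : ℕ) : ℝ) ≤ ((a * k : ℕ) : ℝ) := by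
          exact_mod_cast Nat.sub_le _ _
        have hge : (a : ℝ) * (k - 1) ≤ ((a * k - r : ℕ) : ℝ) := by
          rw [Nat.cast_sub (by omega)]
          have : (r : ℝ) ≤ a := by exact_mod_cast hr.le
          push_cast
          linarith
        apply qq_anti hmu (Real.log_le_log hakr hle)
        have hl2 : (2 * A - 1) / (4 * mu) ≤ Real.log ((a * k - r : ℕ) : ℝ) := by
          rw [Real.le_log_iff_exp_le hakr]
          exact le_trans h1 hge
        have hl1 : (2 * A - 1) / (4 * mu) ≤ Real.log ((a * k : ℕ) : ℝ) :=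
          le_trans hl2 (Real.log_le_log hakr hle)
        have : (2 * A - 1) / (2 * mu) = (2 * A - 1) / (4 * mu) + (2 * A - 1) / (4 * mu) := by
          field_simp; ring
        rw [this]
        exact add_le_add hl1 hl2
    _ = ∑ n ∈ (Finset.range a).image (fun r => a * k - r), bb mu A n ^ 2 := by
        rw [Finset.sum_image hinj]
    _ = ∑ n ∈ (Finset.range a).image (fun r => a * k - r),
          (if (n + a - 1) / a = k then bb mu A n ^ 2 else 0) := by
        apply Finset.sum_congr rfl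
        intro n hn
        rw [Finset.mem_image] at hn
        obtain ⟨r, hr, rfl⟩ := hn
        rw [Finset.mem_range] at hr
        rw [if_pos]
        have : a * k - r + a - 1 = a * k + (a - 1 - r) := by omega
        rw [this, Nat.mul_add_div hapos, Nat.div_eq_of_lt (by omega), add_zero]
    _ ≤ _ := by
        apply Finset.sum_le_sum_of_subset_of_nonneg
        · intro n hn
          rw [Finset.mem_image] at hn
          obtain ⟨r, hr, rfl⟩ := hn
          rw [Finset.mem_range] at hr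
          rw [Finset.mem_Icc]
          constructor <;> omega
        · intro n _ _
          split_ifs <;> positivity

theorem dilate {mu A : ℝ} (hmu : 0 < mu) (hA : 1 ≤ A) {N : ℕ}
    (hN : 4 * rexp (A / (2 * mu)) ≤ (N : ℝ)) {a : ℕ} (ha : 1 ≤ a) :
    ∑ k ∈ (Finset.Icc 1 N).filter (fun k => a * k ≤ N), bb mu A (a * k) ^ 2
      ≤ (2 + 4 * rexp (8 * mu)) / a * ∑ n ∈ Finset.Icc 1 N, bb mu A n ^ 2 := by
  have haR : (0 : ℝ) < a := by exact_mod_cast ha
  set S := ∑ n ∈ Finset.Icc 1 N, bb mu A n ^ 2 with hS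
  set T := rexp ((2 * A - 1) / (4 * mu)) with hT
  set Gm := rexp (A ^ 2 / (2 * mu)) with hGm
  have hpk : Gm ≤ 2 * rexp (8 * mu) * S := peak hmu hA hN
  have hTN : T ≤ N := by
    refine le_trans ?_ hN
    have : T ≤ rexp (A / (2 * mu)) := by
      apply Real.exp_le_exp.2
      rw [div_le_div_iff₀ (by positivity) (by positivity)]
      nlinarith
    have h0 := Real.exp_pos (A / (2 * mu))
    linarith
  set x := ⌊T / a⌋₊ with hx
  have key : ∀ k ∈ (Finset.Icc 1 N).filter (fun k => a * k ≤ N),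
      (a : ℝ) * bb mu A (a * k) ^ 2 ≤
        ∑ n ∈ Finset.Icc 1 N, (if n / a = k then bb mu A n ^ 2 else 0) +
        ∑ n ∈ Finset.Icc 1 N, (if (n + a - 1) / a = k then bb mu A n ^ 2 else 0) +
        (if k ∈ ({x, x + 1} : Finset ℕ) then Gm else 0) := by
    intro k hk
    rw [Finset.mem_filter, Finset.mem_Icc] at hk
    obtain ⟨⟨hk1, hk2⟩, hk3⟩ := hk
    have n1 : 0 ≤ ∑ n ∈ Finset.Icc 1 N, (if n / a = k then bb mu A n ^ 2 else 0) :=
      Finset.sum_nonneg (fun n _ => by split_ifs <;> positivity)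
    have n2 : 0 ≤ ∑ n ∈ Finset.Icc 1 N, (if (n + a - 1) / a = k then bb mu A n ^ 2 else 0) :=
      Finset.sum_nonneg (fun n _ => by split_ifs <;> positivity)
    have n3 : 0 ≤ (if k ∈ ({x, x + 1} : Finset ℕ) then Gm else 0) := by
      split_ifs <;> positivity
    by_cases c1 : (a : ℝ) * (k + 1) ≤ T
    · have hN' : a * (k + 1) ≤ N := by
        have : (a : ℝ) * (k + 1) ≤ N := le_trans c1 hTN
        exact_mod_cast this
      have := block_inc hmu ha hk1 c1 hN'
      linarith
    · by_cases c2 : T ≤ (a : ℝ) * (k - 1)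
      · have := block_dec hmu ha hk1 c2 hk3
        linarith
      · rw [not_le] at c1 c2
        have hmem : k ∈ ({x, x + 1} : Finset ℕ) := by
          have e1 : T / a < k + 1 := by rw [div_lt_iff₀ haR]; linarith
          have e2 : (k : ℝ) - 1 < T / a := by rw [lt_div_iff₀ haR]; linarith
          have hTa : 0 ≤ T / a := by positivity
          have f1 : (x : ℝ) ≤ T / a := Nat.floor_le hTa
          have f2 : T / a < x + 1 := Nat.lt_floor_add_one _
          have g1 : x < k + 1 := by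
            have : (x : ℝ) < k + 1 := lt_of_le_of_lt f1 e1
            exact_mod_cast this
          have g2 : k < x + 2 := by
            have : (k : ℝ) < x + 2 := by linarith
            exact_mod_cast this
          rw [Finset.mem_insert, Finset.mem_singleton]
          omega
        rw [if_pos hmem]
        have h5 : (a : ℝ) * bb mu A (a * k) ^ 2 ≤ ((a * k : ℕ) : ℝ) * bb mu A (a * k) ^ 2 := by
          apply mul_le_mul_of_nonneg_right _ (by positivity)
          have : a ≤ a * k := Nat.le_mul_of_pos_right a hk1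
          exact_mod_cast this
        have h6 := mul_bb_sq_le (A := A) hmu (n := a * k) (Nat.mul_pos ha hk1)
        linarith
  have hsum := Finset.sum_le_sum key
  rw [← Finset.mul_sum, Finset.sum_add_distrib, Finset.sum_add_distrib] at hsum
  have s1 := fiber_sum_le (K := (Finset.Icc 1 N).filter (fun k => a * k ≤ N))
    (s := Finset.Icc 1 N) (fun n => n / a) (fun n => bb mu A n ^ 2) (fun n => by positivity)
  have s2 := fiber_sum_le (K := (Finset.Icc 1 N).filter (fun k => a * k ≤ N))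
    (s := Finset.Icc 1 N) (fun n => (n + a - 1) / a) (fun n => bb mu A n ^ 2)
    (fun n => by positivity)
  have s3 : ∑ k ∈ (Finset.Icc 1 N).filter (fun k => a * k ≤ N),
      (if k ∈ ({x, x + 1} : Finset ℕ) then Gm else 0) ≤ 2 * Gm := by
    rw [← Finset.sum_filter, Finset.sum_const, nsmul_eq_mul]
    apply mul_le_mul_of_nonneg_right _ (Real.exp_pos _).le
    have hc : (((Finset.Icc 1 N).filter (fun k => a * k ≤ N)).filter
        (fun k => k ∈ ({x, x + 1} : Finset ℕ))).card ≤ ({x, x + 1} : Finset ℕ).card := by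
      apply Finset.card_le_card
      intro k hk
      exact (Finset.mem_filter.1 hk).2
    have hc2 : ({x, x + 1} : Finset ℕ).card ≤ 2 := Finset.card_le_two
    exact_mod_cast le_trans hc hc2
  rw [div_mul_eq_mul_div, le_div_iff₀ haR, mul_comm _ (a : ℝ)]
  refine le_trans hsum ?_
  have : (2 + 4 * rexp (8 * mu)) * S = S + S + 2 * (2 * rexp (8 * mu) * S) := by ring
  rw [this]
  linarith

theorem bb_le_cube {mu A C : ℝ} (hmu : 0 < mu) (hA : 1 ≤ A) (hC : 6 / mu ≤ C) {n : ℕ}
    (hn : rexp (C * A) < (n : ℝ)) : bb mu A n ≤ 1 / (n : ℝ) ^ 3 := by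
  have hn0 : (0 : ℝ) < n := lt_trans (Real.exp_pos _) hn
  have hC6 : 6 ≤ C * mu := (div_le_iff₀ hmu).1 hC
  have hCp : 0 < C := lt_of_lt_of_le (by positivity) hC
  have hl : C * A < Real.log n := (Real.lt_log_iff_exp_lt hn0).2 hn
  have hl0 : 0 < Real.log n := lt_trans (by positivity) hl
  have e1 : 1 / (n : ℝ) ^ 3 = rexp (-(3 * Real.log n)) := by
    rw [Real.exp_neg, one_div]
    congr 1
    have : rexp (3 * Real.log n) = rexp (Real.log n) ^ 3 := by
      rw [← Real.exp_nat_mul]; norm_num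
    rw [this, Real.exp_log hn0]
  rw [e1, bb]
  apply Real.exp_le_exp.2
  have h1 : 6 * A * Real.log n ≤ mu * Real.log n ^ 2 := by
    have : 6 * A ≤ mu * Real.log n := by
      have : mu * (C * A) ≤ mu * Real.log n := mul_le_mul_of_nonneg_left hl.le hmu.le
      nlinarith
    calc 6 * A * Real.log n ≤ mu * Real.log n * Real.log n :=
          mul_le_mul_of_nonneg_right this hl0.le
      _ = mu * Real.log n ^ 2 := by ring
  nlinarith [mul_le_mul_of_nonneg_right hA hl0.le]

theorem zeta2_hasSum : HasSum (fun n : ℕ => 1 / ((n : ℝ) + 1) ^ 2) (π ^ 2 / 6) := by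
  have h := hasSum_zeta_two
  rw [← hasSum_nat_add_iff' 1] at h
  simpa using h

theorem zeta2_le : π ^ 2 / 6 ≤ 2 := by
  have := Real.pi_lt_d2
  have := Real.pi_pos
  nlinarith

theorem W_eq (mu A : ℝ) : W mu A = ∑' n : ℕ, bb mu A (n + 1) := by
  simp only [W, lg, bb, Nat.cast_add, Nat.cast_one]

theorem bb_summable {mu A C : ℝ} (hmu : 0 < mu) (hA : 1 ≤ A) (hC : 6 / mu ≤ C) :
    Summable (fun n : ℕ => bb mu A (n + 1)) := by
  apply Summable.of_norm_bounded_eventually_nat zeta2_hasSum.summable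
  filter_upwards [Filter.eventually_gt_atTop ⌊rexp (C * A)⌋₊] with n hn
  rw [Real.norm_of_nonneg (bb_pos _ _ _).le]
  have h1 : rexp (C * A) < ((n + 1 : ℕ) : ℝ) := by
    have := Nat.lt_floor_add_one (rexp (C * A))
    have h2 : ((⌊rexp (C * A)⌋₊ : ℕ) : ℝ) < n := by exact_mod_cast hn
    push_cast
    linarith
  refine le_trans (bb_le_cube hmu hA hC h1) ?_
  push_cast
  have h3 : (1 : ℝ) ≤ (n : ℝ) + 1 := by
    have : (0 : ℝ) ≤ n := Nat.cast_nonneg n
    linarith
  apply one_div_le_one_div_of_le (by positivity)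
  exact pow_le_pow_right₀ h3 (by norm_num)

theorem tail_bound {mu A C : ℝ} (hmu : 0 < mu) (hA : 1 ≤ A) (hC : 6 / mu ≤ C) {N : ℕ}
    (hN : rexp (C * A) < (N : ℝ) + 1) (hN16 : (15 : ℝ) ≤ N) :
    Summable (fun n : ℕ => if N < n + 1 then bb mu A (n + 1) else 0) ∧
    (∑' n : ℕ, if N < n + 1 then bb mu A (n + 1) else 0) ≤ 1 / 8 := by
  have hNp : (0 : ℝ) < (N : ℝ) + 1 := by linarith
  have hle : ∀ n : ℕ, (if N < n + 1 then bb mu A (n + 1) else 0) ≤
      1 / ((N : ℝ) + 1) * (1 / ((n : ℝ) + 1) ^ 2) := by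
    intro n
    split_ifs with h
    · have h1 : (N : ℝ) + 1 ≤ (n : ℝ) + 1 := by
        have : N ≤ n := by omega
        have : (N : ℝ) ≤ n := by exact_mod_cast this
        linarith
      have h2 : rexp (C * A) < ((n + 1 : ℕ) : ℝ) := by push_cast; linarith
      refine le_trans (bb_le_cube hmu hA hC h2) ?_
      push_cast
      rw [one_div_mul_one_div]
      apply one_div_le_one_div_of_le (by positivity)
      calc ((N : ℝ) + 1) * ((n : ℝ) + 1) ^ 2 ≤ ((n : ℝ) + 1) * ((n : ℝ) + 1) ^ 2 :=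
            mul_le_mul_of_nonneg_right h1 (by positivity)
        _ = ((n : ℝ) + 1) ^ 3 := by ring
    · positivity
  have hnn : ∀ n : ℕ, 0 ≤ (if N < n + 1 then bb mu A (n + 1) else 0) := by
    intro n
    split_ifs
    · exact (bb_pos _ _ _).le
    · exact le_refl _
  have hs2 : Summable (fun n : ℕ => 1 / ((N : ℝ) + 1) * (1 / ((n : ℝ) + 1) ^ 2)) :=
    zeta2_hasSum.summable.mul_left _
  have hs1 : Summable (fun n : ℕ => if N < n + 1 then bb mu A (n + 1) else 0) :=
    Summable.of_nonneg_of_le hnn hle hs2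
  refine ⟨hs1, ?_⟩
  calc (∑' n : ℕ, if N < n + 1 then bb mu A (n + 1) else 0)
      ≤ ∑' n : ℕ, 1 / ((N : ℝ) + 1) * (1 / ((n : ℝ) + 1) ^ 2) := hs1.tsum_le_tsum hle hs2
    _ = 1 / ((N : ℝ) + 1) * (π ^ 2 / 6) := by rw [tsum_mul_left, zeta2_hasSum.tsum_eq]
    _ ≤ 1 / ((N : ℝ) + 1) * 2 := mul_le_mul_of_nonneg_left zeta2_le (by positivity)
    _ ≤ 1 / 8 := by
        rw [one_div_mul_eq_div, div_le_div_iff₀ hNp (by norm_num)]
        linarith

theorem W_split {mu A C : ℝ} (hmu : 0 < mu) (hA : 1 ≤ A) (hC : 6 / mu ≤ C) (N : ℕ) :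
    W mu A = ∑ n ∈ Finset.Icc 1 N, bb mu A n +
      ∑' n : ℕ, (if N < n + 1 then bb mu A (n + 1) else 0) := by
  have hs := bb_summable hmu hA hC
  have hs1 : Summable (fun n : ℕ => if N < n + 1 then bb mu A (n + 1) else 0) := by
    apply Summable.of_nonneg_of_le _ _ hs
    · intro n; split_ifs
      · exact (bb_pos _ _ _).le
      · exact le_refl _
    · intro n; split_ifs
      · exact le_refl _
      · exact (bb_pos _ _ _).le
  have hs2 : Summable (fun n : ℕ => if N < n + 1 then 0 else bb mu A (n + 1)) := by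
    apply Summable.of_nonneg_of_le _ _ hs
    · intro n; split_ifs
      · exact le_refl _
      · exact (bb_pos _ _ _).le
    · intro n; split_ifs
      · exact (bb_pos _ _ _).le
      · exact le_refl _
  have e : (fun n : ℕ => bb mu A (n + 1)) = fun n : ℕ =>
      (if N < n + 1 then 0 else bb mu A (n + 1)) + (if N < n + 1 then bb mu A (n + 1) else 0) := by
    funext n; split_ifs <;> simp
  rw [W_eq, e, hs2.tsum_add hs1]
  congr 1
  rw [tsum_eq_sum (s := Finset.range N)]
  · rw [Finset.sum_congr rfl (g := fun n => bb mu A (n + 1))]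
    · rw [Finset.range_eq_Ico, Finset.sum_Ico_add' (fun n => bb mu A n) 0 N 1]
      rfl
    · intro n hn
      rw [Finset.mem_range] at hn
      rw [if_neg (by omega)]
  · intro n hn
    rw [Finset.mem_range] at hn
    rw [if_pos (by omega)]

theorem coeff (mu : ℝ) (hmu : 0 < mu) : ∃ C : ℝ, 1 ≤ C ∧ ∃ A0 : ℝ, 1 ≤ A0 ∧ ∀ A ≥ A0,
    let N := ⌊rexp (C * A)⌋₊
    let S := ∑ n ∈ Finset.Icc 1 N, bb mu A n ^ 2
    1 ≤ S ∧
    (∀ a : ℕ, 1 ≤ a → ∑ k ∈ (Finset.Icc 1 N).filter (fun k => a * k ≤ N), bb mu A (a * k) ^ 2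
        ≤ C / a * S) ∧
    W mu A ≤ rexp (C * A) * Real.sqrt S ∧
    (∑' n : ℕ, if N < n + 1 then bb mu A (n + 1) else 0) ≤ Real.sqrt S / 8 ∧
    rexp (A ^ 2 / (4 * mu) - C * A) ≤ W mu A := by
  have he8 : 0 < rexp (8 * mu) := Real.exp_pos _
  have h6mu : 0 < 6 / mu := by positivity
  refine ⟨10 + 6 / mu + mu + 4 * rexp (8 * mu), by linarith, 1, le_refl _, ?_⟩
  intro A hA
  set C := 10 + 6 / mu + mu + 4 * rexp (8 * mu) with hCdef
  intro N S
  have hA1 : (1 : ℝ) ≤ A := hA
  have hC6 : 6 / mu ≤ C := by linarith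
  have hC10 : 10 ≤ C := by linarith
  have hCA10 : 10 ≤ C * A := by nlinarith
  have hN1 : (N : ℝ) ≤ rexp (C * A) := Nat.floor_le (Real.exp_pos _).le
  have hN2 : rexp (C * A) < (N : ℝ) + 1 := Nat.lt_floor_add_one _
  have hA2 : A / (2 * mu) = A / mu / 2 := by field_simp
  have hAmu : 0 < A / mu := by positivity
  have hCA2 : 10 + A / (2 * mu) ≤ C * A := by
    have : C * A = 10 * A + 6 * (A / mu) + mu * A + 4 * rexp (8 * mu) * A := by
      rw [hCdef]; ring
    rw [this, hA2]
    have h1 : 0 < mu * A := by positivity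
    have h2 : 0 < rexp (8 * mu) * A := by positivity
    nlinarith
  have he10 : 11 ≤ rexp 10 := by
    have := Real.add_one_le_exp (10 : ℝ)
    linarith
  have heh : 1 ≤ rexp (A / (2 * mu)) := Real.one_le_exp (by positivity)
  have hbig : 11 * rexp (A / (2 * mu)) ≤ rexp (C * A) := by
    calc 11 * rexp (A / (2 * mu)) ≤ rexp 10 * rexp (A / (2 * mu)) :=
          mul_le_mul_of_nonneg_right he10 (by positivity)
      _ = rexp (10 + A / (2 * mu)) := (Real.exp_add _ _).symm
      _ ≤ rexp (C * A) := Real.exp_le_exp.2 hCA2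
  have hN4 : 4 * rexp (A / (2 * mu)) ≤ (N : ℝ) := by linarith
  have hN16 : (15 : ℝ) ≤ N := by
    have h1 : (16 : ℝ) ≤ rexp (C * A) := by
      have h2 : rexp 10 ≤ rexp (C * A) := Real.exp_le_exp.2 hCA10
      have h3 : rexp 10 = rexp 5 * rexp 5 := by rw [← Real.exp_add]; norm_num
      have h4 := Real.add_one_le_exp (5 : ℝ)
      nlinarith
    linarith
  have hNpos : 1 ≤ N := by
    have : (1 : ℝ) ≤ N := by linarith
    exact_mod_cast this
  have hS1 : 1 ≤ S := by
    have h1 : bb mu A 1 ^ 2 ≤ S :=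
      Finset.single_le_sum (f := fun n => bb mu A n ^ 2) (fun n _ => by positivity)
        (Finset.mem_Icc.2 ⟨le_refl 1, hNpos⟩)
    have h2 : bb mu A 1 ^ 2 = 1 := by simp [bb]
    linarith
  have hsq1 : 1 ≤ Real.sqrt S := by rw [Real.one_le_sqrt]; exact hS1
  obtain ⟨hts, htb⟩ := tail_bound hmu hA1 hC6 hN2 hN16
  refine ⟨hS1, ?_, ?_, ?_, ?_⟩
  · intro a ha
    refine le_trans (dilate hmu hA1 hN4 ha) ?_
    apply mul_le_mul_of_nonneg_right _ (by linarith)
    have haR : (0 : ℝ) < a := by exact_mod_cast ha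
    apply div_le_div_of_nonneg_right _ haR.le
    linarith
  · rw [W_split hmu hA1 hC6 N]
    have hcs : ∑ n ∈ Finset.Icc 1 N, bb mu A n ≤ Real.sqrt N * Real.sqrt S := by
      rw [← Real.sqrt_mul (Nat.cast_nonneg N)]
      apply Real.le_sqrt_of_sq_le
      have := sq_sum_le_card_mul_sum_sq (s := Finset.Icc 1 N) (f := fun n => bb mu A n)
      simpa using this
    have hsN : Real.sqrt N ≤ rexp (C * A / 2) := by
      rw [Real.sqrt_le_left (Real.exp_pos _).le, ← Real.exp_nat_mul]
      refine le_trans hN1 (Real.exp_le_exp.2 ?_)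
      push_cast
      linarith
    have h2 : 2 ≤ rexp (C * A / 2) := by
      have := Real.add_one_le_exp (C * A / 2)
      linarith
    have h3 : rexp (C * A) = rexp (C * A / 2) * rexp (C * A / 2) := by
      rw [← Real.exp_add]; congr 1; ring
    have h4 : Real.sqrt N * Real.sqrt S ≤ rexp (C * A / 2) * Real.sqrt S :=
      mul_le_mul_of_nonneg_right hsN (by linarith)
    have h5 : rexp (C * A / 2) * Real.sqrt S + Real.sqrt S ≤
        rexp (C * A / 2) * rexp (C * A / 2) * Real.sqrt S := by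
      have : rexp (C * A / 2) + 1 ≤ rexp (C * A / 2) * rexp (C * A / 2) := by nlinarith
      nlinarith
    rw [h3]
    linarith
  · linarith
  · -- lower bound for W
    set h0 := A / (2 * mu) with hh0
    have hh0p : 0 < h0 := by positivity
    set M := ⌈rexp h0⌉₊ with hM
    have hM1 : rexp h0 ≤ (M : ℝ) := Nat.le_ceil _
    have hM2 : (M : ℝ) < rexp h0 + 1 := Nat.ceil_lt_add_one (Real.exp_pos _).le
    have hMR : (0 : ℝ) < (M : ℝ) := lt_of_lt_of_le (Real.exp_pos _) hM1
    have hMpos : 0 < M := by exact_mod_cast hMR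
    have hWM : bb mu A M ≤ W mu A := by
      rw [W_eq]
      have hs := bb_summable hmu hA1 hC6
      have := hs.le_tsum (M - 1) (fun n _ => (bb_pos _ _ _).le)
      have e : M - 1 + 1 = M := by omega
      rw [e] at this
      exact this
    refine le_trans ?_ hWM
    rw [bb]
    apply Real.exp_le_exp.2
    have hl1 : h0 ≤ Real.log M := by
      rw [Real.le_log_iff_exp_le hMR]; exact hM1
    have hl2 : Real.log M ≤ h0 + 1 := by
      rw [Real.log_le_iff_le_exp hMR, Real.exp_add]
      have h4 : (2 : ℝ) ≤ rexp 1 := by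
        have := Real.add_one_le_exp (1 : ℝ)
        linarith
      have : 1 ≤ rexp h0 := heh
      nlinarith [Real.exp_pos h0]
    have hA' : A = 2 * mu * h0 := by rw [hh0]; field_simp
    have h6 : A ^ 2 / (4 * mu) = mu * h0 ^ 2 := by
      rw [hA']; field_simp; ring
    have h7 : (Real.log M - h0) ^ 2 ≤ 1 := by nlinarith
    have h8 : mu * (Real.log M - h0) ^ 2 ≤ mu := by nlinarith
    have h9 : -(Real.log M) / 2 - mu * Real.log M ^ 2 + A * Real.log M
        = mu * h0 ^ 2 - mu * (Real.log M - h0) ^ 2 - Real.log M / 2 := by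
      rw [hA']; ring
    rw [h9, h6]
    have h10 : mu + h0 + 1 ≤ C * A := by
      have : C * A = 10 * A + 6 * (A / mu) + mu * A + 4 * rexp (8 * mu) * A := by
        rw [hCdef]; ring
      have h12 : h0 = A / mu / 2 := hA2
      rw [this, h12]
      have h1 : mu * 1 ≤ mu * A := mul_le_mul_of_nonneg_left hA1 hmu.le
      have h2 : 0 < rexp (8 * mu) * A := by positivity
      linarith
    linarith


end

end Pool.Agent.H732R2.KK
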