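import Mathlib

/-!
# Definitions for the disproof of the Ki-Kim conjecture (MP_023270_nt)

`Xi lam z = ∫ Φ(t) e^{lam t^2} e^{izt} dt`.
-/

namespace Pool.Agent.H732R2.KK

open Real Complex MeasureTheory Filter Topology Metric

noncomputable section

/-- The function `Φ` of the Riemann `Ξ`-function. -/
def Phi (t : ℝ) : ℝ :=
  2 * ∑' n : ℕ, (2 * π ^ 2 * ((n : ℝ) + 1) ^ 4 * rexp (9 * t / 2)
      - 3 * π * ((n : ℝ) + 1) ^ 2 * rexp (5 * t / 2)) *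
        rexp (-(π * ((n : ℝ) + 1) ^ 2 * rexp (2 * t)))

/-- The deformed `Ξ`-function `Ξ_λ`. -/
def Xi (lam : ℝ) (z : ℂ) : ℂ :=
  ∫ t : ℝ, ((Phi t * rexp (lam * t ^ 2) : ℝ) : ℂ) * cexp (I * z * t)

/-- The first term of `Φ`, as an entire function. -/
def phi (s : ℂ) : ℂ :=
  2 * (2 * (π : ℂ) ^ 2 * cexp (9 * s / 2) - 3 * (π : ℂ) * cexp (5 * s / 2)) *
    cexp (-((π : ℂ) * cexp (2 * s)))

/-- Two-sided Laplace transform of `φ(t) e^{-μ t²}`. -/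
def E (mu : ℝ) (w : ℂ) : ℂ :=
  ∫ t : ℝ, phi t * cexp (-(mu : ℂ) * (t : ℂ) ^ 2 + w * t)

/-- The contribution of the integer `e^h` to `Ξ_{-μ}(-iw)`. -/
def G (mu h : ℝ) (w : ℂ) : ℂ :=
  ∫ t : ℝ, cexp (-(h : ℂ) / 2) * phi ((t : ℂ) + h) * cexp (-(mu : ℂ) * (t : ℂ) ^ 2 + w * t)

/-- `lg n = log (n+1)`. -/
def lg (n : ℕ) : ℝ := Real.log ((n : ℝ) + 1)

/-- The saddle point. -/
def tau (X : ℝ) : ℂ := ((Real.log (X / (2 * π)) / 2 : ℝ) : ℂ) + ((π / 4 : ℝ) : ℂ) * I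

/-- `W μ κ = ∑ n^{-1/2} exp(-μ log² n + κ log n)`. -/
def W (mu kap : ℝ) : ℝ := ∑' n : ℕ, rexp (-(lg n) / 2 - mu * (lg n) ^ 2 + kap * lg n)

/-- The Dirichlet-type series approximating `Ξ_{-μ}` locally. -/
def DD (mu X : ℝ) (ζ : ℂ) : ℂ :=
  ∑' n : ℕ, cexp (-(1 / 2 + I * X + ζ) * lg n - (mu : ℂ) * (lg n : ℂ) ^ 2 + 2 * mu * lg n * tau X)

/-- coefficients `b_n = n^{-1/2} exp(-μ log² n + A log n)` (`n ≥ 1`). -/
def bb (mu A : ℝ) (n : ℕ) : ℝ :=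
  rexp (-(Real.log n) / 2 - mu * (Real.log n) ^ 2 + A * Real.log n)

/-- Number of zeros of `f` in `S`, with multiplicity. -/
def zc (f : ℂ → ℂ) (S : Set ℂ) : ℕ := ∑ᶠ (z : ℂ) (_ : z ∈ S), analyticOrderNatAt f z

end

end Pool.Agent.H732R2.KK
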