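import Pool.Agent.H732R2.KK.Defs

/-! Task F: factoring out zeros; Jensen's bound. -/

namespace Pool.Agent.H732R2.KK

open Real Complex MeasureTheory Filter Topology Metric

noncomputable section

theorem zeros_finite (f : ℂ → ℂ) (c : ℂ) (R : ℝ)
    (hf : AnalyticOnNhd ℂ f (closedBall c R)) (h0 : ∃ z ∈ closedBall c R, f z ≠ 0) :
    {z | z ∈ closedBall c R ∧ f z = 0}.Finite := by
  by_contra hinf
  have hinf' : {z | z ∈ closedBall c R ∧ f z = 0}.Infinite := hinf
  obtain ⟨x, hx, hacc⟩ := hinf'.exists_accPt_of_subset_isCompact (isCompact_closedBall c R)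
    (fun z hz => hz.1)
  have hfr : ∃ᶠ z in 𝓝[≠] x, f z = 0 := by
    rw [accPt_iff_frequently_nhdsNE] at hacc
    exact hacc.mono fun z hz => hz.2
  have hpre : IsPreconnected (closedBall c R) := (convex_closedBall c R).isPreconnected
  have := hf.eqOn_zero_of_preconnected_of_frequently_eq_zero hpre hx hfr
  obtain ⟨z, hz, hne⟩ := h0
  exact hne (this hz)

theorem order_ne_top (f : ℂ → ℂ) (c : ℂ) (R : ℝ)
    (hf : AnalyticOnNhd ℂ f (closedBall c R)) (h0 : ∃ z ∈ closedBall c R, f z ≠ 0)
    (z : ℂ) (hz : z ∈ closedBall c R) : analyticOrderAt f z ≠ ⊤ := by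
  intro h
  rw [analyticOrderAt_eq_top] at h
  have hpre : IsPreconnected (closedBall c R) := (convex_closedBall c R).isPreconnected
  have := hf.eqOn_zero_of_preconnected_of_eventuallyEq_zero hpre hz h
  obtain ⟨w, hw, hne⟩ := h0
  exact hne (this hw)

theorem dslope_analytic (f : ℂ → ℂ) (a z : ℂ) (ha : AnalyticAt ℂ f a) (hz : AnalyticAt ℂ f z) :
    AnalyticAt ℂ (dslope f a) z := by
  by_cases h : z = a
  · subst h
    obtain ⟨p, hp⟩ := ha
    exact ⟨_, hp.has_fpower_series_dslope_fslope⟩
  · have h1 : AnalyticAt ℂ (fun w => (w - a)⁻¹ • (f w - f a)) z := by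
      have h2 : AnalyticAt ℂ (fun w : ℂ => (w - a)⁻¹) z := by
        apply AnalyticAt.inv (by fun_prop)
        exact sub_ne_zero.2 h
      exact h2.smul (hz.sub analyticAt_const)
    refine h1.congr ?_
    filter_upwards [isOpen_ne.mem_nhds h] with w hw
    rw [dslope_of_ne _ hw, slope_def_module]

theorem dslope_mul (f : ℂ → ℂ) (a z : ℂ) (ha : f a = 0) : f z = (z - a) * dslope f a z := by
  have := sub_smul_dslope f a z
  rw [ha, sub_zero] at this
  rw [← this, smul_eq_mul]

theorem order_dslope (f : ℂ → ℂ) (a z : ℂ) (ha : f a = 0) (haf : AnalyticAt ℂ f a)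
    (hzf : AnalyticAt ℂ f z) (hz : analyticOrderAt f z ≠ ⊤) :
    analyticOrderNatAt f z = (if z = a then 1 else 0) + analyticOrderNatAt (dslope f a) z := by
  have hf : f = (fun w => w - a) * dslope f a := by
    funext w
    exact dslope_mul f a w ha
  have h1 : AnalyticAt ℂ (fun w : ℂ => w - a) z := by fun_prop
  have h2 := dslope_analytic f a z haf hzf
  have h3 : analyticOrderAt f z = analyticOrderAt (fun w : ℂ => w - a) z +
      analyticOrderAt (dslope f a) z := by
    conv_lhs => rw [hf]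
    exact analyticOrderAt_mul h1 h2
  have h4 : analyticOrderAt (fun w : ℂ => w - a) z = if z = a then 1 else 0 := by
    split_ifs with h
    · subst h
      exact analyticOrderAt_id_sub_const_self
    · rw [h1.analyticOrderAt_eq_zero]
      exact sub_ne_zero.2 h
  have h5 : analyticOrderAt (dslope f a) z ≠ ⊤ := by
    intro h
    rw [h] at h3
    exact hz (by rw [h3]; simp)
  unfold analyticOrderNatAt
  rw [h3, h4]
  rw [ENat.toNat_add _ h5]
  · split_ifs <;> simp
  · split_ifs <;> simp

open Classical in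
theorem zc_eq_sum (f : ℂ → ℂ) (S : Set ℂ) (t : Finset ℂ) (hts : ∀ z ∈ t, z ∈ S)
    (ht : ∀ z ∈ S, analyticOrderNatAt f z ≠ 0 → z ∈ t) :
    zc f S = ∑ z ∈ t, analyticOrderNatAt f z := by
  unfold zc
  have h : ∀ z : ℂ, (∑ᶠ (_ : z ∈ S), analyticOrderNatAt f z) =
      if z ∈ S then analyticOrderNatAt f z else 0 := by
    intro z
    by_cases hz : z ∈ S
    · simp [hz]
    · simp [hz]
  rw [finsum_congr h]
  rw [finsum_eq_sum_of_support_subset (s := t)]
  · apply Finset.sum_congr rfl
    intro z hz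
    rw [if_pos (hts z hz)]
  · intro z hz
    rw [Function.mem_support] at hz
    by_cases hzS : z ∈ S
    · rw [if_pos hzS] at hz
      exact ht z hzS hz
    · rw [if_neg hzS] at hz
      exact absurd rfl hz

open Classical in
theorem factor_aux (c : ℂ) (R r : ℝ) (hrR : r ≤ R) : ∀ (n : ℕ) (f : ℂ → ℂ),
    AnalyticOnNhd ℂ f (closedBall c R) → (∃ z ∈ closedBall c R, f z ≠ 0) →
    zc f (closedBall c r) = n →
    ∃ (s : Multiset ℂ) (g : ℂ → ℂ), AnalyticOnNhd ℂ g (closedBall c R) ∧
      (∀ z ∈ closedBall c R, f z = (s.map (fun a => z - a)).prod * g z) ∧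
      (∀ z ∈ closedBall c r, g z ≠ 0) ∧ (∀ a ∈ s, a ∈ closedBall c r ∧ f a = 0) ∧
      Multiset.card s = n := by
  have hsub : closedBall c r ⊆ closedBall c R := closedBall_subset_closedBall hrR
  intro n
  induction n with
  | zero =>
    intro f hf h0 hz
    refine ⟨0, f, hf, by simp, ?_, by simp, by simp⟩
    intro z hz' hfz
    have hfin := zeros_finite f c R hf h0
    set t : Finset ℂ := (hfin.toFinset).filter (fun z => z ∈ closedBall c r) with ht
    have h1 := zc_eq_sum f (closedBall c r) t (by intro z hz; rw [ht] at hz; simp at hz; simpa using hz.2)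
      (by
        intro w hw hne
        rw [ht, Finset.mem_filter, Set.Finite.mem_toFinset]
        exact ⟨⟨hsub hw, apply_eq_zero_of_analyticOrderNatAt_ne_zero hne⟩, hw⟩)
    rw [hz] at h1
    have h2 : analyticOrderNatAt f z = 0 := by
      have := (Finset.sum_eq_zero_iff_of_nonneg (fun _ _ => Nat.zero_le _)).1 h1.symm z (by
        rw [ht, Finset.mem_filter, Set.Finite.mem_toFinset]
        exact ⟨⟨hsub hz', hfz⟩, hz'⟩)
      exact this
    have h3 := order_ne_top f c R hf h0 z (hsub hz')
    have h4 : analyticOrderAt f z = 0 := by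
      rw [← Nat.cast_analyticOrderNatAt h3, h2]
      rfl
    rw [(hf z (hsub hz')).analyticOrderAt_eq_zero] at h4
    exact h4 hfz
  | succ n ih =>
    intro f hf h0 hz
    have hfin := zeros_finite f c R hf h0
    -- there is a zero in the small ball
    have hex : ∃ a ∈ closedBall c r, f a = 0 := by
      by_contra hno
      push Not at hno
      have h1 := zc_eq_sum f (closedBall c r) ∅ (by simp)
        (fun w hw hne => absurd (apply_eq_zero_of_analyticOrderNatAt_ne_zero hne) (hno w hw))
      rw [hz] at h1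
      simp at h1
    obtain ⟨a, har, hfa⟩ := hex
    set g := dslope f a with hg
    have haf := hf a (hsub har)
    have hgan : AnalyticOnNhd ℂ g (closedBall c R) := fun z hz =>
      dslope_analytic f a z haf (hf z hz)
    have hg0 : ∃ z ∈ closedBall c R, g z ≠ 0 := by
      obtain ⟨z, hz, hne⟩ := h0
      refine ⟨z, hz, fun h => hne ?_⟩
      rw [dslope_mul f a z hfa, ← hg, h, mul_zero]
    have hgfin := zeros_finite g c R hgan hg0
    set t : Finset ℂ := (hfin.toFinset ∪ hgfin.toFinset).filter (fun z => z ∈ closedBall c r)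
      with ht
    have htS : ∀ z ∈ t, z ∈ closedBall c r := by
      intro z hz
      rw [ht, Finset.mem_filter] at hz
      exact hz.2
    have h1 := zc_eq_sum f (closedBall c r) t htS
      (by
        intro w hw hne
        rw [ht, Finset.mem_filter, Finset.mem_union, Set.Finite.mem_toFinset]
        exact ⟨Or.inl ⟨hsub hw, apply_eq_zero_of_analyticOrderNatAt_ne_zero hne⟩, hw⟩)
    have h2 := zc_eq_sum g (closedBall c r) t htS
      (by
        intro w hw hne
        rw [ht, Finset.mem_filter, Finset.mem_union, Set.Finite.mem_toFinset,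
          Set.Finite.mem_toFinset]
        exact ⟨Or.inr ⟨hsub hw, apply_eq_zero_of_analyticOrderNatAt_ne_zero hne⟩, hw⟩)
    have hat : a ∈ t := by
      rw [ht, Finset.mem_filter, Finset.mem_union, Set.Finite.mem_toFinset]
      exact ⟨Or.inl ⟨hsub har, hfa⟩, har⟩
    have h3 : zc f (closedBall c r) = 1 + zc g (closedBall c r) := by
      rw [h1, h2]
      rw [Finset.sum_congr rfl (fun z hz => order_dslope f a z hfa haf
        (hf z (hsub (htS z hz))) (order_ne_top f c R hf h0 z (hsub (htS z hz))))]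
      rw [Finset.sum_add_distrib, Finset.sum_ite_eq' t a, if_pos hat]
    have h4 : zc g (closedBall c r) = n := by omega
    obtain ⟨s, k, hk, hk1, hk2, hk3, hk4⟩ := ih g hgan hg0 h4
    refine ⟨a ::ₘ s, k, hk, ?_, hk2, ?_, ?_⟩
    · intro z hz
      rw [dslope_mul f a z hfa, ← hg, hk1 z hz, Multiset.map_cons, Multiset.prod_cons, mul_assoc]
    · intro b hb
      rcases Multiset.mem_cons.1 hb with h | h
      · rw [h]; exact ⟨har, hfa⟩
      · refine ⟨(hk3 b h).1, ?_⟩
        rw [dslope_mul f a b hfa, ← hg, (hk3 b h).2, mul_zero]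
    · rw [Multiset.card_cons, hk4]

theorem factor (f : ℂ → ℂ) (c : ℂ) (R r : ℝ) (hr : 0 < r) (hrR : r ≤ R)
    (hf : AnalyticOnNhd ℂ f (closedBall c R)) (h0 : ∃ z ∈ closedBall c R, f z ≠ 0) :
    ∃ (s : Multiset ℂ) (g : ℂ → ℂ), AnalyticOnNhd ℂ g (closedBall c R) ∧
      (∀ z ∈ closedBall c R, f z = (s.map (fun a => z - a)).prod * g z) ∧
      (∀ z ∈ closedBall c r, g z ≠ 0) ∧ (∀ a ∈ s, a ∈ closedBall c r ∧ f a = 0) ∧
      Multiset.card s = zc f (closedBall c r) :=
  factor_aux c R r hrR _ f hf h0 rfl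

theorem norm_prod_le (s : Multiset ℂ) (z : ℂ) (B : ℝ) (hB : 0 ≤ B) (h : ∀ a ∈ s, ‖z - a‖ ≤ B) :
    ‖(s.map (fun a => z - a)).prod‖ ≤ B ^ Multiset.card s := by
  induction s using Multiset.induction_on with
  | empty => simp
  | cons a s ih =>
    rw [Multiset.map_cons, Multiset.prod_cons, norm_mul, Multiset.card_cons, pow_succ, mul_comm]
    exact mul_le_mul (ih fun b hb => h b (Multiset.mem_cons_of_mem hb))
      (h a (Multiset.mem_cons_self a s)) (norm_nonneg _) (by positivity)

theorem le_norm_prod (s : Multiset ℂ) (z : ℂ) (B : ℝ) (hB : 0 ≤ B) (h : ∀ a ∈ s, B ≤ ‖z - a‖) :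
    B ^ Multiset.card s ≤ ‖(s.map (fun a => z - a)).prod‖ := by
  induction s using Multiset.induction_on with
  | empty => simp
  | cons a s ih =>
    rw [Multiset.map_cons, Multiset.prod_cons, norm_mul, Multiset.card_cons, pow_succ, mul_comm]
    exact mul_le_mul (h a (Multiset.mem_cons_self a s))
      (ih fun b hb => h b (Multiset.mem_cons_of_mem hb)) (by positivity) (norm_nonneg _)

theorem jensen (f : ℂ → ℂ) (c : ℂ) (r M : ℝ) (hr : 0 < r)
    (hf : AnalyticOnNhd ℂ f (closedBall c (3 * r)))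
    (hM : ∀ z ∈ closedBall c (3 * r), ‖f z‖ ≤ rexp M) (hc : 1 / 2 ≤ ‖f c‖) :
    (zc f (closedBall c r) : ℝ) ≤ (M + Real.log 2) / Real.log 2 := by
  have h3r : 0 < 3 * r := by positivity
  have hcm : c ∈ closedBall c (3 * r) := mem_closedBall_self h3r.le
  have h0 : ∃ z ∈ closedBall c (3 * r), f z ≠ 0 := ⟨c, hcm, by
    intro h
    rw [h, norm_zero] at hc
    norm_num at hc⟩
  obtain ⟨s, g, hg, hg1, hg2, hg3, hg4⟩ := factor f c (3 * r) r hr (by linarith) hf h0
  set m := Multiset.card s with hm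
  have hgb : ∀ z ∈ sphere c (3 * r), ‖g z‖ ≤ rexp M / (2 * r) ^ m := by
    intro z hz
    have hz' : z ∈ closedBall c (3 * r) := sphere_subset_closedBall hz
    have h1 := hM z hz'
    rw [hg1 z hz', norm_mul] at h1
    have h2 : (2 * r) ^ m ≤ ‖(s.map (fun a => z - a)).prod‖ := by
      apply le_norm_prod s z (2 * r) (by positivity)
      intro a ha
      have h3 := (hg3 a ha).1
      rw [mem_closedBall, dist_eq_norm] at h3
      rw [mem_sphere, dist_eq_norm] at hz
      have h4 : z - c = (z - a) + (a - c) := by ring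
      have h5 : ‖z - c‖ ≤ ‖z - a‖ + ‖a - c‖ := by rw [h4]; exact norm_add_le _ _
      linarith
    rw [le_div_iff₀ (by positivity), mul_comm]
    calc (2 * r) ^ m * ‖g z‖ ≤ ‖(s.map (fun a => z - a)).prod‖ * ‖g z‖ := by gcongr
      _ ≤ rexp M := h1
  have hgc : ‖g c‖ ≤ rexp M / (2 * r) ^ m := by
    apply Complex.norm_le_of_forall_mem_frontier_norm_le (U := ball c (3 * r)) isBounded_ball
    · apply DifferentiableOn.diffContOnCl
      rw [closure_ball c h3r.ne']
      exact hg.differentiableOn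
    · intro z hz
      rw [frontier_ball c h3r.ne'] at hz
      exact hgb z hz
    · rw [closure_ball c h3r.ne']
      exact hcm
  have hfc : ‖f c‖ ≤ r ^ m * (rexp M / (2 * r) ^ m) := by
    rw [hg1 c hcm, norm_mul]
    apply mul_le_mul _ hgc (norm_nonneg _) (by positivity)
    apply norm_prod_le s c r hr.le
    intro a ha
    have h3 := (hg3 a ha).1
    rw [mem_closedBall, dist_eq_norm, norm_sub_rev] at h3
    exact h3
  have h5 : (1 : ℝ) / 2 ≤ rexp M / 2 ^ m := by
    refine (hc.trans hfc).trans (le_of_eq ?_)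
    rw [mul_pow]
    field_simp
  have hlog2 : 0 < Real.log 2 := Real.log_pos (by norm_num)
  rw [← hg4, le_div_iff₀ hlog2]
  rw [div_le_div_iff₀ (by norm_num) (by positivity), one_mul] at h5
  have h6 := Real.log_le_log (by positivity) h5
  rw [Real.log_pow, Real.log_mul (Real.exp_pos M).ne' (by norm_num), Real.log_exp] at h6
  exact h6

end

end Pool.Agent.H732R2.KK
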