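import Pool.Agent.H732R2.KK.Defs
import Pool.Agent.H732R2.KK.Factor

/-!
# Task H : large values force zeros
-/

namespace Pool.Agent.H732R2.KK

open Real Complex MeasureTheory Filter Topology Metric

noncomputable section

/-- a zero-free holomorphic function on a disc has a holomorphic logarithm -/
theorem harm_log (G : ℂ → ℂ) (r : ℝ) (hr : 0 < r) (hG : DifferentiableOn ℂ G (ball 0 r))
    (hG0 : ∀ u ∈ ball (0:ℂ) r, G u ≠ 0) :
    ∃ h : ℂ → ℂ, DifferentiableOn ℂ h (ball 0 r) ∧ (∀ u ∈ ball (0:ℂ) r, G u = cexp (h u)) ∧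
      |(h 0).im| ≤ π := by
  have h0 : (0:ℂ) ∈ ball (0:ℂ) r := mem_ball_self hr
  have hφ : DifferentiableOn ℂ (fun u => deriv G u / G u) (ball 0 r) :=
    (hG.deriv isOpen_ball).div hG hG0
  obtain ⟨H, hH⟩ := hφ.isExactOn_ball
  refine ⟨fun u => H u - H 0 + Complex.log (G 0), ?_, ?_, ?_⟩
  · intro u hu
    exact (((hH u hu).differentiableAt.sub_const _).add_const _).differentiableWithinAt
  · have hder : ∀ u ∈ ball (0:ℂ) r,
        HasDerivAt (fun u => G u * cexp (-(H u - H 0 + Complex.log (G 0)))) 0 u := by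
      intro u hu
      have h1 : HasDerivAt G (deriv G u) u :=
        (hG.differentiableAt (isOpen_ball.mem_nhds hu)).hasDerivAt
      have h2 : HasDerivAt (fun u => cexp (-(H u - H 0 + Complex.log (G 0))))
          (cexp (-(H u - H 0 + Complex.log (G 0))) * (-(deriv G u / G u))) u :=
        (((hH u hu).sub_const _).add_const _).neg.cexp
      have h3 := h1.mul h2
      have h4 : deriv G u * cexp (-(H u - H 0 + Complex.log (G 0))) +
          G u * (cexp (-(H u - H 0 + Complex.log (G 0))) * (-(deriv G u / G u))) = 0 := by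
        field_simp [hG0 u hu]
        ring
      rw [h4] at h3
      exact h3
    have hconst : ∀ u ∈ ball (0:ℂ) r, G u * cexp (-(H u - H 0 + Complex.log (G 0))) = 1 := by
      intro u hu
      have h5 := isOpen_ball.is_const_of_deriv_eq_zero (convex_ball (0:ℂ) r).isPreconnected
        (fun v hv => (hder v hv).differentiableAt.differentiableWithinAt)
        (fun v hv => (hder v hv).deriv) hu h0
      simp only [sub_self, zero_add] at h5
      rw [h5, Complex.exp_neg, Complex.exp_log (hG0 0 h0), mul_inv_cancel₀ (hG0 0 h0)]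
    intro u hu
    have h6 := hconst u hu
    rw [Complex.exp_neg] at h6
    field_simp at h6
    exact h6
  · simp only [sub_self, zero_add]
    rw [Complex.log_im]
    exact Complex.abs_arg_le_pi _

/-- Taylor expansion bound -/
theorem harm_taylor (h : ℂ → ℂ) (A B : ℝ) (_hA : 0 ≤ A) (hB : 0 ≤ B)
    (hd : DifferentiableOn ℂ h (ball 0 3))
    (hB' : ∀ u, ‖u‖ ≤ 1 / 8 → ‖h u‖ ≤ B) (hA' : ∀ u, ‖u‖ ≤ 5 / 2 → ‖h u‖ ≤ A)
    (q : ℂ) (hq : ‖q‖ ≤ 2) (K : ℕ) : ‖h q‖ ≤ B * 16 ^ K + 5 * A * (4 / 5) ^ K := by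
  have hco : ∀ r : ℝ, 0 < r → r < 3 → DiffContOnCl ℂ h (ball 0 r) := by
    intro r hr hr3
    refine ⟨hd.mono (ball_subset_ball hr3.le), ?_⟩
    rw [closure_ball _ hr.ne']
    exact hd.continuousOn.mono (closedBall_subset_ball hr3)
  have hq3 : q ∈ ball (0:ℂ) 3 := by rw [mem_ball_zero_iff]; linarith
  have hsum := hasSum_taylorSeries_on_ball hd hq3
  set t : ℕ → ℂ := fun n => ((n.factorial : ℂ))⁻¹ • (q - 0) ^ n • iteratedDeriv n h 0 with ht
  have htB : ∀ n, ‖t n‖ ≤ B * 16 ^ n := by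
    intro n
    have h1 := norm_iteratedDeriv_le_of_forall_mem_sphere_norm_le (f := h) (c := 0) (R := 1 / 8)
      (C := B) n (by norm_num) (hco _ (by norm_num) (by norm_num))
      (fun z hz => hB' z (by rw [mem_sphere_zero_iff_norm] at hz; linarith))
    have hf : (0:ℝ) < n.factorial := by positivity
    have h2 : ‖t n‖ = (n.factorial : ℝ)⁻¹ * (‖q‖ ^ n * ‖iteratedDeriv n h 0‖) := by
      simp only [ht, sub_zero, norm_smul, norm_inv, norm_pow, Complex.norm_natCast]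
    rw [h2]
    calc (n.factorial : ℝ)⁻¹ * (‖q‖ ^ n * ‖iteratedDeriv n h 0‖)
        ≤ (n.factorial : ℝ)⁻¹ * (2 ^ n * (n.factorial * B / (1 / 8) ^ n)) := by gcongr
      _ = B * 16 ^ n := by
          have h3 : (16:ℝ) ^ n = 2 ^ n * 8 ^ n := by rw [← mul_pow]; norm_num
          have h4 : (1 / 8 : ℝ) ^ n = (8 ^ n)⁻¹ := by rw [one_div, inv_pow]
          rw [h3, h4]
          field_simp
  have htA : ∀ n, ‖t n‖ ≤ A * (4 / 5) ^ n := by
    intro n
    have h1 := norm_iteratedDeriv_le_of_forall_mem_sphere_norm_le (f := h) (c := 0) (R := 5 / 2)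
      (C := A) n (by norm_num) (hco _ (by norm_num) (by norm_num))
      (fun z hz => hA' z (by rw [mem_sphere_zero_iff_norm] at hz; linarith))
    have hf : (0:ℝ) < n.factorial := by positivity
    have h2 : ‖t n‖ = (n.factorial : ℝ)⁻¹ * (‖q‖ ^ n * ‖iteratedDeriv n h 0‖) := by
      simp only [ht, sub_zero, norm_smul, norm_inv, norm_pow, Complex.norm_natCast]
    rw [h2]
    calc (n.factorial : ℝ)⁻¹ * (‖q‖ ^ n * ‖iteratedDeriv n h 0‖)
        ≤ (n.factorial : ℝ)⁻¹ * (2 ^ n * (n.factorial * A / (5 / 2) ^ n)) := by gcongr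
      _ = A * (4 / 5) ^ n := by
          have : (4 / 5 : ℝ) ^ n = 2 ^ n / (5 / 2) ^ n := by rw [← div_pow]; norm_num
          rw [this]
          field_simp
  have hsplit : h q = ∑ n ∈ Finset.range K, t n + ∑' n, t (n + K) := by
    rw [← hsum.tsum_eq]
    exact (hsum.summable.sum_add_tsum_nat_add K).symm
  rw [hsplit]
  refine (norm_add_le _ _).trans (add_le_add ?_ ?_)
  · refine (norm_sum_le _ _).trans ?_
    calc ∑ n ∈ Finset.range K, ‖t n‖ ≤ ∑ n ∈ Finset.range K, B * 16 ^ n :=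
          Finset.sum_le_sum fun n _ => htB n
      _ = B * ∑ n ∈ Finset.range K, (16:ℝ) ^ n := by rw [Finset.mul_sum]
      _ ≤ B * 16 ^ K := by
          refine mul_le_mul_of_nonneg_left ?_ hB
          rw [geom_sum_eq (by norm_num)]
          have : (0:ℝ) < 16 ^ K := by positivity
          rw [div_le_iff₀ (by norm_num)]
          linarith
  · have hg : HasSum (fun n : ℕ => A * (4 / 5 : ℝ) ^ (n + K)) (5 * A * (4 / 5) ^ K) := by
      have h1 := (hasSum_geometric_of_lt_one (r := (4 / 5 : ℝ)) (by norm_num)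
        (by norm_num)).mul_left (A * (4 / 5) ^ K)
      have h2 : A * (4 / 5 : ℝ) ^ K * (1 - 4 / 5)⁻¹ = 5 * A * (4 / 5) ^ K := by ring
      rw [h2] at h1
      refine h1.congr_fun ?_
      intro n
      rw [pow_add]; ring
    exact tsum_of_norm_bounded hg fun n => htA (n + K)

/-- the core estimate -/
theorem harm_core (δ : ℝ) (hδ : 0 < δ) : ∃ η : ℝ, 0 < η ∧ ∃ M0 : ℝ, 1 ≤ M0 ∧
    ∀ (m : ℕ) (G : ℂ → ℂ) (q : ℂ) (M : ℝ), M0 ≤ M →
    DifferentiableOn ℂ G (ball 0 3) → (∀ u ∈ ball (0:ℂ) 3, G u ≠ 0) →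
    (∀ u ∈ ball (0:ℂ) 3, ‖G u‖ ≤ rexp M) →
    (∀ u ∈ ball (0:ℂ) (1 / 4), ‖G u‖ ≤ rexp (3 * m + 1)) →
    rexp (-(3 * m + 1)) ≤ ‖G 0‖ → ‖q‖ ≤ 2 → rexp (δ * M - m) ≤ ‖G q‖ → η * M ≤ m := by
  obtain ⟨K, hK⟩ : ∃ K : ℕ, (4 / 5 : ℝ) ^ K < δ / 200 :=
    exists_pow_lt_of_lt_one (by positivity) (by norm_num)
  have h16 : (0:ℝ) < 16 ^ K := by positivity
  set C1 : ℝ := 166 + 15 * 16 ^ K with hC1
  set C2 : ℝ := 17 * 16 ^ K + 275 with hC2
  have hC1p : 0 < C1 := by positivity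
  have hC2p : 0 < C2 := by positivity
  refine ⟨δ / (2 * C1), by positivity, max 1 (4 * C2 / δ), le_max_left _ _, ?_⟩
  intro m G q M hM hG hG0 hGM hGs hGl hq hGq
  have hM1 : 1 ≤ M := (le_max_left _ _).trans hM
  have hM2 : 4 * C2 / δ ≤ M := (le_max_right _ _).trans hM
  obtain ⟨h, hh, hexp, him⟩ := harm_log G 3 (by norm_num) hG hG0
  have hm0 : (0:ℝ) ≤ m := Nat.cast_nonneg m
  have hre : ∀ u ∈ ball (0:ℂ) 3, ‖G u‖ = rexp (h u).re := by
    intro u hu
    rw [hexp u hu, Complex.norm_exp]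
  have h03 : (0:ℂ) ∈ ball (0:ℂ) 3 := mem_ball_self (by norm_num)
  have hreM : ∀ u ∈ ball (0:ℂ) 3, (h u).re ≤ M := by
    intro u hu
    have := hGM u hu
    rw [hre u hu] at this
    exact Real.exp_le_exp.1 this
  have hres : ∀ u ∈ ball (0:ℂ) (1 / 4), (h u).re ≤ 3 * m + 1 := by
    intro u hu
    have := hGs u hu
    rw [hre u (ball_subset_ball (by norm_num) hu)] at this
    exact Real.exp_le_exp.1 this
  have hh0 : ‖h 0‖ ≤ 3 * m + 5 := by
    have h1 : (h 0).re ≤ 3 * m + 1 := hres 0 (mem_ball_self (by norm_num))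
    have h2 : -(3 * m + 1) ≤ (h 0).re := by
      rw [hre 0 h03] at hGl
      exact Real.exp_le_exp.1 hGl
    have h3 : |(h 0).re| ≤ 3 * m + 1 := abs_le.2 ⟨h2, h1⟩
    have h4 := Complex.norm_le_abs_re_add_abs_im (h 0)
    have h5 : π ≤ 4 := Real.pi_le_four
    linarith
  -- Borel-Caratheodory, large disc
  have hbig : ∀ u, ‖u‖ ≤ 5 / 2 → ‖h u‖ ≤ 10 * M + 33 * m + 55 := by
    intro u hu
    have hu3 : u ∈ ball (0:ℂ) 3 := by rw [mem_ball_zero_iff]; linarith
    have hbc := borelCaratheodory (f := h) (M := M) (R := 3) (z := u) (by linarith) hh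
      (fun v hv => hreM v hv) (by norm_num) hu3
    have hn := norm_nonneg u
    have hden : 1 / 2 ≤ 3 - ‖u‖ := by linarith
    have h1 : 2 * M * ‖u‖ / (3 - ‖u‖) ≤ 10 * M := by
      rw [div_le_iff₀ (by linarith)]
      nlinarith
    have h2 : ‖h 0‖ * (3 + ‖u‖) / (3 - ‖u‖) ≤ 11 * (3 * m + 5) := by
      rw [div_le_iff₀ (by linarith)]
      have h3 : ‖h 0‖ * (3 + ‖u‖) ≤ (3 * m + 5) * (11 / 2) :=
        mul_le_mul hh0 (by linarith) (by linarith) (by positivity)
      nlinarith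
    linarith
  have hsmall : ∀ u, ‖u‖ ≤ 1 / 8 → ‖h u‖ ≤ 15 * m + 17 := by
    intro u hu
    have hu3 : u ∈ ball (0:ℂ) (1 / 4) := by rw [mem_ball_zero_iff]; linarith
    have hbc := borelCaratheodory (f := h) (M := 3 * m + 1) (R := 1 / 4) (z := u) (by positivity)
      (hh.mono (ball_subset_ball (by norm_num)))
      (fun v hv => hres v hv) (by norm_num) hu3
    have hn := norm_nonneg u
    have hden : 1 / 8 ≤ 1 / 4 - ‖u‖ := by linarith
    have h1 : 2 * (3 * (m:ℝ) + 1) * ‖u‖ / (1 / 4 - ‖u‖) ≤ 2 * (3 * m + 1) := by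
      rw [div_le_iff₀ (by linarith)]
      nlinarith
    have h2 : ‖h 0‖ * (1 / 4 + ‖u‖) / (1 / 4 - ‖u‖) ≤ 3 * (3 * m + 5) := by
      rw [div_le_iff₀ (by linarith)]
      have h3 : ‖h 0‖ * (1 / 4 + ‖u‖) ≤ (3 * m + 5) * (3 / 8) :=
        mul_le_mul hh0 (by linarith) (by linarith) (by positivity)
      nlinarith
    linarith
  have htay := harm_taylor h (10 * M + 33 * m + 55) (15 * m + 17) (by positivity) (by positivity)
    hh hsmall hbig q hq K
  have hq3 : q ∈ ball (0:ℂ) 3 := by rw [mem_ball_zero_iff]; linarith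
  have hlow : δ * M - m ≤ ‖h q‖ := by
    rw [hre q hq3] at hGq
    exact (Real.exp_le_exp.1 hGq).trans (Complex.re_le_norm _)
  have hKp : (0:ℝ) < (4 / 5) ^ K := by positivity
  have hK1 : (4 / 5 : ℝ) ^ K ≤ 1 := pow_le_one₀ (by norm_num) (by norm_num)
  -- combine
  have e1 : 5 * (10 * M + 33 * m + 55) * (4 / 5 : ℝ) ^ K ≤ δ / 4 * M + 165 * m + 275 := by
    have e2 : 50 * M * (4 / 5 : ℝ) ^ K ≤ 50 * M * (δ / 200) :=
      mul_le_mul_of_nonneg_left hK.le (by linarith)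
    have e3 : (165 * (m:ℝ) + 275) * (4 / 5 : ℝ) ^ K ≤ (165 * m + 275) * 1 :=
      mul_le_mul_of_nonneg_left hK1 (by positivity)
    nlinarith
  have e4 : δ * M ≤ δ / 4 * M + C1 * m + C2 := by
    rw [hC1, hC2]
    have : (15 * (m:ℝ) + 17) * 16 ^ K = 15 * 16 ^ K * m + 17 * 16 ^ K := by ring
    rw [this] at htay
    have e5 : (166 + 15 * 16 ^ K) * (m:ℝ) = 166 * m + 15 * 16 ^ K * m := by ring
    rw [e5]
    linarith
  have e6 : C2 ≤ δ / 4 * M := by
    rw [div_le_iff₀ hδ] at hM2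
    linarith
  have e7 : δ / 2 * M ≤ C1 * m := by linarith
  rw [div_mul_eq_mul_div, div_le_iff₀ (by positivity)]
  linarith

theorem harm_prod_norm (s : Multiset ℂ) (z : ℂ) :
    ‖(s.map (fun a => z - a)).prod‖ = (s.map (fun a => ‖z - a‖)).prod := by
  induction s using Multiset.induction with
  | empty => simp
  | cons a s ih => rw [Multiset.map_cons, Multiset.prod_cons, norm_mul, ih, Multiset.map_cons,
      Multiset.prod_cons]

theorem harm_prod_lower (s : Multiset ℂ) (z : ℂ) (L : ℝ) (hL : 0 ≤ L)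
    (h : ∀ a ∈ s, L ≤ ‖z - a‖) : L ^ Multiset.card s ≤ ‖(s.map (fun a => z - a)).prod‖ := by
  rw [harm_prod_norm]
  induction s using Multiset.induction with
  | empty => simp
  | cons a s ih =>
    rw [Multiset.map_cons, Multiset.prod_cons, Multiset.card_cons, pow_succ, mul_comm]
    exact mul_le_mul (h a (Multiset.mem_cons_self a s))
      (ih fun b hb => h b (Multiset.mem_cons_of_mem hb)) (by positivity) (norm_nonneg _)

theorem harm_prod_upper (s : Multiset ℂ) (z : ℂ) (U : ℝ)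
    (h : ∀ a ∈ s, ‖z - a‖ ≤ U) : ‖(s.map (fun a => z - a)).prod‖ ≤ U ^ Multiset.card s := by
  rw [harm_prod_norm]
  induction s using Multiset.induction with
  | empty => simp
  | cons a s ih =>
    have h1 := h a (Multiset.mem_cons_self a s)
    have hU : 0 ≤ U := (norm_nonneg _).trans h1
    rw [Multiset.map_cons, Multiset.prod_cons, Multiset.card_cons, pow_succ, mul_comm (U ^ _)]
    refine mul_le_mul h1 (ih fun b hb => h b (Multiset.mem_cons_of_mem hb)) ?_ hU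
    rw [← harm_prod_norm]
    exact norm_nonneg _

theorem many_zeros (δ : ℝ) (hδ : 0 < δ) (_hδ1 : δ ≤ 1) : ∃ η : ℝ, 0 < η ∧ ∃ M0 : ℝ, 1 ≤ M0 ∧
    ∀ (f : ℂ → ℂ) (c p : ℂ) (R M : ℝ), 0 < R → M0 ≤ M →
    AnalyticOnNhd ℂ f (closedBall c (6 * R)) →
    (∀ z ∈ closedBall c (6 * R), ‖f z‖ ≤ rexp M) →
    (∀ z ∈ closedBall c (R / 2), ‖f z - 1‖ ≤ 1 / 2) →
    p ∈ closedBall c (2 * R) → rexp (δ * M) ≤ ‖f p‖ →
    η * M ≤ (zc f (closedBall c (3 * R)) : ℝ) := by
  obtain ⟨η, hη, M0, hM0, hcore⟩ := harm_core δ hδ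
  refine ⟨η, hη, M0, hM0, ?_⟩
  intro f c p R M hR hM hf hfM hf1 hp hfp
  -- lower bound near `c`
  have hlow : ∀ z ∈ closedBall c (R / 2), 1 / 2 ≤ ‖f z‖ := by
    intro z hz
    have h1 := hf1 z hz
    have h2 : ‖(1:ℂ)‖ ≤ ‖f z‖ + ‖f z - 1‖ := by
      calc ‖(1:ℂ)‖ = ‖f z - (f z - 1)‖ := by congr 1; ring
        _ ≤ ‖f z‖ + ‖f z - 1‖ := norm_sub_le _ _
    rw [norm_one] at h2
    linarith
  have hupp : ∀ z ∈ closedBall c (R / 2), ‖f z‖ ≤ 3 / 2 := by
    intro z hz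
    have h1 := hf1 z hz
    have h2 : ‖f z‖ ≤ ‖f z - 1‖ + ‖(1:ℂ)‖ := by
      calc ‖f z‖ = ‖(f z - 1) + 1‖ := by congr 1; ring
        _ ≤ ‖f z - 1‖ + ‖(1:ℂ)‖ := norm_add_le _ _
    rw [norm_one] at h2
    linarith
  have hcc : c ∈ closedBall c (R / 2) := mem_closedBall_self (by positivity)
  have hcne : f c ≠ 0 := by
    intro h
    have := hlow c hcc
    rw [h, norm_zero] at this
    norm_num at this
  obtain ⟨s, g, hg, hfac, hgne, hs, hcard⟩ := factor f c (6 * R) (3 * R) (by positivity)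
    (by linarith) hf ⟨c, mem_closedBall_self (by positivity), hcne⟩
  rw [← hcard]
  set m := Multiset.card s with hm
  -- position of the zeros
  have hs1 : ∀ a ∈ s, ‖a - c‖ ≤ 3 * R := fun a ha => by
    have := (hs a ha).1
    rwa [mem_closedBall, dist_eq_norm] at this
  have hs2 : ∀ a ∈ s, R / 2 ≤ ‖a - c‖ := by
    intro a ha
    by_contra hcon
    push Not at hcon
    have h1 := hlow a (by rw [mem_closedBall, dist_eq_norm]; exact hcon.le)
    rw [(hs a ha).2, norm_zero] at h1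
    norm_num at h1
  -- the bound for g
  have hgM : ∀ z ∈ closedBall c (6 * R), ‖((3 * R : ℝ) : ℂ) ^ m * g z‖ ≤ rexp M := by
    intro z hz
    have hcl : closure (ball c (6 * R)) = closedBall c (6 * R) := closure_ball _ (by positivity)
    have hd : DiffContOnCl ℂ (fun z => ((3 * R : ℝ) : ℂ) ^ m * g z) (ball c (6 * R)) := by
      refine ⟨?_, ?_⟩
      · exact (hg.differentiableOn.mono ball_subset_closedBall).const_mul _
      · rw [hcl]
        exact continuousOn_const.mul hg.continuousOn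
    refine Complex.norm_le_of_forall_mem_frontier_norm_le isBounded_ball hd ?_ (hcl ▸ hz)
    intro w hw
    rw [frontier_ball _ (by positivity)] at hw
    have hwc : w ∈ closedBall c (6 * R) := sphere_subset_closedBall hw
    have hwn : ‖w - c‖ = 6 * R := by rwa [mem_sphere, dist_eq_norm] at hw
    have h1 : (3 * R) ^ m ≤ ‖(s.map (fun a => w - a)).prod‖ := by
      refine harm_prod_lower s w (3 * R) (by positivity) fun a ha => ?_
      have h2 : ‖w - c‖ ≤ ‖w - a‖ + ‖a - c‖ := by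
        calc ‖w - c‖ = ‖(w - a) + (a - c)‖ := by congr 1; ring
          _ ≤ _ := norm_add_le _ _
      linarith [hs1 a ha]
    calc ‖((3 * R : ℝ) : ℂ) ^ m * g w‖ = (3 * R) ^ m * ‖g w‖ := by
          rw [norm_mul, norm_pow, Complex.norm_real, Real.norm_eq_abs, abs_of_pos (by positivity)]
      _ ≤ ‖(s.map (fun a => w - a)).prod‖ * ‖g w‖ :=
          mul_le_mul_of_nonneg_right h1 (norm_nonneg _)
      _ = ‖f w‖ := by rw [hfac w hwc, norm_mul]
      _ ≤ rexp M := hfM w hwc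
  -- the normalised function
  set G : ℂ → ℂ := fun u => ((3 * R : ℝ) : ℂ) ^ m * g (c + R * u) with hG
  have hin : ∀ (u : ℂ) (ρ : ℝ), ‖u‖ ≤ ρ → c + R * u ∈ closedBall c (ρ * R) := by
    intro u ρ hu
    rw [mem_closedBall, dist_eq_norm]
    have : c + R * u - c = R * u := by ring
    rw [this, norm_mul, Complex.norm_real, Real.norm_eq_abs, abs_of_pos hR, mul_comm]
    exact mul_le_mul_of_nonneg_right hu hR.le
  have hGd : DifferentiableOn ℂ G (ball 0 3) := by
    refine DifferentiableOn.const_mul ?_ _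
    refine (hg.differentiableOn (s := closedBall c (6 * R))).comp
      (by fun_prop : DifferentiableOn ℂ (fun u : ℂ => c + R * u) (ball 0 3)) ?_
    intro u hu
    rw [mem_ball_zero_iff] at hu
    exact closedBall_subset_closedBall (by linarith) (hin u 3 hu.le)
  have hGn : ∀ u, ‖G u‖ = (3 * R) ^ m * ‖g (c + R * u)‖ := by
    intro u
    rw [hG]
    simp only
    rw [norm_mul, norm_pow, Complex.norm_real, Real.norm_eq_abs, abs_of_pos (by positivity)]
  have h3R : (0:ℝ) < (3 * R) ^ m := by positivity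
  have hGne : ∀ u ∈ ball (0:ℂ) 3, G u ≠ 0 := by
    intro u hu
    rw [mem_ball_zero_iff] at hu
    have h1 := hgne _ (hin u 3 hu.le)
    refine mul_ne_zero (pow_ne_zero _ ?_) h1
    exact_mod_cast (by positivity : (3 * R : ℝ) ≠ 0)
  have hGM : ∀ u ∈ ball (0:ℂ) 3, ‖G u‖ ≤ rexp M := by
    intro u hu
    rw [mem_ball_zero_iff] at hu
    exact hgM _ (closedBall_subset_closedBall (by linarith) (hin u 3 hu.le))
  have he : (2.7 : ℝ) ≤ rexp 1 := by
    have := Real.exp_one_gt_d9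
    linarith
  have he3 : (12 : ℝ) ≤ rexp 3 := by
    have h1 : rexp 3 = rexp 1 ^ 3 := by rw [← Real.exp_nat_mul]; norm_num
    rw [h1]
    calc (12:ℝ) ≤ 2.7 ^ 3 := by norm_num
      _ ≤ rexp 1 ^ 3 := by gcongr
  -- near the centre
  have hdist : ∀ u : ℂ, ‖u‖ ≤ 1 / 4 → ∀ a ∈ s, R / 4 ≤ ‖c + R * u - a‖ ∧
      ‖c + R * u - a‖ ≤ 13 / 4 * R := by
    intro u hu a ha
    have h1 : ‖c + R * u - c‖ ≤ 1 / 4 * R := by
      have := hin u (1 / 4) hu
      rwa [mem_closedBall, dist_eq_norm] at this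
    have h2 : ‖a - c‖ ≤ ‖c + R * u - a‖ + ‖c + R * u - c‖ := by
      calc ‖a - c‖ = ‖(c + R * u - c) - (c + R * u - a)‖ := by congr 1; ring
        _ ≤ ‖c + R * u - c‖ + ‖c + R * u - a‖ := norm_sub_le _ _
        _ = _ := add_comm _ _
    have h3 : ‖c + R * u - a‖ ≤ ‖c + R * u - c‖ + ‖a - c‖ := by
      calc ‖c + R * u - a‖ = ‖(c + R * u - c) - (a - c)‖ := by congr 1; ring
        _ ≤ _ := norm_sub_le _ _
    constructor
    · linarith [hs2 a ha]
    · linarith [hs1 a ha]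
  have hGs : ∀ u ∈ ball (0:ℂ) (1 / 4), ‖G u‖ ≤ rexp (3 * m + 1) := by
    intro u hu
    rw [mem_ball_zero_iff] at hu
    have h1 := hin u (1 / 4) hu.le
    have h2 : ‖f (c + R * u)‖ ≤ 3 / 2 := hupp _ (closedBall_subset_closedBall (by linarith) h1)
    have h3 : (R / 4) ^ m ≤ ‖(s.map (fun a => (c + R * u) - a)).prod‖ :=
      harm_prod_lower s _ (R / 4) (by positivity) fun a ha => (hdist u hu.le a ha).1
    have h4 : (R / 4) ^ m * ‖g (c + R * u)‖ ≤ 3 / 2 := by
      refine le_trans ?_ h2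
      rw [hfac _ (closedBall_subset_closedBall (by linarith) h1), norm_mul]
      exact mul_le_mul_of_nonneg_right h3 (norm_nonneg _)
    have h5 : ‖G u‖ = 12 ^ m * ((R / 4) ^ m * ‖g (c + R * u)‖) := by
      rw [hGn, ← mul_assoc, ← mul_pow]
      congr 2
      ring
    rw [h5]
    calc (12:ℝ) ^ m * ((R / 4) ^ m * ‖g (c + R * u)‖) ≤ 12 ^ m * (3 / 2) := by gcongr
      _ ≤ rexp 3 ^ m * rexp 1 := by
          refine mul_le_mul (by gcongr) (by linarith) (by norm_num) (by positivity)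
      _ = rexp (3 * m + 1) := by
          rw [Real.exp_add, ← Real.exp_nat_mul, mul_comm (m:ℝ) 3]
  have hGl : rexp (-(3 * m + 1)) ≤ ‖G 0‖ := by
    have h0 : ‖(0:ℂ)‖ ≤ 1 / 4 := by simp
    have h1 := hin 0 (1 / 4) h0
    have h2 : 1 / 2 ≤ ‖f (c + R * 0)‖ := hlow _ (closedBall_subset_closedBall (by linarith) h1)
    have h3 : ‖(s.map (fun a => (c + R * 0) - a)).prod‖ ≤ (13 / 4 * R) ^ m :=
      harm_prod_upper s _ (13 / 4 * R) fun a ha => (hdist 0 h0 a ha).2
    have h4 : 1 / 2 ≤ (13 / 4 * R) ^ m * ‖g (c + R * 0)‖ := by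
      refine le_trans h2 ?_
      rw [hfac _ (closedBall_subset_closedBall (by linarith) h1), norm_mul]
      exact mul_le_mul_of_nonneg_right h3 (norm_nonneg _)
    have h5 : (13 / 4 * R) ^ m * ‖g (c + R * 0)‖ = (13 / 12) ^ m * ‖G 0‖ := by
      rw [hGn, ← mul_assoc, ← mul_pow]
      congr 2
      ring
    rw [h5] at h4
    have h6 : (13 / 12 : ℝ) ^ m ≤ rexp 3 ^ m := by gcongr; linarith
    have h7 : 1 / 2 ≤ rexp 3 ^ m * ‖G 0‖ :=
      h4.trans (mul_le_mul_of_nonneg_right h6 (norm_nonneg _))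
    have h8 : rexp (3 * m + 1) = rexp 3 ^ m * rexp 1 := by
      rw [Real.exp_add, ← Real.exp_nat_mul, mul_comm (m:ℝ) 3]
    rw [Real.exp_neg, inv_le_iff_one_le_mul₀ (Real.exp_pos _), h8]
    have h9 : 1 ≤ rexp 3 ^ m * ‖G 0‖ * rexp 1 := by
      have : (1:ℝ) ≤ 1 / 2 * 2.7 := by norm_num
      exact this.trans (mul_le_mul h7 he (by norm_num) (by positivity))
    linarith
  -- the point p
  set q : ℂ := (p - c) / R with hq
  have hRc : (R:ℂ) ≠ 0 := by exact_mod_cast hR.ne'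
  have hpq : c + R * q = p := by
    rw [hq]; field_simp; ring
  have hqn : ‖q‖ ≤ 2 := by
    rw [hq, norm_div, Complex.norm_real, Real.norm_eq_abs, abs_of_pos hR, div_le_iff₀ hR]
    rwa [mem_closedBall, dist_eq_norm] at hp
  have hGq : rexp (δ * M - m) ≤ ‖G q‖ := by
    have h1 : ‖(s.map (fun a => p - a)).prod‖ ≤ (5 * R) ^ m := by
      refine harm_prod_upper s p (5 * R) fun a ha => ?_
      rw [mem_closedBall, dist_eq_norm] at hp
      calc ‖p - a‖ = ‖(p - c) - (a - c)‖ := by congr 1; ring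
        _ ≤ ‖p - c‖ + ‖a - c‖ := norm_sub_le _ _
        _ ≤ 5 * R := by linarith [hs1 a ha]
    have h2 : rexp (δ * M) ≤ (5 * R) ^ m * ‖g p‖ := by
      refine hfp.trans ?_
      rw [hfac p (closedBall_subset_closedBall (by linarith) hp), norm_mul]
      exact mul_le_mul_of_nonneg_right h1 (norm_nonneg _)
    have h3 : (5 * R) ^ m * ‖g p‖ = (5 / 3) ^ m * ‖G q‖ := by
      rw [hGn, hpq, ← mul_assoc, ← mul_pow]
      congr 2
      ring
    rw [h3] at h2
    have h4 : (5 / 3 : ℝ) ^ m ≤ rexp 1 ^ m := by gcongr; linarith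
    have h5 : rexp (δ * M) ≤ rexp m * ‖G q‖ := by
      refine h2.trans ?_
      have h6 : rexp (m:ℝ) = rexp 1 ^ m := by rw [← Real.exp_nat_mul, mul_one]
      rw [h6]
      exact mul_le_mul_of_nonneg_right h4 (norm_nonneg _)
    rw [Real.exp_sub, div_le_iff₀ (Real.exp_pos _)]
    linarith
  exact hcore m G q M hM hGd hGne hGM hGs hGl hqn hGq

end

end Pool.Agent.H732R2.KK
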