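import Pool.Agent.H732R2.KK.Defs

/-!
# Task W: the majorant series
-/

namespace Pool.Agent.H732R2.KK

open Real Complex MeasureTheory Filter Topology Metric

noncomputable section

namespace MajAux

theorem lg_nonneg (n : ℕ) : 0 ≤ lg n := by
  unfold lg
  apply Real.log_nonneg
  have : (0:ℝ) ≤ n := Nat.cast_nonneg n
  linarith

theorem exp_neg_two_lg (n : ℕ) : rexp (-(2 * lg n)) = 1 / ((n:ℝ) + 1) ^ 2 := by
  have h : (0:ℝ) < (n:ℝ) + 1 := by positivity
  unfold lg
  rw [Real.exp_neg, show (2:ℝ) * Real.log ((n:ℝ)+1) = Real.log (((n:ℝ)+1)^2) by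
    rw [Real.log_pow]; norm_num, Real.exp_log (by positivity), one_div]

theorem exp_sq_le (a h : ℝ) (ha : 0 < a) : rexp (-(a * h ^ 2)) ≤ rexp (1 / a) * rexp (-(2 * h)) := by
  rw [← Real.exp_add]
  apply Real.exp_le_exp.mpr
  have h1 : 0 ≤ a * (h - 1 / a) ^ 2 := by positivity
  have h2 : a * (h - 1 / a) ^ 2 = a * h ^ 2 - 2 * h + 1 / a := by
    field_simp
    ring
  linarith

theorem summable_sq : Summable (fun n : ℕ => 1 / ((n:ℝ) + 1) ^ 2) := by
  have h : Summable (fun n : ℕ => 1 / ((n:ℝ)) ^ 2) := by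
    exact Real.summable_one_div_nat_pow.mpr (by norm_num)
  have h2 := (summable_nat_add_iff 1).mpr h
  simpa using h2

/-- `∑ 1/(n+1)²` -/
def TT : ℝ := ∑' n : ℕ, 1 / ((n:ℝ) + 1) ^ 2

theorem TT_ge : 1 ≤ TT := by
  have h := summable_sq.le_tsum 0 (fun j _ => by positivity)
  simpa [TT] using h

theorem TT_eq : TT = π ^ 2 / 6 := by
  have h := hasSum_zeta_two
  have h2 := (hasSum_nat_add_iff' (f := fun n : ℕ => 1 / ((n:ℝ)) ^ 2) 1).mpr h
  have h3 := h2.tsum_eq
  simpa [TT] using h3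

theorem term_le (mu kap h : ℝ) (hmu : 0 < mu) (hh : 0 ≤ h) :
    rexp (-h / 2 - mu * h ^ 2 + kap * h) ≤
      rexp (kap ^ 2 / (2 * mu)) * (rexp (1 / (mu / 2)) * rexp (-(2 * h))) := by
  refine le_trans ?_ (mul_le_mul_of_nonneg_left (exp_sq_le (mu / 2) h (by positivity))
    (Real.exp_pos _).le)
  rw [← Real.exp_add]
  apply Real.exp_le_exp.mpr
  have h1 : 0 ≤ (mu * h - kap) ^ 2 / (2 * mu) := by positivity
  have h2 : (mu * h - kap) ^ 2 / (2 * mu) = mu / 2 * h ^ 2 - kap * h + kap ^ 2 / (2 * mu) := by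
    field_simp
    ring
  linarith

end MajAux

open MajAux

theorem W_summable (mu kap : ℝ) (hmu : 0 < mu) :
    Summable (fun n : ℕ => rexp (-(lg n) / 2 - mu * (lg n) ^ 2 + kap * lg n)) := by
  refine Summable.of_nonneg_of_le (fun n => (Real.exp_pos _).le)
    (fun n => term_le mu kap (lg n) hmu (lg_nonneg n)) ?_
  simp_rw [exp_neg_two_lg]
  exact (summable_sq.mul_left _).mul_left _

theorem W_mono (mu : ℝ) (hmu : 0 < mu) : Monotone (W mu) := by
  intro a b hab
  unfold W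
  refine Summable.tsum_le_tsum (fun n => ?_) (W_summable mu a hmu) (W_summable mu b hmu)
  apply Real.exp_le_exp.mpr
  have := mul_le_mul_of_nonneg_right hab (lg_nonneg n)
  linarith

theorem W_le (mu : ℝ) (hmu : 0 < mu) : ∃ C : ℝ, 1 ≤ C ∧ ∀ kap : ℝ, 0 ≤ kap →
    W mu kap ≤ C * rexp (kap ^ 2 / (2 * mu)) := by
  refine ⟨rexp (1 / (mu / 2)) * TT, ?_, fun kap _ => ?_⟩
  · have h1 : 1 ≤ rexp (1 / (mu / 2)) := Real.one_le_exp (by positivity)
    nlinarith [TT_ge]
  · have hs : Summable (fun n : ℕ => rexp (kap ^ 2 / (2 * mu)) *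
        (rexp (1 / (mu / 2)) * (1 / ((n:ℝ) + 1) ^ 2))) :=
      (summable_sq.mul_left _).mul_left _
    have h : W mu kap ≤ ∑' n : ℕ, rexp (kap ^ 2 / (2 * mu)) *
        (rexp (1 / (mu / 2)) * (1 / ((n:ℝ) + 1) ^ 2)) := by
      unfold W
      refine Summable.tsum_le_tsum (fun n => ?_) (W_summable mu kap hmu) hs
      rw [← exp_neg_two_lg]
      exact term_le mu kap (lg n) hmu (lg_nonneg n)
    refine h.trans (le_of_eq ?_)
    rw [tsum_mul_left, tsum_mul_left]
    unfold TT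
    ring

theorem W_small (mu kap : ℝ) (hmu : 0 < mu) (hk : kap ≤ -5) : W mu kap ≤ 1 + 1 / 8 := by
  unfold W
  have hs := W_summable mu kap hmu
  rw [hs.tsum_eq_zero_add]
  have h0 : rexp (-(lg 0) / 2 - mu * (lg 0) ^ 2 + kap * lg 0) = 1 := by
    simp [lg]
  rw [h0]
  have hs1 : Summable (fun n : ℕ => (1 / 8 : ℝ) * (1 / (((n + 1 : ℕ):ℝ) + 1) ^ 2)) :=
    ((summable_nat_add_iff 1).mpr summable_sq).mul_left _
  have hle : (∑' n : ℕ, rexp (-(lg (n + 1)) / 2 - mu * (lg (n + 1)) ^ 2 + kap * lg (n + 1))) ≤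
      ∑' n : ℕ, (1 / 8 : ℝ) * (1 / (((n + 1 : ℕ):ℝ) + 1) ^ 2) := by
    refine Summable.tsum_le_tsum (fun n => ?_) ((summable_nat_add_iff 1).mpr hs) hs1
    rw [← exp_neg_two_lg]
    have hh := lg_nonneg (n + 1)
    have hlog2 : Real.log 2 ≤ lg (n + 1) := by
      unfold lg
      apply Real.log_le_log (by norm_num)
      push_cast
      have : (0:ℝ) ≤ n := Nat.cast_nonneg n
      linarith
    have h8 : (1 / 8 : ℝ) = rexp (-(3 * Real.log 2)) := by
      rw [Real.exp_neg, show (3:ℝ) * Real.log 2 = Real.log (2 ^ 3) by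
        rw [Real.log_pow]; norm_num, Real.exp_log (by positivity)]
      norm_num
    rw [h8, ← Real.exp_add]
    apply Real.exp_le_exp.mpr
    have h1 : kap * lg (n + 1) ≤ -5 * lg (n + 1) := mul_le_mul_of_nonneg_right hk hh
    have h2 : 0 ≤ mu * (lg (n + 1)) ^ 2 := by positivity
    linarith
  have hval : (∑' n : ℕ, (1 / 8 : ℝ) * (1 / (((n + 1 : ℕ):ℝ) + 1) ^ 2)) ≤ 1 / 8 := by
    rw [tsum_mul_left]
    have h1 := summable_sq.tsum_eq_zero_add
    have h2 : (∑' n : ℕ, 1 / (((n + 1 : ℕ):ℝ) + 1) ^ 2) = TT - 1 := by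
      unfold TT
      rw [h1]
      simp
    rw [h2, TT_eq]
    have h3 : π ^ 2 ≤ 12 := by nlinarith [Real.pi_lt_d2, Real.pi_pos]
    linarith
  linarith

theorem W_tail (mu C1 K : ℝ) (hmu : 0 < mu) : ∃ k0 : ℕ, ∀ k ≥ k0, ∃ X0 : ℝ, 10 ≤ X0 ∧
    ∀ X ≥ X0, ∀ kap : ℝ, kap ≤ C1 * Real.log X →
    (∑' n : ℕ, if X ^ k < (n : ℝ) + 1 then
      rexp (-(lg n) / 2 - mu * (lg n) ^ 2 + kap * lg n) else 0) ≤
        rexp (-(K * (Real.log X) ^ 2)) := by
  refine ⟨⌈2 * |C1| / mu + 1 + 4 * |K + 1| / mu⌉₊, fun k hk => ?_⟩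
  have hk' : 2 * |C1| / mu + 1 + 4 * |K + 1| / mu ≤ (k:ℝ) := Nat.ceil_le.mp hk
  have hc1 : 0 ≤ 2 * |C1| / mu := by positivity
  have hc2 : 0 ≤ 4 * |K + 1| / mu := by positivity
  have hk1 : (1:ℝ) ≤ k := by linarith
  have hkC : 2 * |C1| ≤ mu * k := by
    have : 2 * |C1| / mu ≤ k := by linarith
    rw [div_le_iff₀ hmu] at this
    linarith
  have hkK : 4 * |K + 1| ≤ mu * k := by
    have : 4 * |K + 1| / mu ≤ k := by linarith
    rw [div_le_iff₀ hmu] at this
    linarith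
  set C' : ℝ := rexp (1 / (mu / 4)) * TT with hC'
  have hC'1 : 1 ≤ C' := by
    have h1 : 1 ≤ rexp (1 / (mu / 4)) := Real.one_le_exp (by positivity)
    rw [hC']
    nlinarith [TT_ge]
  refine ⟨max 10 (rexp C'), le_max_left _ _, fun X hX kap hkap => ?_⟩
  have hX10 : 10 ≤ X := (le_max_left _ _).trans hX
  have hXe : rexp C' ≤ X := (le_max_right _ _).trans hX
  have hX0 : 0 < X := by linarith
  set L := Real.log X with hL
  have hLC : C' ≤ L := by
    rw [hL, Real.le_log_iff_exp_le hX0]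
    exact hXe
  have hL1 : 1 ≤ L := hC'1.trans hLC
  have hterm : ∀ n : ℕ, (if X ^ k < (n : ℝ) + 1 then
      rexp (-(lg n) / 2 - mu * (lg n) ^ 2 + kap * lg n) else 0) ≤
      rexp (-((K + 1) * L ^ 2)) * (rexp (1 / (mu / 4)) * (1 / ((n:ℝ) + 1) ^ 2)) := by
    intro n
    split_ifs with h
    · rw [← exp_neg_two_lg]
      refine le_trans ?_ (mul_le_mul_of_nonneg_left (exp_sq_le (mu / 4) (lg n) (by positivity))
        (Real.exp_pos _).le)
      rw [← Real.exp_add]
      apply Real.exp_le_exp.mpr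
      have hh := lg_nonneg n
      have hkL : k * L < lg n := by
        have h1 := Real.log_lt_log (by positivity) h
        rw [Real.log_pow] at h1
        exact h1
      have hkap2 : kap * lg n ≤ |C1| * L * lg n := by
        apply mul_le_mul_of_nonneg_right _ hh
        refine hkap.trans ?_
        exact mul_le_mul_of_nonneg_right (le_abs_self C1) (by linarith)
      have h3 : |C1| * L * lg n ≤ mu / 2 * (lg n) ^ 2 := by
        have h4 : |C1| * L ≤ mu / 2 * (k * L) := by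
          have : 2 * |C1| * L ≤ mu * k * L := mul_le_mul_of_nonneg_right hkC (by linarith)
          linarith
        have h5 : |C1| * L ≤ mu / 2 * lg n :=
          h4.trans (mul_le_mul_of_nonneg_left hkL.le (by positivity))
        nlinarith [mul_le_mul_of_nonneg_right h5 hh]
      have h6 : (K + 1) * L ^ 2 ≤ mu / 4 * (lg n) ^ 2 := by
        have h7 : (k * L) ^ 2 ≤ (lg n) ^ 2 := by
          apply pow_le_pow_left₀ (by positivity) hkL.le
        have h8 : K + 1 ≤ mu / 4 * k := by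
          have := le_abs_self (K + 1)
          linarith
        have h9 : mu / 4 * k ≤ mu / 4 * k ^ 2 := by
          apply mul_le_mul_of_nonneg_left _ (by positivity)
          nlinarith
        calc (K + 1) * L ^ 2 ≤ (mu / 4 * k ^ 2) * L ^ 2 :=
              mul_le_mul_of_nonneg_right (h8.trans h9) (by positivity)
          _ = mu / 4 * (k * L) ^ 2 := by ring
          _ ≤ mu / 4 * (lg n) ^ 2 := mul_le_mul_of_nonneg_left h7 (by positivity)
      linarith
    · positivity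
  have hs : Summable (fun n : ℕ => rexp (-((K + 1) * L ^ 2)) *
      (rexp (1 / (mu / 4)) * (1 / ((n:ℝ) + 1) ^ 2))) :=
    (summable_sq.mul_left _).mul_left _
  have hs0 : Summable (fun n : ℕ => if X ^ k < (n : ℝ) + 1 then
      rexp (-(lg n) / 2 - mu * (lg n) ^ 2 + kap * lg n) else 0) := by
    refine Summable.of_nonneg_of_le (fun n => ?_) hterm hs
    split_ifs
    · exact (Real.exp_pos _).le
    · exact le_rfl
  refine (Summable.tsum_le_tsum hterm hs0 hs).trans ?_
  rw [tsum_mul_left, tsum_mul_left]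
  have hfin : rexp (-((K + 1) * L ^ 2)) * C' ≤ rexp (-(K * L ^ 2)) := by
    have h1 : C' ≤ rexp (L ^ 2) := by
      have h2 : C' ≤ L ^ 2 := by nlinarith
      have h3 := Real.add_one_le_exp (L ^ 2)
      linarith
    calc rexp (-((K + 1) * L ^ 2)) * C' ≤ rexp (-((K + 1) * L ^ 2)) * rexp (L ^ 2) :=
          mul_le_mul_of_nonneg_left h1 (Real.exp_pos _).le
      _ = rexp (-(K * L ^ 2)) := by
          rw [← Real.exp_add]; congr 1; ring
  exact hfin

end

end Pool.Agent.H732R2.KK
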