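import Pool.Agent.H732R2.KK.P2b

/-!
# Task P2: mean values of Dirichlet polynomials
-/

namespace Pool.Agent.H732R2.KK

open Real Complex MeasureTheory Filter Topology Metric

noncomputable section

namespace P2

theorem window_le (N : ℕ) (d : ℕ → ℂ) (A Y : ℝ) (hA : 0 < A) (hAY : A ≤ Y) (j : ℕ) (v₀ : ℝ)
    (h1 : (j : ℝ) * A ≤ v₀) (h2 : v₀ ≤ ((j : ℝ) + 1) * A) (hY : v₀ ≤ Y) :
    (∫ v in (j * A : ℝ)..((j + 1) * A), ‖D N d v‖ ^ 2) ^ 2 ≤
      rexp (3 / 2) * (EE N d A v₀ ^ 2 * rexp (-v₀ ^ 2 / (2 * Y ^ 2))) := by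
  have hY0 : 0 < Y := lt_of_lt_of_le hA hAY
  have hle : (j : ℝ) * A ≤ ((j : ℝ) + 1) * A := h1.trans h2
  have hcont : Continuous fun v : ℝ => ‖D N d v‖ ^ 2 := ((D_continuous N d).norm).pow 2
  have hX0 : 0 ≤ ∫ v in (j * A : ℝ)..((j + 1) * A), ‖D N d v‖ ^ 2 :=
    intervalIntegral.integral_nonneg hle fun v _ => by positivity
  have hX : ∫ v in (j * A : ℝ)..((j + 1) * A), ‖D N d v‖ ^ 2 ≤ rexp (1 / 2) * EE N d A v₀ := by
    rw [intervalIntegral.integral_of_le hle]
    have hint := (EE_integrable N d A v₀ hA).const_mul (rexp (1 / 2))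
    calc ∫ v in Set.Ioc ((j : ℝ) * A) (((j : ℝ) + 1) * A), ‖D N d v‖ ^ 2
        ≤ ∫ v in Set.Ioc ((j : ℝ) * A) (((j : ℝ) + 1) * A),
          rexp (1 / 2) * (‖D N d v‖ ^ 2 * rexp (-(v - v₀) ^ 2 / (2 * A ^ 2))) := by
          apply setIntegral_mono_on
          · exact (hcont.integrableOn_Icc).mono_set Set.Ioc_subset_Icc_self
          · exact hint.integrableOn
          · exact measurableSet_Ioc
          · intro v hv
            have hvA : |v - v₀| ≤ A := by
              rw [abs_le]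
              constructor
              · nlinarith [hv.1, hv.2]
              · nlinarith [hv.1, hv.2]
            have h3 : (v - v₀) ^ 2 ≤ A ^ 2 := by
              rw [← sq_abs]
              exact pow_le_pow_left₀ (abs_nonneg _) hvA 2
            have h4 : 1 ≤ rexp (1 / 2) * rexp (-(v - v₀) ^ 2 / (2 * A ^ 2)) := by
              rw [← Real.exp_add]
              apply Real.one_le_exp
              have h5 : (v - v₀) ^ 2 / (2 * A ^ 2) ≤ 1 / 2 := by
                rw [div_le_iff₀ (by positivity)]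
                linarith
              rw [neg_div]
              linarith
            have h6 : 0 ≤ ‖D N d v‖ ^ 2 := by positivity
            nlinarith [mul_le_mul_of_nonneg_left h4 h6]
      _ ≤ ∫ v : ℝ, rexp (1 / 2) * (‖D N d v‖ ^ 2 * rexp (-(v - v₀) ^ 2 / (2 * A ^ 2))) := by
          apply setIntegral_le_integral hint
          apply Filter.Eventually.of_forall
          intro v
          simp only [Pi.zero_apply]
          positivity
      _ = rexp (1 / 2) * EE N d A v₀ := by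
          rw [integral_const_mul]
          rfl
  have hE0 := EE_nonneg N d A v₀
  have h3 : (∫ v in (j * A : ℝ)..((j + 1) * A), ‖D N d v‖ ^ 2) ^ 2 ≤
      (rexp (1 / 2) * EE N d A v₀) ^ 2 := pow_le_pow_left₀ hX0 hX 2
  refine h3.trans ?_
  have h0 : 0 ≤ v₀ := le_trans (by positivity) h1
  have h4 : 1 ≤ rexp (1 / 2) * rexp (-v₀ ^ 2 / (2 * Y ^ 2)) := by
    rw [← Real.exp_add]
    apply Real.one_le_exp
    have h5 : v₀ ^ 2 / (2 * Y ^ 2) ≤ 1 / 2 := by
      rw [div_le_iff₀ (by positivity)]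
      have := pow_le_pow_left₀ h0 hY 2
      linarith
    rw [neg_div]
    linarith
  have h6 : rexp (3 / 2) = rexp (1 / 2) * rexp (1 / 2) * rexp (1 / 2) := by
    rw [← Real.exp_add, ← Real.exp_add]
    norm_num
  rw [h6, mul_pow, sq (rexp (1 / 2))]
  have h7 : 0 ≤ rexp (1 / 2) * rexp (1 / 2) * EE N d A v₀ ^ 2 := by positivity
  nlinarith [mul_le_mul_of_nonneg_left h4 h7]

theorem const_le : rexp (3 / 2) * (2 * π * √(2 * π)) ≤ 100 := by
  have h1 : rexp (3 / 2) ≤ 4.5 := by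
    have h2 : rexp (3 / 2) ^ 2 = rexp 1 ^ 3 := by
      rw [← Real.exp_nat_mul, ← Real.exp_nat_mul]
      norm_num
    have h3 := Real.exp_one_lt_d9
    have h4 : rexp 1 ^ 3 ≤ 2.7182818286 ^ 3 := pow_le_pow_left₀ (Real.exp_pos _).le h3.le 3
    by_contra hcon
    push Not at hcon
    have h5 : (4.5 : ℝ) ^ 2 < rexp (3 / 2) ^ 2 := pow_lt_pow_left₀ hcon (by norm_num) (by norm_num)
    rw [h2] at h5
    norm_num at h4 h5
    linarith
  have hpi := Real.pi_lt_d2
  have hpi0 := Real.pi_pos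
  have h6 : √(2 * π) ≤ 2.51 := by
    rw [Real.sqrt_le_left (by norm_num)]
    norm_num
    linarith
  have h7 : 2 * π * √(2 * π) ≤ 6.3 * 2.51 := by
    apply mul_le_mul _ h6 (Real.sqrt_nonneg _) (by norm_num)
    linarith
  calc rexp (3 / 2) * (2 * π * √(2 * π)) ≤ 4.5 * (6.3 * 2.51) := by
        apply mul_le_mul h1 h7 (by positivity) (by norm_num)
    _ ≤ 100 := by norm_num

end P2

open P2

theorem mean_lower (N : ℕ) (hN : 1 ≤ N) (Y : ℝ) (hY : 0 ≤ Y) (d : ℕ → ℂ) :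
    (Y - 4 * (N : ℝ) ^ 2) * ∑ n ∈ Finset.Icc 1 N, ‖d n‖ ^ 2 ≤
      ∫ v in (0 : ℝ)..Y, ‖∑ n ∈ Finset.Icc 1 N, d n * cexp (-I * v * Real.log n)‖ ^ 2 := by
  classical
  have hN0 : (1 : ℝ) ≤ N := by exact_mod_cast hN
  set S := ∑ n ∈ Finset.Icc 1 N, ‖d n‖ ^ 2 with hS
  change _ ≤ ∫ v in (0 : ℝ)..Y, ‖D N d v‖ ^ 2
  have h1 : ((∫ v in (0 : ℝ)..Y, ‖D N d v‖ ^ 2 : ℝ) : ℂ) =
      ∑ p ∈ II N, co d p * ∫ v in (0 : ℝ)..Y, cexp (I * v * fr p) := by
    rw [← intervalIntegral.integral_ofReal]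
    simp_rw [normSq_eq]
    rw [intervalIntegral.integral_finsetSum]
    · apply Finset.sum_congr rfl
      intro p _
      rw [intervalIntegral.integral_const_mul]
    · intro p _
      apply Continuous.intervalIntegrable
      fun_prop
  -- diagonal
  have h2 : ∑ p ∈ (II N).filter (fun p => p.1 = p.2),
      co d p * ∫ v in (0 : ℝ)..Y, cexp (I * v * fr p) = ((Y * S : ℝ) : ℂ) := by
    have e1 : ∑ p ∈ (II N).filter (fun p => p.1 = p.2),
        co d p * ∫ v in (0 : ℝ)..Y, cexp (I * v * fr p) =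
        ∑ n ∈ Finset.Icc 1 N, ((Y * ‖d n‖ ^ 2 : ℝ) : ℂ) := by
      rw [Finset.sum_filter]
      unfold II
      rw [Finset.sum_product]
      apply Finset.sum_congr rfl
      intro m hm
      rw [Finset.sum_ite_eq]
      rw [if_pos hm]
      have e2 : fr (m, m) = 0 := by unfold fr; simp
      rw [e2]
      have e3 : ∀ v : ℝ, cexp (I * v * ((0 : ℝ) : ℂ)) = 1 := by
        intro v
        simp
      simp_rw [e3]
      rw [intervalIntegral.integral_const, sub_zero]
      unfold co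
      simp only
      rw [Complex.mul_conj']
      rw [Complex.real_smul]
      push_cast
      ring
    rw [e1, hS, Finset.mul_sum]
    push_cast
    rfl
  -- off-diagonal
  have h3 : ‖∑ p ∈ (II N).filter (fun p => ¬ p.1 = p.2),
      co d p * ∫ v in (0 : ℝ)..Y, cexp (I * v * fr p)‖ ≤ 2 * (N : ℝ) ^ 2 * S := by
    have e1 : ∀ p ∈ (II N).filter (fun p => ¬ p.1 = p.2),
        ‖co d p * ∫ v in (0 : ℝ)..Y, cexp (I * v * fr p)‖ ≤ (‖d p.1‖ * ‖d p.2‖) * (2 * N) := by
      intro p hp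
      rw [Finset.mem_filter] at hp
      obtain ⟨hp, hne⟩ := hp
      unfold II at hp
      rw [Finset.mem_product, Finset.mem_Icc, Finset.mem_Icc] at hp
      have g1 : 1 / (N : ℝ) ≤ |fr p| := by
        unfold fr
        exact log_gap hp.2.1 hp.1.1 hp.2.2 hp.1.2 (fun h => hne h.symm)
      have g2 : 0 < |fr p| := lt_of_lt_of_le (by positivity) g1
      have g3 : (fr p : ℂ) ≠ 0 := by
        rw [Complex.ofReal_ne_zero]
        exact abs_pos.1 g2
      have g4 : ∫ v in (0 : ℝ)..Y, cexp (I * v * fr p) =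
          (cexp (I * fr p * Y) - cexp (I * fr p * (0 : ℝ))) / (I * fr p) := by
        rw [← integral_exp_mul_complex (mul_ne_zero I_ne_zero g3)]
        congr 1
        ext v
        congr 1
        ring
      rw [norm_mul, norm_co, g4, norm_div]
      apply mul_le_mul_of_nonneg_left _ (by positivity)
      have g5 : ‖cexp (I * fr p * Y) - cexp (I * fr p * (0 : ℝ))‖ ≤ 2 := by
        refine (norm_sub_le _ _).trans ?_
        rw [norm_cexp, norm_cexp]
        norm_num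
      have g6 : ‖I * (fr p : ℂ)‖ = |fr p| := by
        rw [norm_mul, Complex.norm_I, one_mul, Complex.norm_real, Real.norm_eq_abs]
      rw [g6, div_le_iff₀ g2]
      refine g5.trans ?_
      have g7 : 1 ≤ (N : ℝ) * |fr p| := by
        rw [div_le_iff₀ (by linarith)] at g1
        linarith
      nlinarith
    refine (norm_sum_le _ _).trans ?_
    refine (Finset.sum_le_sum e1).trans ?_
    have e2 : ∑ p ∈ (II N).filter (fun p => ¬ p.1 = p.2), (‖d p.1‖ * ‖d p.2‖) * (2 * N) ≤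
        ∑ p ∈ II N, (‖d p.1‖ * ‖d p.2‖) * (2 * N) := by
      apply Finset.sum_le_sum_of_subset_of_nonneg (Finset.filter_subset _ _)
      intro p _ _
      positivity
    refine e2.trans ?_
    rw [← Finset.sum_mul]
    have e3 : ∑ p ∈ II N, ‖d p.1‖ * ‖d p.2‖ = (∑ n ∈ Finset.Icc 1 N, ‖d n‖) ^ 2 := by
      unfold II
      rw [sq, Finset.sum_mul_sum, Finset.sum_product]
    rw [e3]
    have e4 : (∑ n ∈ Finset.Icc 1 N, ‖d n‖) ^ 2 ≤ N * S := by
      have := sq_sum_le_card_mul_sum_sq (s := Finset.Icc 1 N) (f := fun n => ‖d n‖)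
      simpa using this
    calc (∑ n ∈ Finset.Icc 1 N, ‖d n‖) ^ 2 * (2 * N) ≤ (N * S) * (2 * N) :=
          mul_le_mul_of_nonneg_right e4 (by positivity)
      _ = 2 * (N : ℝ) ^ 2 * S := by ring
  have hS0 : 0 ≤ S := Finset.sum_nonneg fun _ _ => by positivity
  have h4 : (((∫ v in (0 : ℝ)..Y, ‖D N d v‖ ^ 2) - Y * S : ℝ) : ℂ) =
      ∑ p ∈ (II N).filter (fun p => ¬ p.1 = p.2),
      co d p * ∫ v in (0 : ℝ)..Y, cexp (I * v * fr p) := by
    rw [Complex.ofReal_sub, h1, ← h2,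
      ← Finset.sum_filter_add_sum_filter_not (II N) (fun p => p.1 = p.2), add_sub_cancel_left]
  rw [← h4, Complex.norm_real, Real.norm_eq_abs] at h3
  have h5 := (abs_le.1 h3).1
  have h6 : 0 ≤ (N : ℝ) ^ 2 * S := by positivity
  nlinarith

theorem fourth (N : ℕ) (hN : 1 ≤ N) (A Y : ℝ) (hA : 1 ≤ A) (hAY : A ≤ Y)
    (hY : (N : ℝ) ^ 5 ≤ Y) (d : ℕ → ℂ) :
    ∑ j ∈ Finset.range ⌊Y / A⌋₊, (∫ v in (j * A : ℝ)..((j + 1) * A),
        ‖∑ n ∈ Finset.Icc 1 N, d n * cexp (-I * v * Real.log n)‖ ^ 2) ^ 2 ≤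
      200 * A * Y * ((∑ n ∈ Finset.Icc 1 N, ‖d n‖ ^ 2) ^ 2 +
        ∑ a ∈ Finset.Icc 1 N, ∑ b ∈ (Finset.Icc 1 N).filter (fun b => b ≠ a),
          rexp (-(A ^ 2 * (Real.log ((a : ℝ) / b)) ^ 2)) *
          (∑ k ∈ (Finset.Icc 1 N).filter (fun k => a * k ≤ N), ‖d (a * k)‖ ^ 2) *
          (∑ k ∈ (Finset.Icc 1 N).filter (fun k => b * k ≤ N), ‖d (b * k)‖ ^ 2)) := by
  classical
  have hA0 : 0 < A := by linarith
  have hY0 : 0 < Y := by linarith
  change ∑ j ∈ Finset.range ⌊Y / A⌋₊, (∫ v in (j * A : ℝ)..((j + 1) * A), ‖D N d v‖ ^ 2) ^ 2 ≤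
      200 * A * Y * ((∑ n ∈ Finset.Icc 1 N, ‖d n‖ ^ 2) ^ 2 +
        ∑ a ∈ Finset.Icc 1 N, ∑ b ∈ (Finset.Icc 1 N).filter (fun b => b ≠ a),
          rexp (-(A ^ 2 * (Real.log ((a : ℝ) / b)) ^ 2)) *
          B N (fun n => ‖d n‖) a * B N (fun n => ‖d n‖) b)
  set M := ⌊Y / A⌋₊ with hM
  set h : ℝ → ℝ := fun v => EE N d A v ^ 2 * rexp (-v ^ 2 / (2 * Y ^ 2)) with hh
  have hint : Integrable h := FF_integrable N d A Y hA0 hY0
  have hMY : (M : ℝ) * A ≤ Y := by
    have := Nat.floor_le (div_nonneg hY0.le hA0.le)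
    rw [le_div_iff₀ hA0] at this
    exact this
  have h1 : ∀ j ∈ Finset.range M, A * (∫ v in (j * A : ℝ)..((j + 1) * A), ‖D N d v‖ ^ 2) ^ 2 ≤
      rexp (3 / 2) * ∫ v in ((j : ℕ) * A : ℝ)..(((j + 1 : ℕ) : ℝ) * A), h v := by
    intro j hj
    rw [Finset.mem_range] at hj
    have hj' : ((j : ℝ) + 1) * A ≤ M * A := by
      apply mul_le_mul_of_nonneg_right _ hA0.le
      exact_mod_cast hj
    have hle : (j : ℝ) * A ≤ ((j : ℝ) + 1) * A := by nlinarith
    rw [← intervalIntegral.integral_const_mul]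
    push_cast
    have h2 : A * (∫ v in (j * A : ℝ)..((j + 1) * A), ‖D N d v‖ ^ 2) ^ 2 =
        ∫ _v in (j * A : ℝ)..((j + 1) * A),
          (∫ v in (j * A : ℝ)..((j + 1) * A), ‖D N d v‖ ^ 2) ^ 2 := by
      rw [intervalIntegral.integral_const, smul_eq_mul]
      ring
    rw [h2]
    apply intervalIntegral.integral_mono_on hle
    · exact intervalIntegrable_const
    · exact (hint.const_mul _).intervalIntegrable
    · intro v₀ hv₀
      exact window_le N d A Y hA0 hAY j v₀ hv₀.1 hv₀.2 (hv₀.2.trans (hj'.trans hMY))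
  have h2 : A * ∑ j ∈ Finset.range M, (∫ v in (j * A : ℝ)..((j + 1) * A), ‖D N d v‖ ^ 2) ^ 2 ≤
      rexp (3 / 2) * FF N d A Y := by
    rw [Finset.mul_sum]
    refine (Finset.sum_le_sum h1).trans ?_
    rw [← Finset.mul_sum]
    apply mul_le_mul_of_nonneg_left _ (Real.exp_pos _).le
    rw [intervalIntegral.sum_integral_adjacent_intervals (a := fun j : ℕ => (j : ℝ) * A)
      (fun k _ => hint.intervalIntegrable)]
    rw [intervalIntegral.integral_of_le (by simp only [Nat.cast_zero, zero_mul]; positivity)]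
    unfold FF
    apply setIntegral_le_integral hint
    apply Filter.Eventually.of_forall
    intro v
    simp only [Pi.zero_apply, hh]
    positivity
  have h3 := FF_le N d A Y hA0 hY0
  have h4 := comb N hN A Y hY (fun n => ‖d n‖) (fun n => norm_nonneg _)
  set Q := ∑ q ∈ II N ×ˢ II N,
      (‖d q.1.1‖ * ‖d q.1.2‖) * (‖d q.2.1‖ * ‖d q.2.2‖) *
        (rexp (-(A ^ 2 * fr q.1 ^ 2) / 2) * rexp (-(A ^ 2 * fr q.2 ^ 2) / 2) *
          rexp (-(Y ^ 2 * (fr q.1 + fr q.2) ^ 2) / 2)) with hQ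
  set R := ∑ a ∈ Finset.Icc 1 N, ∑ b ∈ (Finset.Icc 1 N).filter (fun b => b ≠ a),
        rexp (-(A ^ 2 * (Real.log ((a : ℝ) / b)) ^ 2)) * B N (fun n => ‖d n‖) a *
          B N (fun n => ‖d n‖) b with hR
  have hR0 : 0 ≤ R := by
    apply Finset.sum_nonneg
    intro a _
    apply Finset.sum_nonneg
    intro b _
    have e1 := B_nonneg N (fun n => ‖d n‖) a
    have e2 := B_nonneg N (fun n => ‖d n‖) b
    positivity
  set S := ∑ n ∈ Finset.Icc 1 N, ‖d n‖ ^ 2 with hS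
  have h5 : A * ∑ j ∈ Finset.range M, (∫ v in (j * A : ℝ)..((j + 1) * A), ‖D N d v‖ ^ 2) ^ 2 ≤
      A * (200 * A * Y * (S ^ 2 + R)) := by
    refine h2.trans ?_
    calc rexp (3 / 2) * FF N d A Y ≤ rexp (3 / 2) * (A ^ 2 * Y * (2 * π * √(2 * π)) * Q) :=
          mul_le_mul_of_nonneg_left h3 (Real.exp_pos _).le
      _ ≤ rexp (3 / 2) * (A ^ 2 * Y * (2 * π * √(2 * π)) * (2 * S ^ 2 + R)) := by
          apply mul_le_mul_of_nonneg_left _ (Real.exp_pos _).le
          exact mul_le_mul_of_nonneg_left h4 (by positivity)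
      _ = (rexp (3 / 2) * (2 * π * √(2 * π))) * (A ^ 2 * Y * (2 * S ^ 2 + R)) := by ring
      _ ≤ 100 * (A ^ 2 * Y * (2 * S ^ 2 + R)) := by
          apply mul_le_mul_of_nonneg_right const_le
          positivity
      _ ≤ 100 * (A ^ 2 * Y * (2 * (S ^ 2 + R))) := by
          apply mul_le_mul_of_nonneg_left _ (by norm_num)
          apply mul_le_mul_of_nonneg_left _ (by positivity)
          linarith
      _ = A * (200 * A * Y * (S ^ 2 + R)) := by ring
  exact le_of_mul_le_mul_left h5 hA0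

end

end Pool.Agent.H732R2.KK
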