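import Pool.Agent.H732R2.KK.Defs

/-!
# Task P2, part a: exponential sums and Gaussian integrals
-/

namespace Pool.Agent.H732R2.KK

open Real Complex MeasureTheory Filter Topology Metric

noncomputable section

namespace P2

/-- The frequency of a pair. -/
def fr (p : ℕ × ℕ) : ℝ := Real.log p.2 - Real.log p.1

/-- The coefficient of a pair. -/
def co (d : ℕ → ℂ) (p : ℕ × ℕ) : ℂ := d p.1 * (starRingEnd ℂ) (d p.2)

/-- The index set. -/
def II (N : ℕ) : Finset (ℕ × ℕ) := Finset.Icc 1 N ×ˢ Finset.Icc 1 N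

/-- The Dirichlet polynomial. -/
def D (N : ℕ) (d : ℕ → ℂ) (v : ℝ) : ℂ := ∑ n ∈ Finset.Icc 1 N, d n * cexp (-I * v * Real.log n)

theorem normSq_eq (N : ℕ) (d : ℕ → ℂ) (v : ℝ) :
    ((‖D N d v‖ ^ 2 : ℝ) : ℂ) = ∑ p ∈ II N, co d p * cexp (I * v * fr p) := by
  have h1 : ((‖D N d v‖ ^ 2 : ℝ) : ℂ) = D N d v * (starRingEnd ℂ) (D N d v) := by
    rw [Complex.mul_conj']
    push_cast
    rfl
  rw [h1]
  unfold D II
  rw [map_sum, Finset.sum_mul_sum, Finset.sum_product]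
  apply Finset.sum_congr rfl
  intro m _
  apply Finset.sum_congr rfl
  intro n _
  have h2 : (starRingEnd ℂ) (d n * cexp (-I * v * Real.log n)) =
      (starRingEnd ℂ) (d n) * cexp (I * v * Real.log n) := by
    rw [map_mul, ← Complex.exp_conj]
    congr 2
    rw [map_mul, map_mul, map_neg, Complex.conj_I, Complex.conj_ofReal, Complex.conj_ofReal,
      neg_neg]
  rw [h2]
  unfold co fr
  have h3 : cexp (I * v * ((Real.log n - Real.log m : ℝ) : ℂ)) =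
      cexp (-I * v * Real.log m) * cexp (I * v * Real.log n) := by
    rw [← Complex.exp_add]
    congr 1
    push_cast
    ring
  simp only
  rw [h3]
  ring

theorem norm_cexp (v x : ℝ) : ‖cexp (I * v * x)‖ = 1 := by
  have : I * v * x = ((v * x : ℝ) : ℂ) * I := by push_cast; ring
  rw [this, Complex.norm_exp_ofReal_mul_I]

theorem norm_co (d : ℕ → ℂ) (p : ℕ × ℕ) : ‖co d p‖ = ‖d p.1‖ * ‖d p.2‖ := by
  unfold co
  rw [norm_mul, RCLike.norm_conj]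

theorem D_continuous (N : ℕ) (d : ℕ → ℂ) : Continuous (D N d) := by
  unfold D
  fun_prop

/-- The Gaussian Fourier integral. -/
theorem gauss_int (T v₀ x : ℝ) (hT : 0 < T) :
    ∫ v : ℝ, cexp (I * v * x) * ((rexp (-(v - v₀) ^ 2 / (2 * T ^ 2)) : ℝ) : ℂ) =
      cexp (I * v₀ * x) * ((T * √(2 * π) * rexp (-(T ^ 2 * x ^ 2) / 2) : ℝ) : ℂ) := by
  have hTc : (T : ℂ) ≠ 0 := by exact_mod_cast hT.ne'
  have hb : ((-(1 / (2 * T ^ 2)) : ℝ) : ℂ).re < 0 := by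
    rw [Complex.ofReal_re, neg_lt_zero]
    positivity
  have h := integral_cexp_quadratic hb (I * x + (v₀ : ℂ) / (T : ℂ) ^ 2)
    (-(v₀ : ℂ) ^ 2 / (2 * (T : ℂ) ^ 2))
  have h1 : ∀ v : ℝ, cexp (I * v * x) * ((rexp (-(v - v₀) ^ 2 / (2 * T ^ 2)) : ℝ) : ℂ) =
      cexp (((-(1 / (2 * T ^ 2)) : ℝ) : ℂ) * (v : ℂ) ^ 2 + (I * x + (v₀ : ℂ) / (T : ℂ) ^ 2) * v +
        (-(v₀ : ℂ) ^ 2 / (2 * (T : ℂ) ^ 2))) := by
    intro v
    rw [Complex.ofReal_exp, ← Complex.exp_add]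
    congr 1
    push_cast
    field_simp
    ring
  simp_rw [h1]
  rw [h]
  have h2 : ((π : ℂ) / -((-(1 / (2 * T ^ 2)) : ℝ) : ℂ)) ^ (1 / 2 : ℂ) =
      ((T * √(2 * π) : ℝ) : ℂ) := by
    have h3 : (π : ℂ) / -((-(1 / (2 * T ^ 2)) : ℝ) : ℂ) = ((2 * π * T ^ 2 : ℝ) : ℂ) := by
      push_cast
      field_simp
    rw [h3]
    have h4 : (1 / 2 : ℂ) = ((1 / 2 : ℝ) : ℂ) := by push_cast; rfl
    rw [h4, ← Complex.ofReal_cpow (by positivity), ← Real.sqrt_eq_rpow]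
    congr 1
    rw [Real.sqrt_mul (by positivity), Real.sqrt_sq hT.le]
    ring
  rw [h2, Complex.ofReal_mul (T * √(2 * π)) _, Complex.ofReal_exp]
  have h5 : cexp (-(v₀ : ℂ) ^ 2 / (2 * (T : ℂ) ^ 2) - (I * x + (v₀ : ℂ) / (T : ℂ) ^ 2) ^ 2 /
      (4 * ((-(1 / (2 * T ^ 2)) : ℝ) : ℂ))) =
      cexp (I * v₀ * x) * cexp (((-(T ^ 2 * x ^ 2) / 2 : ℝ) : ℂ)) := by
    rw [← Complex.exp_add]
    congr 1
    push_cast
    field_simp
    ring_nf
    simp only [I_sq]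
    ring
  rw [h5]
  ring

theorem gauss_integrable (T v₀ x : ℝ) (hT : 0 < T) :
    Integrable (fun v : ℝ => cexp (I * v * x) *
      ((rexp (-(v - v₀) ^ 2 / (2 * T ^ 2)) : ℝ) : ℂ)) := by
  by_contra H
  have h := gauss_int T v₀ x hT
  rw [integral_undef H] at h
  have h1 := congrArg norm h.symm
  rw [norm_mul, norm_cexp, Complex.norm_real, Real.norm_of_nonneg (by positivity), norm_zero,
    one_mul] at h1
  have : 0 < T * √(2 * π) * rexp (-(T ^ 2 * x ^ 2) / 2) := by positivity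
  linarith

/-- Sums. -/
theorem gauss_sum {ι : Type} (s : Finset ι) (c : ι → ℂ) (x : ι → ℝ) (T v₀ : ℝ) (hT : 0 < T) :
    ∫ v : ℝ, (∑ i ∈ s, c i * cexp (I * v * x i)) *
      ((rexp (-(v - v₀) ^ 2 / (2 * T ^ 2)) : ℝ) : ℂ) =
      ∑ i ∈ s, (c i * ((T * √(2 * π) * rexp (-(T ^ 2 * x i ^ 2) / 2) : ℝ) : ℂ)) *
        cexp (I * v₀ * x i) := by
  simp_rw [Finset.sum_mul, mul_assoc (c _)]
  rw [integral_finsetSum]
  · apply Finset.sum_congr rfl
    intro i _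
    rw [integral_const_mul, gauss_int T v₀ (x i) hT]
    ring
  · intro i _
    exact (gauss_integrable T v₀ (x i) hT).const_mul _

theorem gauss_sum_integrable {ι : Type} (s : Finset ι) (c : ι → ℂ) (x : ι → ℝ) (T v₀ : ℝ)
    (hT : 0 < T) :
    Integrable (fun v : ℝ => (∑ i ∈ s, c i * cexp (I * v * x i)) *
      ((rexp (-(v - v₀) ^ 2 / (2 * T ^ 2)) : ℝ) : ℂ)) := by
  simp_rw [Finset.sum_mul, mul_assoc (c _)]
  apply integrable_finsetSum
  intro i _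
  exact (gauss_integrable T v₀ (x i) hT).const_mul _

/-- The smoothed mean square. -/
def EE (N : ℕ) (d : ℕ → ℂ) (A v₀ : ℝ) : ℝ :=
  ∫ v : ℝ, ‖D N d v‖ ^ 2 * rexp (-(v - v₀) ^ 2 / (2 * A ^ 2))

/-- the coefficients of `EE` -/
def co' (d : ℕ → ℂ) (A : ℝ) (p : ℕ × ℕ) : ℂ :=
  co d p * ((A * √(2 * π) * rexp (-(A ^ 2 * fr p ^ 2) / 2) : ℝ) : ℂ)

theorem EE_eq (N : ℕ) (d : ℕ → ℂ) (A v₀ : ℝ) (hA : 0 < A) :
    ((EE N d A v₀ : ℝ) : ℂ) = ∑ p ∈ II N, co' d A p * cexp (I * v₀ * fr p) := by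
  unfold EE co'
  rw [← integral_complex_ofReal, ← gauss_sum (II N) (co d) fr A v₀ hA]
  congr 1
  ext v
  rw [← normSq_eq]
  push_cast
  rfl

theorem EE_integrable (N : ℕ) (d : ℕ → ℂ) (A v₀ : ℝ) (hA : 0 < A) :
    Integrable (fun v : ℝ => ‖D N d v‖ ^ 2 * rexp (-(v - v₀) ^ 2 / (2 * A ^ 2))) := by
  have h := (gauss_sum_integrable (II N) (co d) fr A v₀ hA).re
  refine h.congr (Filter.Eventually.of_forall ?_)
  intro v
  simp only
  rw [← normSq_eq, ← Complex.ofReal_mul]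
  exact Complex.ofReal_re _

theorem EE_nonneg (N : ℕ) (d : ℕ → ℂ) (A v₀ : ℝ) : 0 ≤ EE N d A v₀ := by
  unfold EE
  apply integral_nonneg
  intro v
  positivity

/-- The fourth moment. -/
def FF (N : ℕ) (d : ℕ → ℂ) (A Y : ℝ) : ℝ :=
  ∫ v : ℝ, EE N d A v ^ 2 * rexp (-v ^ 2 / (2 * Y ^ 2))

theorem EE_sq (N : ℕ) (d : ℕ → ℂ) (A v : ℝ) (hA : 0 < A) :
    ((EE N d A v ^ 2 : ℝ) : ℂ) = ∑ q ∈ II N ×ˢ II N, (co' d A q.1 * co' d A q.2) *
      cexp (I * v * (fr q.1 + fr q.2 : ℝ)) := by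
  rw [Complex.ofReal_pow, EE_eq N d A v hA, sq, Finset.sum_mul_sum, Finset.sum_product]
  apply Finset.sum_congr rfl
  intro p _
  apply Finset.sum_congr rfl
  intro q _
  have : cexp (I * v * ((fr p + fr q : ℝ) : ℂ)) = cexp (I * v * fr p) * cexp (I * v * fr q) := by
    rw [← Complex.exp_add]
    congr 1
    push_cast
    ring
  simp only
  rw [this]
  ring

theorem FF_integrable (N : ℕ) (d : ℕ → ℂ) (A Y : ℝ) (hA : 0 < A) (hY : 0 < Y) :
    Integrable (fun v : ℝ => EE N d A v ^ 2 * rexp (-v ^ 2 / (2 * Y ^ 2))) := by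
  have h := (gauss_sum_integrable (II N ×ˢ II N) (fun q => co' d A q.1 * co' d A q.2)
    (fun q => fr q.1 + fr q.2) Y 0 hY).re
  refine h.congr (Filter.Eventually.of_forall ?_)
  intro v
  simp only
  rw [← EE_sq N d A v hA, ← Complex.ofReal_mul, sub_zero]
  exact Complex.ofReal_re _

theorem FF_le (N : ℕ) (d : ℕ → ℂ) (A Y : ℝ) (hA : 0 < A) (hY : 0 < Y) :
    FF N d A Y ≤ A ^ 2 * Y * (2 * π * √(2 * π)) * ∑ q ∈ II N ×ˢ II N,
      (‖d q.1.1‖ * ‖d q.1.2‖) * (‖d q.2.1‖ * ‖d q.2.2‖) *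
        (rexp (-(A ^ 2 * fr q.1 ^ 2) / 2) * rexp (-(A ^ 2 * fr q.2 ^ 2) / 2) *
          rexp (-(Y ^ 2 * (fr q.1 + fr q.2) ^ 2) / 2)) := by
  have h1 : ((FF N d A Y : ℝ) : ℂ) = ∑ q ∈ II N ×ˢ II N, ((co' d A q.1 * co' d A q.2) *
      ((Y * √(2 * π) * rexp (-(Y ^ 2 * (fr q.1 + fr q.2) ^ 2) / 2) : ℝ) : ℂ)) *
        cexp (I * (0 : ℝ) * (fr q.1 + fr q.2 : ℝ)) := by
    unfold FF
    rw [← integral_complex_ofReal, ← gauss_sum (II N ×ˢ II N) (fun q => co' d A q.1 * co' d A q.2)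
      (fun q => fr q.1 + fr q.2) Y 0 hY]
    congr 1
    ext v
    rw [← EE_sq N d A v hA, sub_zero]
    push_cast
    rfl
  have h2 : FF N d A Y ≤ ‖((FF N d A Y : ℝ) : ℂ)‖ := by
    rw [Complex.norm_real]
    exact le_abs_self _
  refine h2.trans ?_
  rw [h1, Finset.mul_sum]
  refine (norm_sum_le _ _).trans (Finset.sum_le_sum ?_)
  intro q _
  rw [norm_mul, norm_cexp, mul_one, norm_mul, norm_mul]
  unfold co'
  rw [norm_mul, norm_mul, norm_co, norm_co, Complex.norm_real, Complex.norm_real,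
    Complex.norm_real, Real.norm_of_nonneg (by positivity), Real.norm_of_nonneg (by positivity),
    Real.norm_of_nonneg (by positivity)]
  have h3 : √(2 * π) * √(2 * π) = 2 * π := Real.mul_self_sqrt (by positivity)
  apply le_of_eq
  calc _ = (‖d q.1.1‖ * ‖d q.1.2‖) * (‖d q.2.1‖ * ‖d q.2.2‖) *
        (rexp (-(A ^ 2 * fr q.1 ^ 2) / 2) * rexp (-(A ^ 2 * fr q.2 ^ 2) / 2) *
          rexp (-(Y ^ 2 * (fr q.1 + fr q.2) ^ 2) / 2)) *
          (A ^ 2 * Y * ((√(2 * π) * √(2 * π)) * √(2 * π))) := by ring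
    _ = _ := by rw [h3]; ring

end P2

end

end Pool.Agent.H732R2.KK
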