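import Pool.Agent.H732R2.KK.P2a

/-!
# Task P2, part b: counting
-/

namespace Pool.Agent.H732R2.KK

open Real Complex MeasureTheory Filter Topology Metric

noncomputable section

namespace P2

theorem log_gap_aux {P Q M : ℕ} (hQ : 1 ≤ Q) (hPM : P ≤ M) (h : Q < P) :
    1 / (M : ℝ) ≤ Real.log P - Real.log Q := by
  have hQ' : (0 : ℝ) < Q := by exact_mod_cast hQ
  have hP' : (0 : ℝ) < P := by exact_mod_cast (lt_of_lt_of_le (Nat.lt_of_lt_of_le Nat.zero_lt_one hQ) h.le)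
  have h1 := Real.log_le_sub_one_of_pos (div_pos hQ' hP')
  rw [Real.log_div hQ'.ne' hP'.ne'] at h1
  have h2 : (Q : ℝ) + 1 ≤ P := by exact_mod_cast h
  have h3 : (Q : ℝ) / P ≤ 1 - 1 / P := by
    rw [div_le_iff₀ hP', sub_mul, div_mul_cancel₀ _ hP'.ne']
    linarith
  have h4 : 1 / (M : ℝ) ≤ 1 / P := one_div_le_one_div_of_le hP' (by exact_mod_cast hPM)
  linarith

theorem log_gap {P Q M : ℕ} (hP : 1 ≤ P) (hQ : 1 ≤ Q) (hPM : P ≤ M) (hQM : Q ≤ M) (h : P ≠ Q) :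
    1 / (M : ℝ) ≤ |Real.log P - Real.log Q| := by
  rcases lt_or_gt_of_ne h with h | h
  · rw [abs_sub_comm]
    exact (log_gap_aux hP hQM h).trans (le_abs_self _)
  · exact (log_gap_aux hQ hPM h).trans (le_abs_self _)

theorem sum_image_le {α β : Type} [DecidableEq β] (s : Finset α) (g : α → β) (f : β → ℝ)
    (hf : ∀ b, 0 ≤ f b) : ∑ b ∈ s.image g, f b ≤ ∑ a ∈ s, f (g a) := by
  classical
  induction s using Finset.induction_on with
  | empty => simp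
  | insert a s ha ih =>
    rw [Finset.image_insert, Finset.sum_insert ha]
    by_cases h : g a ∈ s.image g
    · rw [Finset.insert_eq_of_mem h]
      linarith [hf (g a)]
    · rw [Finset.sum_insert h]
      linarith

/-- The truncated index set. -/
def KS (N : ℕ) (p : ℕ × ℕ) : Finset ℕ :=
  (Finset.Icc 1 N).filter fun k => p.1 * k ≤ N ∧ p.2 * k ≤ N

/-- The sum over multiples. -/
def B (N : ℕ) (w : ℕ → ℝ) (a : ℕ) : ℝ :=
  ∑ k ∈ (Finset.Icc 1 N).filter (fun k => a * k ≤ N), w (a * k) ^ 2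

theorem B_nonneg (N : ℕ) (w : ℕ → ℝ) (a : ℕ) : 0 ≤ B N w a :=
  Finset.sum_nonneg fun _ _ => sq_nonneg _

theorem B_one (N : ℕ) (w : ℕ → ℝ) : B N w 1 = ∑ n ∈ Finset.Icc 1 N, w n ^ 2 := by
  unfold B
  have : (Finset.Icc 1 N).filter (fun k => 1 * k ≤ N) = Finset.Icc 1 N := by
    apply Finset.filter_true_of_mem
    intro k hk
    rw [Finset.mem_Icc] at hk
    omega
  rw [this]
  simp

theorem param {m n m1 n1 N : ℕ} (hm : m ∈ Finset.Icc 1 N) (hn : n ∈ Finset.Icc 1 N)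
    (hm1 : m1 ∈ Finset.Icc 1 N) (hn1 : n1 ∈ Finset.Icc 1 N) (h : n * n1 = m * m1) :
    ∃ a b k l, a ∈ Finset.Icc 1 N ∧ b ∈ Finset.Icc 1 N ∧ Nat.Coprime a b ∧ k ∈ KS N (a, b) ∧
      l ∈ KS N (a, b) ∧ m = b * k ∧ n = a * k ∧ m1 = a * l ∧ n1 = b * l := by
  rw [Finset.mem_Icc] at hm hn hm1 hn1
  obtain ⟨a, b, hab, ha, hb⟩ := Nat.exists_coprime n m
  set k := Nat.gcd n m with hk
  have hk0 : 0 < k := Nat.gcd_pos_of_pos_left m (by omega)
  have ha0 : 0 < a := by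
    rcases Nat.eq_zero_or_pos a with h0 | h0
    · rw [h0, zero_mul] at ha; omega
    · exact h0
  have hb0 : 0 < b := by
    rcases Nat.eq_zero_or_pos b with h0 | h0
    · rw [h0, zero_mul] at hb; omega
    · exact h0
  have h1 : a * n1 = b * m1 := by
    have : k * (a * n1) = k * (b * m1) := by
      calc k * (a * n1) = (a * k) * n1 := by ring
        _ = n * n1 := by rw [← ha]
        _ = m * m1 := h
        _ = (b * k) * m1 := by rw [← hb]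
        _ = k * (b * m1) := by ring
    exact Nat.eq_of_mul_eq_mul_left hk0 this
  have h2 : a ∣ m1 := by
    have : a ∣ b * m1 := ⟨n1, h1.symm⟩
    exact hab.dvd_of_dvd_mul_left this
  obtain ⟨l, hl⟩ := h2
  have h3 : n1 = b * l := by
    rw [hl] at h1
    have : a * n1 = a * (b * l) := by rw [h1]; ring
    exact Nat.eq_of_mul_eq_mul_left ha0 this
  have hl0 : 0 < l := by
    rcases Nat.eq_zero_or_pos l with h0 | h0
    · rw [h0, mul_zero] at hl; omega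
    · exact h0
  have hle : ∀ x y : ℕ, 0 < x → 0 < y → x ≤ x * y := fun x y _ hy => Nat.le_mul_of_pos_right x hy
  have hle' : ∀ x y : ℕ, 0 < x → 0 < y → y ≤ x * y := fun x y hx _ => Nat.le_mul_of_pos_left y hx
  refine ⟨a, b, k, l, ?_, ?_, hab, ?_, ?_, hb, ha, hl, h3⟩
  · rw [Finset.mem_Icc]
    have := hle a k ha0 hk0
    omega
  · rw [Finset.mem_Icc]
    have := hle b k hb0 hk0
    omega
  · unfold KS
    rw [Finset.mem_filter, Finset.mem_Icc]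
    simp only
    have := hle' a k ha0 hk0
    exact ⟨⟨hk0, by omega⟩, by omega, by omega⟩
  · unfold KS
    rw [Finset.mem_filter, Finset.mem_Icc]
    simp only
    have := hle' a l ha0 hl0
    exact ⟨⟨hl0, by omega⟩, by omega, by omega⟩

theorem diag (N : ℕ) (A : ℝ) (w : ℕ → ℝ) (hw : ∀ n, 0 ≤ w n) :
    ∑ q ∈ (II N ×ˢ II N).filter (fun q => q.1.2 * q.2.2 = q.1.1 * q.2.1),
      (w q.1.1 * w q.1.2) * (w q.2.1 * w q.2.2) * rexp (-(A ^ 2 * fr q.1 ^ 2)) ≤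
    ∑ p ∈ (II N).filter (fun p => Nat.Coprime p.1 p.2),
      rexp (-(A ^ 2 * (Real.log ((p.1 : ℝ) / p.2)) ^ 2)) * B N w p.1 * B N w p.2 := by
  classical
  set f : (ℕ × ℕ) × (ℕ × ℕ) → ℝ := fun q =>
    (w q.1.1 * w q.1.2) * (w q.2.1 * w q.2.2) * rexp (-(A ^ 2 * fr q.1 ^ 2)) with hf
  have hf0 : ∀ q, 0 ≤ f q := by
    intro q
    have h1 := hw q.1.1
    have h2 := hw q.1.2
    have h3 := hw q.2.1
    have h4 := hw q.2.2
    simp only [hf]
    positivity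
  set T : Finset ((_ : ℕ × ℕ) × (ℕ × ℕ)) :=
    ((II N).filter (fun p => Nat.Coprime p.1 p.2)).sigma fun p => KS N p ×ˢ KS N p with hT
  let g : ((_ : ℕ × ℕ) × (ℕ × ℕ)) → (ℕ × ℕ) × (ℕ × ℕ) := fun t =>
    ((t.1.2 * t.2.1, t.1.1 * t.2.1), (t.1.1 * t.2.2, t.1.2 * t.2.2))
  have hsub : (II N ×ˢ II N).filter (fun q => q.1.2 * q.2.2 = q.1.1 * q.2.1) ⊆ T.image g := by
    rintro ⟨⟨m, n⟩, ⟨m1, n1⟩⟩ hq
    rw [Finset.mem_filter, Finset.mem_product] at hq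
    obtain ⟨⟨hq1, hq2⟩, hq3⟩ := hq
    unfold II at hq1 hq2
    rw [Finset.mem_product] at hq1 hq2
    obtain ⟨a, b, k, l, ha, hb, hab, hk, hl, rfl, rfl, rfl, rfl⟩ :=
      param hq1.1 hq1.2 hq2.1 hq2.2 hq3
    rw [Finset.mem_image]
    refine ⟨⟨(a, b), (k, l)⟩, ?_, rfl⟩
    rw [hT, Finset.mem_sigma, Finset.mem_filter, Finset.mem_product]
    refine ⟨⟨?_, hab⟩, hk, hl⟩
    unfold II
    rw [Finset.mem_product]
    exact ⟨ha, hb⟩
  refine (Finset.sum_le_sum_of_subset_of_nonneg hsub fun q _ _ => hf0 q).trans ?_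
  refine (sum_image_le T g f hf0).trans ?_
  rw [hT, Finset.sum_sigma]
  apply Finset.sum_le_sum
  rintro ⟨a, b⟩ hp
  rw [Finset.mem_filter] at hp
  unfold II at hp
  rw [Finset.mem_product, Finset.mem_Icc, Finset.mem_Icc] at hp
  simp only at hp
  have ha : (0 : ℝ) < a := by exact_mod_cast hp.1.1.1
  have hb : (0 : ℝ) < b := by exact_mod_cast hp.1.2.1
  have h1 : ∑ s ∈ KS N (a, b) ×ˢ KS N (a, b), f (g ⟨(a, b), s⟩) =
      rexp (-(A ^ 2 * (Real.log ((a : ℝ) / b)) ^ 2)) *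
        (∑ k ∈ KS N (a, b), w (a * k) * w (b * k)) ^ 2 := by
    rw [sq (∑ k ∈ KS N (a, b), w (a * k) * w (b * k)), Finset.sum_mul_sum, Finset.sum_product,
      Finset.mul_sum]
    apply Finset.sum_congr rfl
    intro k hk
    rw [Finset.mul_sum]
    apply Finset.sum_congr rfl
    intro l _
    unfold KS at hk
    rw [Finset.mem_filter, Finset.mem_Icc] at hk
    have hk0 : (0 : ℝ) < k := by exact_mod_cast hk.1.1
    have h2 : fr (b * k, a * k) = Real.log ((a : ℝ) / b) := by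
      unfold fr
      push_cast
      rw [Real.log_mul ha.ne' hk0.ne', Real.log_mul hb.ne' hk0.ne', Real.log_div ha.ne' hb.ne']
      ring
    simp only [hf, g]
    rw [h2]
    ring
  rw [h1]
  have h3 : (∑ k ∈ KS N (a, b), w (a * k) * w (b * k)) ^ 2 ≤
      (∑ k ∈ KS N (a, b), w (a * k) ^ 2) * (∑ k ∈ KS N (a, b), w (b * k) ^ 2) :=
    Finset.sum_mul_sq_le_sq_mul_sq _ _ _
  have h4 : ∑ k ∈ KS N (a, b), w (a * k) ^ 2 ≤ B N w a := by
    unfold B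
    apply Finset.sum_le_sum_of_subset_of_nonneg
    · intro k hk
      unfold KS at hk
      rw [Finset.mem_filter] at hk ⊢
      exact ⟨hk.1, hk.2.1⟩
    · intro k _ _
      exact sq_nonneg _
  have h5 : ∑ k ∈ KS N (a, b), w (b * k) ^ 2 ≤ B N w b := by
    unfold B
    apply Finset.sum_le_sum_of_subset_of_nonneg
    · intro k hk
      unfold KS at hk
      rw [Finset.mem_filter] at hk ⊢
      exact ⟨hk.1, hk.2.2⟩
    · intro k _ _
      exact sq_nonneg _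
  have h6 : (∑ k ∈ KS N (a, b), w (a * k) ^ 2) * (∑ k ∈ KS N (a, b), w (b * k) ^ 2) ≤
      B N w a * B N w b :=
    mul_le_mul h4 h5 (Finset.sum_nonneg fun _ _ => sq_nonneg _) (B_nonneg _ _ _)
  simp only
  rw [mul_assoc]
  exact mul_le_mul_of_nonneg_left (h3.trans h6) (Real.exp_pos _).le

theorem coprime_sum_le (N : ℕ) (A : ℝ) (w : ℕ → ℝ) :
    ∑ p ∈ (II N).filter (fun p => Nat.Coprime p.1 p.2),
      rexp (-(A ^ 2 * (Real.log ((p.1 : ℝ) / p.2)) ^ 2)) * B N w p.1 * B N w p.2 ≤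
    (∑ n ∈ Finset.Icc 1 N, w n ^ 2) ^ 2 +
      ∑ a ∈ Finset.Icc 1 N, ∑ b ∈ (Finset.Icc 1 N).filter (fun b => b ≠ a),
        rexp (-(A ^ 2 * (Real.log ((a : ℝ) / b)) ^ 2)) * B N w a * B N w b := by
  classical
  set h : ℕ × ℕ → ℝ := fun p =>
    rexp (-(A ^ 2 * (Real.log ((p.1 : ℝ) / p.2)) ^ 2)) * B N w p.1 * B N w p.2 with hh
  have h0 : ∀ p, 0 ≤ h p := by
    intro p
    have h1 := B_nonneg N w p.1
    have h2 := B_nonneg N w p.2
    simp only [hh]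
    positivity
  have hsub : (II N).filter (fun p => Nat.Coprime p.1 p.2) ⊆
      insert (1, 1) ((II N).filter fun p => p.2 ≠ p.1) := by
    rintro ⟨a, b⟩ hp
    rw [Finset.mem_filter] at hp
    rw [Finset.mem_insert, Finset.mem_filter]
    by_cases hab : b = a
    · left
      subst hab
      have := (Nat.coprime_self b).1 hp.2
      rw [this]
    · exact Or.inr ⟨hp.1, hab⟩
  refine (Finset.sum_le_sum_of_subset_of_nonneg hsub fun q _ _ => h0 q).trans ?_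
  rw [Finset.sum_insert (by simp)]
  apply le_of_eq
  congr 1
  · simp only [hh]
    rw [B_one, Nat.cast_one, div_one, Real.log_one]
    simp
    ring
  · rw [Finset.sum_filter]
    unfold II
    rw [Finset.sum_product]
    apply Finset.sum_congr rfl
    intro a _
    rw [Finset.sum_filter]

theorem comb (N : ℕ) (hN : 1 ≤ N) (A Y : ℝ) (hY : (N : ℝ) ^ 5 ≤ Y) (w : ℕ → ℝ)
    (hw : ∀ n, 0 ≤ w n) :
    ∑ q ∈ II N ×ˢ II N, (w q.1.1 * w q.1.2) * (w q.2.1 * w q.2.2) *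
        (rexp (-(A ^ 2 * fr q.1 ^ 2) / 2) * rexp (-(A ^ 2 * fr q.2 ^ 2) / 2) *
          rexp (-(Y ^ 2 * (fr q.1 + fr q.2) ^ 2) / 2)) ≤
    2 * (∑ n ∈ Finset.Icc 1 N, w n ^ 2) ^ 2 +
      ∑ a ∈ Finset.Icc 1 N, ∑ b ∈ (Finset.Icc 1 N).filter (fun b => b ≠ a),
        rexp (-(A ^ 2 * (Real.log ((a : ℝ) / b)) ^ 2)) * B N w a * B N w b := by
  classical
  have hN0 : (1 : ℝ) ≤ N := by exact_mod_cast hN
  rw [← Finset.sum_filter_add_sum_filter_not (II N ×ˢ II N)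
    (fun q => q.1.2 * q.2.2 = q.1.1 * q.2.1)]
  have hpos : ∀ q ∈ II N ×ˢ II N, (1 ≤ q.1.1 ∧ q.1.1 ≤ N) ∧ (1 ≤ q.1.2 ∧ q.1.2 ≤ N) ∧
      (1 ≤ q.2.1 ∧ q.2.1 ≤ N) ∧ (1 ≤ q.2.2 ∧ q.2.2 ≤ N) := by
    intro q hq
    unfold II at hq
    rw [Finset.mem_product, Finset.mem_product, Finset.mem_product, Finset.mem_Icc,
      Finset.mem_Icc, Finset.mem_Icc, Finset.mem_Icc] at hq
    exact ⟨hq.1.1, hq.1.2, hq.2.1, hq.2.2⟩
  have hfr : ∀ q ∈ II N ×ˢ II N, fr q.1 + fr q.2 =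
      Real.log ((q.1.2 * q.2.2 : ℕ) : ℝ) - Real.log ((q.1.1 * q.2.1 : ℕ) : ℝ) := by
    intro q hq
    obtain ⟨⟨h1, -⟩, ⟨h2, -⟩, ⟨h3, -⟩, ⟨h4, -⟩⟩ := hpos q hq
    have h1' : (q.1.1 : ℝ) ≠ 0 := by positivity
    have h2' : (q.1.2 : ℝ) ≠ 0 := by positivity
    have h3' : (q.2.1 : ℝ) ≠ 0 := by positivity
    have h4' : (q.2.2 : ℝ) ≠ 0 := by positivity
    unfold fr
    push_cast
    rw [Real.log_mul h2' h4', Real.log_mul h1' h3']
    ring
  -- diagonal terms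
  have hd : ∑ q ∈ (II N ×ˢ II N).filter (fun q => q.1.2 * q.2.2 = q.1.1 * q.2.1),
      (w q.1.1 * w q.1.2) * (w q.2.1 * w q.2.2) *
        (rexp (-(A ^ 2 * fr q.1 ^ 2) / 2) * rexp (-(A ^ 2 * fr q.2 ^ 2) / 2) *
          rexp (-(Y ^ 2 * (fr q.1 + fr q.2) ^ 2) / 2)) ≤
      ∑ q ∈ (II N ×ˢ II N).filter (fun q => q.1.2 * q.2.2 = q.1.1 * q.2.1),
      (w q.1.1 * w q.1.2) * (w q.2.1 * w q.2.2) * rexp (-(A ^ 2 * fr q.1 ^ 2)) := by
    apply Finset.sum_le_sum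
    intro q hq
    rw [Finset.mem_filter] at hq
    have h1 := hfr q hq.1
    rw [hq.2, sub_self] at h1
    have h2 : fr q.2 = - fr q.1 := by linarith
    apply mul_le_mul_of_nonneg_left _
      (mul_nonneg (mul_nonneg (hw _) (hw _)) (mul_nonneg (hw _) (hw _)))
    rw [h1, h2, ← Real.exp_add, ← Real.exp_add]
    apply le_of_eq
    congr 1
    ring
  -- off-diagonal terms
  have ho : ∑ q ∈ (II N ×ˢ II N).filter (fun q => ¬ q.1.2 * q.2.2 = q.1.1 * q.2.1),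
      (w q.1.1 * w q.1.2) * (w q.2.1 * w q.2.2) *
        (rexp (-(A ^ 2 * fr q.1 ^ 2) / 2) * rexp (-(A ^ 2 * fr q.2 ^ 2) / 2) *
          rexp (-(Y ^ 2 * (fr q.1 + fr q.2) ^ 2) / 2)) ≤
      (∑ n ∈ Finset.Icc 1 N, w n ^ 2) ^ 2 := by
    have h1 : ∀ q ∈ (II N ×ˢ II N).filter (fun q => ¬ q.1.2 * q.2.2 = q.1.1 * q.2.1),
        (w q.1.1 * w q.1.2) * (w q.2.1 * w q.2.2) *
        (rexp (-(A ^ 2 * fr q.1 ^ 2) / 2) * rexp (-(A ^ 2 * fr q.2 ^ 2) / 2) *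
          rexp (-(Y ^ 2 * (fr q.1 + fr q.2) ^ 2) / 2)) ≤
        (w q.1.1 * w q.1.2) * (w q.2.1 * w q.2.2) * (1 / (N : ℝ) ^ 2) := by
      intro q hq
      rw [Finset.mem_filter] at hq
      obtain ⟨⟨g1, g1'⟩, ⟨g2, g2'⟩, ⟨g3, g3'⟩, ⟨g4, g4'⟩⟩ := hpos q hq.1
      apply mul_le_mul_of_nonneg_left _
        (mul_nonneg (mul_nonneg (hw _) (hw _)) (mul_nonneg (hw _) (hw _)))
      have e1 : rexp (-(A ^ 2 * fr q.1 ^ 2) / 2) ≤ 1 := by
        rw [Real.exp_le_one_iff]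
        have : 0 ≤ A ^ 2 * fr q.1 ^ 2 := by positivity
        linarith
      have e2 : rexp (-(A ^ 2 * fr q.2 ^ 2) / 2) ≤ 1 := by
        rw [Real.exp_le_one_iff]
        have : 0 ≤ A ^ 2 * fr q.2 ^ 2 := by positivity
        linarith
      have e3 : rexp (-(Y ^ 2 * (fr q.1 + fr q.2) ^ 2) / 2) ≤ 1 / (N : ℝ) ^ 2 := by
        have k1 : 1 / ((N * N : ℕ) : ℝ) ≤ |fr q.1 + fr q.2| := by
          rw [hfr q hq.1]
          exact log_gap (Nat.mul_pos g2 g4) (Nat.mul_pos g1 g3) (Nat.mul_le_mul g2' g4')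
            (Nat.mul_le_mul g1' g3') hq.2
        have k2 : (N : ℝ) ^ 5 * (1 / ((N * N : ℕ) : ℝ)) ≤ Y * |fr q.1 + fr q.2| :=
          mul_le_mul hY k1 (by positivity) (by linarith [pow_nonneg (by linarith : (0 : ℝ) ≤ N) 5])
        have k3 : (N : ℝ) ^ 5 * (1 / ((N * N : ℕ) : ℝ)) = (N : ℝ) ^ 3 := by
          push_cast
          field_simp
        rw [k3] at k2
        have k4 : ((N : ℝ) ^ 3) ^ 2 ≤ (Y * |fr q.1 + fr q.2|) ^ 2 :=
          pow_le_pow_left₀ (by positivity) k2 2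
        rw [mul_pow, sq_abs] at k4
        have k5 : rexp (-(Y ^ 2 * (fr q.1 + fr q.2) ^ 2) / 2) ≤ rexp (-(((N : ℝ) ^ 3) ^ 2 / 2)) := by
          rw [Real.exp_le_exp]
          linarith
        refine k5.trans ?_
        rw [Real.exp_neg, one_div]
        apply inv_anti₀ (by positivity)
        have k6 := Real.add_one_le_exp (((N : ℝ) ^ 3) ^ 2 / 2)
        refine le_trans ?_ k6
        have k7 : (N : ℝ) ^ 2 ≤ ((N : ℝ) ^ 3) ^ 2 / 2 + 1 := by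
          have k8 : (1 : ℝ) ≤ (N : ℝ) ^ 2 := one_le_pow₀ hN0
          have k9 : ((N : ℝ) ^ 3) ^ 2 = (N : ℝ) ^ 2 * (N : ℝ) ^ 2 * (N : ℝ) ^ 2 := by ring
          rw [k9]
          nlinarith [sq_nonneg ((N : ℝ) ^ 2 - 1), mul_self_nonneg ((N : ℝ) ^ 2 - 1),
            mul_nonneg (sub_nonneg.2 k8) (sq_nonneg ((N : ℝ) ^ 2 - 1)),
            mul_nonneg (sub_nonneg.2 k8) (sub_nonneg.2 k8)]
        exact k7
      calc rexp (-(A ^ 2 * fr q.1 ^ 2) / 2) * rexp (-(A ^ 2 * fr q.2 ^ 2) / 2) *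
          rexp (-(Y ^ 2 * (fr q.1 + fr q.2) ^ 2) / 2)
          ≤ 1 * 1 * (1 / (N : ℝ) ^ 2) := by
            apply mul_le_mul _ e3 (Real.exp_pos _).le (by norm_num)
            exact mul_le_mul e1 e2 (Real.exp_pos _).le (by norm_num)
        _ = 1 / (N : ℝ) ^ 2 := by ring
    refine (Finset.sum_le_sum h1).trans ?_
    have h2 : ∑ q ∈ (II N ×ˢ II N).filter (fun q => ¬ q.1.2 * q.2.2 = q.1.1 * q.2.1),
        (w q.1.1 * w q.1.2) * (w q.2.1 * w q.2.2) * (1 / (N : ℝ) ^ 2) ≤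
        ∑ q ∈ II N ×ˢ II N, (w q.1.1 * w q.1.2) * (w q.2.1 * w q.2.2) * (1 / (N : ℝ) ^ 2) := by
      apply Finset.sum_le_sum_of_subset_of_nonneg (Finset.filter_subset _ _)
      intro q _ _
      exact mul_nonneg (mul_nonneg (mul_nonneg (hw _) (hw _)) (mul_nonneg (hw _) (hw _)))
        (by positivity)
    refine h2.trans ?_
    have h3 : ∑ p ∈ II N, w p.1 * w p.2 = (∑ n ∈ Finset.Icc 1 N, w n) ^ 2 := by
      unfold II
      rw [sq, Finset.sum_mul_sum, Finset.sum_product]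
    have h4 : ∑ q ∈ II N ×ˢ II N, (w q.1.1 * w q.1.2) * (w q.2.1 * w q.2.2) * (1 / (N : ℝ) ^ 2) =
        ((∑ n ∈ Finset.Icc 1 N, w n) ^ 2) ^ 2 * (1 / (N : ℝ) ^ 2) := by
      rw [← Finset.sum_mul, ← h3, sq (∑ p ∈ II N, w p.1 * w p.2), Finset.sum_mul_sum,
        Finset.sum_product]
    rw [h4]
    have h5 : (∑ n ∈ Finset.Icc 1 N, w n) ^ 2 ≤ N * ∑ n ∈ Finset.Icc 1 N, w n ^ 2 := by
      have := sq_sum_le_card_mul_sum_sq (s := Finset.Icc 1 N) (f := w)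
      simpa using this
    have h6 : ((∑ n ∈ Finset.Icc 1 N, w n) ^ 2) ^ 2 ≤ (N * ∑ n ∈ Finset.Icc 1 N, w n ^ 2) ^ 2 :=
      pow_le_pow_left₀ (sq_nonneg _) h5 2
    calc ((∑ n ∈ Finset.Icc 1 N, w n) ^ 2) ^ 2 * (1 / (N : ℝ) ^ 2)
        ≤ (N * ∑ n ∈ Finset.Icc 1 N, w n ^ 2) ^ 2 * (1 / (N : ℝ) ^ 2) :=
          mul_le_mul_of_nonneg_right h6 (by positivity)
      _ = (∑ n ∈ Finset.Icc 1 N, w n ^ 2) ^ 2 := by
          field_simp
  have hdd := diag N A w hw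
  have hcc := coprime_sum_le N A w
  linarith

end P2

end

end Pool.Agent.H732R2.KK
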