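import Pool.Agent.H732R2.KK.Defs

namespace Pool.Agent.H732R2.KK

open Real Complex MeasureTheory Filter Topology Metric

noncomputable section

namespace SS

/-- real version of `phi` -/
def pr (s : ℝ) : ℝ :=
  2 * (2 * π ^ 2 * rexp (9 * s / 2) - 3 * π * rexp (5 * s / 2)) * rexp (-(π * rexp (2 * s)))

theorem phi_ofReal (s : ℝ) : phi (s : ℂ) = ((pr s : ℝ) : ℂ) := by
  unfold phi pr
  push_cast
  rfl

/-- the `n`-th term of `Phi` -/
def tm (n : ℕ) (t : ℝ) : ℝ :=
  (2 * π ^ 2 * ((n : ℝ) + 1) ^ 4 * rexp (9 * t / 2)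
      - 3 * π * ((n : ℝ) + 1) ^ 2 * rexp (5 * t / 2)) *
        rexp (-(π * ((n : ℝ) + 1) ^ 2 * rexp (2 * t)))

theorem exp_lg (n : ℕ) : rexp (lg n) = (n : ℝ) + 1 := by
  unfold lg
  rw [Real.exp_log (by positivity)]

theorem lg_nonneg (n : ℕ) : 0 ≤ lg n := by
  unfold lg
  apply Real.log_nonneg
  have : (0 : ℝ) ≤ n := Nat.cast_nonneg n
  linarith

theorem tm_eq (n : ℕ) (t : ℝ) : rexp (-(lg n) / 2) * pr (t + lg n) = 2 * tm n t := by
  unfold pr tm
  have h1 : rexp (9 * (t + lg n) / 2) * rexp (-(lg n) / 2) = ((n : ℝ) + 1) ^ 4 * rexp (9 * t / 2) := by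
    rw [← exp_lg n, ← Real.exp_nat_mul, ← Real.exp_add, ← Real.exp_add]
    congr 1
    push_cast
    ring
  have h2 : rexp (5 * (t + lg n) / 2) * rexp (-(lg n) / 2) = ((n : ℝ) + 1) ^ 2 * rexp (5 * t / 2) := by
    rw [← exp_lg n, ← Real.exp_nat_mul, ← Real.exp_add, ← Real.exp_add]
    congr 1
    push_cast
    ring
  have h3 : rexp (2 * (t + lg n)) = ((n : ℝ) + 1) ^ 2 * rexp (2 * t) := by
    rw [← exp_lg n, ← Real.exp_nat_mul, ← Real.exp_add]
    congr 1
    push_cast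
    ring
  rw [h3]
  calc rexp (-(lg n) / 2) * (2 * (2 * π ^ 2 * rexp (9 * (t + lg n) / 2)
        - 3 * π * rexp (5 * (t + lg n) / 2)) * rexp (-(π * (((n : ℝ) + 1) ^ 2 * rexp (2 * t)))))
      = 2 * (2 * π ^ 2 * (rexp (9 * (t + lg n) / 2) * rexp (-(lg n) / 2))
        - 3 * π * (rexp (5 * (t + lg n) / 2) * rexp (-(lg n) / 2))) *
          rexp (-(π * (((n : ℝ) + 1) ^ 2 * rexp (2 * t)))) := by ring
    _ = _ := by
        rw [h1, h2, ← mul_assoc π]
        ring

/-- the constant -/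
def c0 : ℝ := 2 * (2 * π ^ 2 + 3 * π) * 24

theorem c0_nonneg : 0 ≤ c0 := by unfold c0; positivity

theorem exp_bound (a s : ℝ) (ha : 0 ≤ a) (ha8 : a ≤ 8) :
    rexp (a * s) * rexp (-(π * rexp (2 * s))) ≤ 24 := by
  rw [Real.exp_neg, ← div_eq_mul_inv, div_le_iff₀ (Real.exp_pos _)]
  have hpi : (1 : ℝ) ≤ π := by linarith [Real.pi_gt_three]
  rcases le_or_gt s 0 with hs | hs
  · have h1 : rexp (a * s) ≤ 1 := by
      rw [Real.exp_le_one_iff]
      exact mul_nonpos_of_nonneg_of_nonpos ha hs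
    have h2 : 1 ≤ rexp (π * rexp (2 * s)) := by
      apply Real.one_le_exp
      positivity
    linarith
  · have h1 : rexp (a * s) ≤ rexp (2 * s) ^ 4 := by
      rw [← Real.exp_nat_mul]
      apply Real.exp_le_exp.mpr
      push_cast
      nlinarith
    have h2 : rexp (2 * s) ^ 4 / (Nat.factorial 4 : ℝ) ≤ rexp (rexp (2 * s)) :=
      Real.pow_div_factorial_le_exp _ (Real.exp_pos _).le 4
    have h3 : rexp (rexp (2 * s)) ≤ rexp (π * rexp (2 * s)) := by
      apply Real.exp_le_exp.mpr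
      nlinarith [Real.exp_pos (2 * s)]
    have h4 : (Nat.factorial 4 : ℝ) = 24 := by norm_num [Nat.factorial]
    rw [h4, div_le_iff₀ (by norm_num)] at h2
    linarith

theorem pr_bound (s : ℝ) : |pr s| ≤ c0 * rexp (-(2 * s)) := by
  have h1 := exp_bound (13 / 2) s (by norm_num) (by norm_num)
  have h2 := exp_bound (9 / 2) s (by norm_num) (by norm_num)
  have e1 : rexp (9 * s / 2) = rexp (13 / 2 * s) * rexp (-(2 * s)) := by
    rw [← Real.exp_add]; congr 1; ring
  have e2 : rexp (5 * s / 2) = rexp (9 / 2 * s) * rexp (-(2 * s)) := by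
    rw [← Real.exp_add]; congr 1; ring
  unfold pr c0
  have hp : 0 < π := Real.pi_pos
  set P := rexp (-(π * rexp (2 * s))) with hP
  set Q := rexp (-(2 * s)) with hQ
  have hP0 : 0 < P := Real.exp_pos _
  have hQ0 : 0 < Q := Real.exp_pos _
  rw [e1, e2]
  set a := rexp (13 / 2 * s)
  set b := rexp (9 / 2 * s)
  have ha : 0 < a := Real.exp_pos _
  have hb : 0 < b := Real.exp_pos _
  have e3 : 2 * (2 * π ^ 2 * (a * Q) - 3 * π * (b * Q)) * P =
      2 * Q * (2 * π ^ 2 * (a * P) - 3 * π * (b * P)) := by ring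
  rw [e3, abs_mul, abs_of_pos (by positivity : 0 < 2 * Q)]
  have h3 : |2 * π ^ 2 * (a * P) - 3 * π * (b * P)| ≤ 2 * π ^ 2 * 24 + 3 * π * 24 := by
    have h4 : 2 * π ^ 2 * (a * P) ≤ 2 * π ^ 2 * 24 := mul_le_mul_of_nonneg_left h1 (by positivity)
    have h5 : 3 * π * (b * P) ≤ 3 * π * 24 := mul_le_mul_of_nonneg_left h2 (by positivity)
    have h6 : 0 ≤ 2 * π ^ 2 * (a * P) := by positivity
    have h7 : 0 ≤ 3 * π * (b * P) := by positivity
    rw [abs_le]
    constructor <;> linarith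
  calc 2 * Q * |2 * π ^ 2 * (a * P) - 3 * π * (b * P)|
      ≤ 2 * Q * (2 * π ^ 2 * 24 + 3 * π * 24) := mul_le_mul_of_nonneg_left h3 (by positivity)
    _ = _ := by ring

/-- the weights -/
def wt (n : ℕ) : ℝ := rexp (-(5 / 2 * lg n))

theorem tm_bound (n : ℕ) (t : ℝ) : |2 * tm n t| ≤ c0 * wt n * rexp (-(2 * t)) := by
  rw [← tm_eq, abs_mul, abs_of_pos (Real.exp_pos _)]
  calc rexp (-(lg n) / 2) * |pr (t + lg n)| ≤ rexp (-(lg n) / 2) * (c0 * rexp (-(2 * (t + lg n)))) :=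
        mul_le_mul_of_nonneg_left (pr_bound _) (Real.exp_pos _).le
    _ = c0 * (rexp (-(lg n) / 2) * rexp (-(2 * (t + lg n)))) := by ring
    _ = c0 * (wt n * rexp (-(2 * t))) := by
        unfold wt
        rw [← Real.exp_add, ← Real.exp_add]
        congr 2
        ring
    _ = _ := by ring

theorem wt_eq (n : ℕ) : wt n = (((n : ℝ) + 1) ^ (5 / 2 : ℝ))⁻¹ := by
  unfold wt lg
  rw [Real.exp_neg, Real.rpow_def_of_pos (by positivity)]
  congr 2
  ring

theorem wt_summable : Summable wt := by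
  have h : Summable (fun n : ℕ => (((n : ℝ)) ^ (5 / 2 : ℝ))⁻¹) := by
    have := Real.summable_nat_rpow_inv (p := 5 / 2)
    exact this.mpr (by norm_num)
  have h2 := (summable_nat_add_iff 1).mpr h
  refine h2.congr ?_
  intro n
  rw [wt_eq]
  push_cast
  rfl

theorem tm_summable (t : ℝ) : Summable (fun n => 2 * tm n t) := by
  apply Summable.of_norm_bounded (g := fun n => c0 * wt n * rexp (-(2 * t)))
  · exact (wt_summable.mul_left c0).mul_right _
  · intro n
    exact tm_bound n t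

theorem Phi_eq (t : ℝ) : Phi t = ∑' n, 2 * tm n t := by
  unfold Phi tm
  rw [tsum_mul_left]

/-- total weight -/
def c1 : ℝ := c0 * ∑' n, wt n

theorem Phi_bound (t : ℝ) : |Phi t| ≤ c1 * rexp (-(2 * t)) := by
  rw [Phi_eq]
  have h1 : Summable (fun n => ‖2 * tm n t‖) := (tm_summable t).norm
  calc |∑' n, 2 * tm n t| ≤ ∑' n, ‖2 * tm n t‖ := norm_tsum_le_tsum_norm h1
    _ ≤ ∑' n, c0 * wt n * rexp (-(2 * t)) := by
        apply h1.tsum_le_tsum
        · intro n
          exact tm_bound n t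
        · exact (wt_summable.mul_left c0).mul_right _
    _ = _ := by
        unfold c1
        rw [tsum_mul_right, tsum_mul_left]

theorem tm_continuous (n : ℕ) : Continuous (fun t => 2 * tm n t) := by
  unfold tm
  fun_prop

theorem Phi_measurable : Measurable Phi := by
  have h : Tendsto (fun (N : ℕ) (t : ℝ) => ∑ n ∈ Finset.range N, 2 * tm n t) atTop (𝓝 Phi) := by
    rw [tendsto_pi_nhds]
    intro t
    rw [Phi_eq]
    exact (tm_summable t).hasSum.tendsto_sum_nat
  refine measurable_of_tendsto_metrizable ?_ h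
  intro N
  apply Continuous.measurable
  exact continuous_finsetSum _ (fun n _ => tm_continuous n)

/-- gaussian weights -/
theorem gauss_int (mu a : ℝ) (hmu : 0 < mu) : Integrable (fun t : ℝ => rexp (-mu * t ^ 2 + a * t)) := by
  have h := (integrable_cexp_quadratic' (b := (-mu : ℂ)) (by simpa using hmu) (a : ℂ) 0).norm
  refine h.congr (Filter.Eventually.of_forall ?_)
  intro t
  simp only [Complex.norm_exp]
  congr 1
  simp [← Complex.ofReal_pow]

end SS

open SS

theorem G_eq (mu h : ℝ) (hmu : 0 < mu) (w : ℂ) :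
    G mu h w = cexp (-(1 / 2 + w) * h - mu * (h : ℂ) ^ 2) * E mu (w + 2 * mu * h) := by
  unfold G E
  rw [← integral_sub_right_eq_self (fun t : ℝ => cexp (-(h : ℂ) / 2) * phi ((t : ℂ) + h) *
    cexp (-(mu : ℂ) * (t : ℂ) ^ 2 + w * t)) h, ← integral_const_mul]
  congr 1
  ext t
  have e1 : (((t - h : ℝ) : ℂ) + h) = t := by push_cast; ring
  rw [e1]
  have e2 : cexp (-(h : ℂ) / 2) * cexp (-(mu : ℂ) * ((t - h : ℝ) : ℂ) ^ 2 + w * ((t - h : ℝ) : ℂ)) =
      cexp (-(1 / 2 + w) * h - mu * (h : ℂ) ^ 2) *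
        cexp (-(mu : ℂ) * (t : ℂ) ^ 2 + (w + 2 * mu * h) * t) := by
    rw [← Complex.exp_add, ← Complex.exp_add]
    congr 1
    push_cast
    ring
  calc cexp (-(h : ℂ) / 2) * phi t * cexp (-(mu : ℂ) * ((t - h : ℝ) : ℂ) ^ 2 + w * ((t - h : ℝ) : ℂ))
      = phi t * (cexp (-(h : ℂ) / 2) *
        cexp (-(mu : ℂ) * ((t - h : ℝ) : ℂ) ^ 2 + w * ((t - h : ℝ) : ℂ))) := by ring
    _ = _ := by rw [e2]; ring

namespace SS

/-- the integrand of `G` -/
def gi (mu : ℝ) (w : ℂ) (n : ℕ) (t : ℝ) : ℂ :=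
  cexp (-(lg n : ℂ) / 2) * phi ((t : ℂ) + lg n) * cexp (-(mu : ℂ) * (t : ℂ) ^ 2 + w * t)

theorem gi_eq (mu : ℝ) (w : ℂ) (n : ℕ) (t : ℝ) :
    gi mu w n t = ((2 * tm n t : ℝ) : ℂ) * cexp (-(mu : ℂ) * (t : ℂ) ^ 2 + w * t) := by
  unfold gi
  rw [← tm_eq]
  have : phi ((t : ℂ) + lg n) = ((pr (t + lg n) : ℝ) : ℂ) := by
    rw [← phi_ofReal]; push_cast; rfl
  rw [this]
  push_cast
  ring

theorem norm_cexp_q (mu : ℝ) (w : ℂ) (t : ℝ) :
    ‖cexp (-(mu : ℂ) * (t : ℂ) ^ 2 + w * t)‖ = rexp (-mu * t ^ 2 + w.re * t) := by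
  rw [Complex.norm_exp]
  congr 1
  simp [← Complex.ofReal_pow]

theorem gi_bound (mu : ℝ) (w : ℂ) (n : ℕ) (t : ℝ) :
    ‖gi mu w n t‖ ≤ c0 * wt n * rexp (-mu * t ^ 2 + (w.re - 2) * t) := by
  rw [gi_eq, norm_mul, norm_cexp_q, Complex.norm_real]
  calc ‖2 * tm n t‖ * rexp (-mu * t ^ 2 + w.re * t)
      ≤ (c0 * wt n * rexp (-(2 * t))) * rexp (-mu * t ^ 2 + w.re * t) :=
        mul_le_mul_of_nonneg_right (tm_bound n t) (Real.exp_pos _).le
    _ = c0 * wt n * (rexp (-(2 * t)) * rexp (-mu * t ^ 2 + w.re * t)) := by ring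
    _ = _ := by
        rw [← Real.exp_add]
        congr 2
        ring

theorem gi_continuous (mu : ℝ) (w : ℂ) (n : ℕ) : Continuous (gi mu w n) := by
  unfold gi phi
  fun_prop

theorem gi_int (mu : ℝ) (hmu : 0 < mu) (w : ℂ) (n : ℕ) : Integrable (gi mu w n) := by
  refine Integrable.mono' ((gauss_int mu (w.re - 2) hmu).const_mul (c0 * wt n))
    (gi_continuous mu w n).aestronglyMeasurable ?_
  exact Filter.Eventually.of_forall (fun t => gi_bound mu w n t)

theorem gi_norm_summable (mu : ℝ) (hmu : 0 < mu) (w : ℂ) :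
    Summable (fun n => ∫ t, ‖gi mu w n t‖) := by
  apply Summable.of_nonneg_of_le (f := fun n => c0 * wt n *
    ∫ t : ℝ, rexp (-mu * t ^ 2 + (w.re - 2) * t))
  · intro n
    exact integral_nonneg (fun t => norm_nonneg _)
  · intro n
    rw [← integral_const_mul]
    exact integral_mono (gi_int mu hmu w n).norm
      ((gauss_int mu (w.re - 2) hmu).const_mul (c0 * wt n)) (fun t => gi_bound mu w n t)
  · exact (wt_summable.mul_left c0).mul_right _

theorem G_gi (mu : ℝ) (w : ℂ) (n : ℕ) : G mu (lg n) w = ∫ t, gi mu w n t := rfl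

end SS

theorem G_summable (mu : ℝ) (hmu : 0 < mu) (w : ℂ) :
    Summable (fun n : ℕ => ‖G mu (lg n) w‖) := by
  apply Summable.of_nonneg_of_le (f := fun n => ∫ t, ‖gi mu w n t‖)
  · intro n
    exact norm_nonneg _
  · intro n
    rw [G_gi]
    exact norm_integral_le_integral_norm _
  · exact gi_norm_summable mu hmu w

theorem xi_hasSum (mu : ℝ) (hmu : 0 < mu) (w : ℂ) :
    HasSum (fun n : ℕ => G mu (lg n) w) (Xi (-mu) (-I * w)) := by
  have h := hasSum_integral_of_summable_integral_norm (F := gi mu w) (μ := volume)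
    (gi_int mu hmu w) (gi_norm_summable mu hmu w)
  have e : Xi (-mu) (-I * w) = ∫ t, ∑' n, gi mu w n t := by
    unfold Xi
    congr 1
    ext t
    have e1 : (fun n => gi mu w n t) = fun n => ((2 * tm n t : ℝ) : ℂ) *
        cexp (-(mu : ℂ) * (t : ℂ) ^ 2 + w * t) := by
      ext n
      exact gi_eq mu w n t
    rw [e1, tsum_mul_right, ← Complex.ofReal_tsum, ← Phi_eq]
    push_cast
    rw [mul_assoc, ← Complex.exp_add]
    congr 2
    have : I * (-I * w) * t = w * t := by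
      have h1 : I * (-I * w) * t = -(I * I) * w * t := by ring
      rw [h1, Complex.I_mul_I]
      ring
    rw [this]
  rw [e]
  exact h

namespace SS

/-- kernel -/
def kr (mu : ℝ) (t : ℝ) : ℂ := ((Phi t * rexp (-mu * t ^ 2) : ℝ) : ℂ)

theorem kr_measurable (mu : ℝ) : Measurable (kr mu) := by
  unfold kr
  exact Complex.measurable_ofReal.comp (Phi_measurable.mul (by fun_prop))

theorem kr_bound (mu : ℝ) (t : ℝ) : ‖kr mu t‖ ≤ c1 * rexp (-mu * t ^ 2 + -2 * t) := by
  unfold kr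
  rw [Complex.norm_real, norm_mul, Real.norm_of_nonneg (Real.exp_pos _).le]
  calc ‖Phi t‖ * rexp (-mu * t ^ 2) ≤ (c1 * rexp (-(2 * t))) * rexp (-mu * t ^ 2) :=
        mul_le_mul_of_nonneg_right (Phi_bound t) (Real.exp_pos _).le
    _ = _ := by
        rw [mul_assoc, ← Real.exp_add]
        congr 2
        ring

theorem c1_nonneg : 0 ≤ c1 := by
  unfold c1
  exact mul_nonneg c0_nonneg (tsum_nonneg (fun n => (Real.exp_pos _).le))

theorem abs_exp_le (b t : ℝ) (a : ℝ) (h : |b| ≤ a) : rexp (b * t) ≤ rexp (a * t) + rexp (-a * t) := by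
  have h1 := abs_le.mp h
  rcases le_or_gt 0 t with ht | ht
  · have : rexp (b * t) ≤ rexp (a * t) := Real.exp_le_exp.mpr (by nlinarith)
    linarith [Real.exp_pos (-a * t)]
  · have : rexp (b * t) ≤ rexp (-a * t) := Real.exp_le_exp.mpr (by nlinarith)
    linarith [Real.exp_pos (a * t)]

/-- main domination -/
theorem dom (mu : ℝ) (a : ℝ) (ha : 3 ≤ a) (z : ℂ) (hz : |z.im| + 3 ≤ a) (t : ℝ) :
    ‖kr mu t * (I * t * cexp (I * z * t))‖ ≤
      c1 * (rexp (-mu * t ^ 2 + a * t) + rexp (-mu * t ^ 2 + -a * t)) := by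
  rw [norm_mul, norm_mul, norm_mul, Complex.norm_I, one_mul, Complex.norm_real, Complex.norm_exp]
  have e1 : (I * z * t).re = -z.im * t := by simp
  rw [e1]
  have h1 : ‖t‖ ≤ rexp |t| := by
    have := Real.add_one_le_exp |t|
    rw [Real.norm_eq_abs]
    linarith
  have h2 : ‖kr mu t‖ * (‖t‖ * rexp (-z.im * t)) ≤
      (c1 * rexp (-mu * t ^ 2 + -2 * t)) * (rexp |t| * rexp (-z.im * t)) := by
    apply mul_le_mul (kr_bound mu t) _ (by positivity)
      (mul_nonneg c1_nonneg (Real.exp_pos _).le)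
    exact mul_le_mul_of_nonneg_right h1 (Real.exp_pos _).le
  refine h2.trans ?_
  have h3 : (c1 * rexp (-mu * t ^ 2 + -2 * t)) * (rexp |t| * rexp (-z.im * t)) =
      c1 * (rexp (-mu * t ^ 2) * rexp (|t| + (-2 - z.im) * t)) := by
    rw [mul_assoc, ← Real.exp_add, ← Real.exp_add, ← Real.exp_add]
    congr 2
    ring
  rw [h3]
  apply mul_le_mul_of_nonneg_left _ c1_nonneg
  rw [Real.exp_add (-mu * t ^ 2) (a * t), Real.exp_add (-mu * t ^ 2) (-a * t), ← mul_add]
  apply mul_le_mul_of_nonneg_left _ (Real.exp_pos _).le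
  have hz1 := abs_le.mp (show |z.im| ≤ a - 3 by linarith)
  rcases le_or_gt 0 t with ht | ht
  · rw [abs_of_nonneg ht]
    have : rexp (t + (-2 - z.im) * t) ≤ rexp (a * t) := Real.exp_le_exp.mpr (by nlinarith)
    linarith [Real.exp_pos (-a * t)]
  · rw [abs_of_neg ht]
    have : rexp (-t + (-2 - z.im) * t) ≤ rexp (-a * t) := Real.exp_le_exp.mpr (by nlinarith)
    linarith [Real.exp_pos (a * t)]

theorem dom0 (mu : ℝ) (a : ℝ) (ha : 3 ≤ a) (z : ℂ) (hz : |z.im| + 3 ≤ a) (t : ℝ) :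
    ‖kr mu t * cexp (I * z * t)‖ ≤
      c1 * (rexp (-mu * t ^ 2 + a * t) + rexp (-mu * t ^ 2 + -a * t)) := by
  rw [norm_mul, Complex.norm_exp]
  have e1 : (I * z * t).re = -z.im * t := by simp
  rw [e1]
  have h2 : ‖kr mu t‖ * rexp (-z.im * t) ≤
      (c1 * rexp (-mu * t ^ 2 + -2 * t)) * rexp (-z.im * t) :=
    mul_le_mul_of_nonneg_right (kr_bound mu t) (Real.exp_pos _).le
  refine h2.trans ?_
  have h3 : (c1 * rexp (-mu * t ^ 2 + -2 * t)) * rexp (-z.im * t) =
      c1 * (rexp (-mu * t ^ 2) * rexp ((-2 - z.im) * t)) := by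
    rw [mul_assoc, ← Real.exp_add, ← Real.exp_add]
    congr 2
    ring
  rw [h3]
  apply mul_le_mul_of_nonneg_left _ c1_nonneg
  rw [Real.exp_add (-mu * t ^ 2) (a * t), Real.exp_add (-mu * t ^ 2) (-a * t), ← mul_add]
  apply mul_le_mul_of_nonneg_left _ (Real.exp_pos _).le
  apply abs_exp_le
  have hz1 := abs_le.mp (show |z.im| ≤ a - 3 by linarith)
  rw [abs_le]
  constructor <;> linarith

theorem Xi_kr (mu : ℝ) (z : ℂ) : Xi (-mu) z = ∫ t, kr mu t * cexp (I * z * t) := rfl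

end SS

theorem xi_differentiable (mu : ℝ) (hmu : 0 < mu) : Differentiable ℂ (Xi (-mu)) := by
  intro z0
  set a : ℝ := |z0.im| + 4 with ha
  have hbd : Integrable (fun t : ℝ => c1 * (rexp (-mu * t ^ 2 + a * t) +
      rexp (-mu * t ^ 2 + -a * t))) :=
    ((gauss_int mu a hmu).add (gauss_int mu (-a) hmu)).const_mul c1
  have ha3 : 3 ≤ a := by have := abs_nonneg z0.im; linarith
  have key := hasDerivAt_integral_of_dominated_loc_of_deriv_le (μ := volume)
    (F := fun (z : ℂ) (t : ℝ) => kr mu t * cexp (I * z * t))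
    (F' := fun (z : ℂ) (t : ℝ) => kr mu t * (I * t * cexp (I * z * t)))
    (x₀ := z0) (s := ball z0 1) (ball_mem_nhds z0 one_pos)
    (bound := fun t : ℝ => c1 * (rexp (-mu * t ^ 2 + a * t) + rexp (-mu * t ^ 2 + -a * t)))
    ?_ ?_ ?_ ?_ hbd ?_
  · exact key.2.differentiableAt
  · refine Filter.Eventually.of_forall (fun z => ?_)
    exact ((kr_measurable mu).mul (by fun_prop)).aestronglyMeasurable
  · refine Integrable.mono' hbd ((kr_measurable mu).mul (by fun_prop)).aestronglyMeasurable ?_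
    exact Filter.Eventually.of_forall (fun t => dom0 mu a ha3 z0 (by linarith) t)
  · exact ((kr_measurable mu).mul (by fun_prop)).aestronglyMeasurable
  · refine Filter.Eventually.of_forall (fun t z hz => ?_)
    apply dom mu a ha3 z
    rw [mem_ball, dist_eq_norm] at hz
    have h1 : |(z - z0).im| ≤ ‖z - z0‖ := Complex.abs_im_le_norm _
    have h2 : |z.im| ≤ |z0.im| + |(z - z0).im| := by
      have : z.im = z0.im + (z - z0).im := by simp
      rw [this]
      exact (abs_add_le _ _).trans (by simp)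
    linarith
  · refine Filter.Eventually.of_forall (fun t z hz => ?_)
    have h1 : HasDerivAt (fun z : ℂ => cexp (I * z * t)) (cexp (I * z * t) * (I * t)) z := by
      have h2 : HasDerivAt (fun z : ℂ => I * z * t) (I * t) z := by
        have := ((hasDerivAt_id z).const_mul I).mul_const (t : ℂ)
        simpa using this
      exact h2.cexp
    have h3 := h1.const_mul (kr mu t)
    have h4 : kr mu t * (I * t * cexp (I * z * t)) = kr mu t * (cexp (I * z * t) * (I * t)) := by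
      ring
    show HasDerivAt (fun z : ℂ => kr mu t * cexp (I * z * t)) (kr mu t * (I * t * cexp (I * z * t))) z
    rw [h4]
    exact h3

theorem xi_conj (mu : ℝ) (z : ℂ) :
    Xi (-mu) (-(starRingEnd ℂ z)) = starRingEnd ℂ (Xi (-mu) z) := by
  unfold Xi
  rw [← integral_conj]
  congr 1
  ext t
  rw [map_mul, Complex.conj_ofReal, ← Complex.exp_conj]
  congr 2
  rw [map_mul, map_mul, Complex.conj_I, Complex.conj_ofReal]
  ring

end

end Pool.Agent.H732R2.KK
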