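import Pool.Agent.H732R2.KK.Defs

/-!
# Task T : tail of the series (contour shift)
-/

namespace Pool.Agent.H732R2.KK

open Real Complex MeasureTheory Filter Topology Metric

noncomputable section

namespace TailAux

/-- integrand of `G`, as an entire function. -/
def ff (mu h : ℝ) (w : ℂ) (s : ℂ) : ℂ :=
  cexp (-(h : ℂ) / 2) * phi (s + h) * cexp (-(mu : ℂ) * s ^ 2 + w * s)

theorem phi_differentiable : Differentiable ℂ phi := by
  unfold phi
  fun_prop

theorem ff_differentiable (mu h : ℝ) (w : ℂ) : Differentiable ℂ (ff mu h w) := by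
  unfold ff phi
  fun_prop

theorem norm_phi_le (s : ℂ) :
    ‖phi s‖ ≤ 2 * (2 * π ^ 2 * rexp (9 * s.re / 2) + 3 * π * rexp (5 * s.re / 2)) *
      rexp (-(π * rexp (2 * s.re) * Real.cos (2 * s.im))) := by
  unfold phi
  rw [norm_mul, norm_mul]
  have h2 : ‖(2 : ℂ)‖ = 2 := by simp
  rw [h2]
  have e1 : ‖cexp (-((π : ℂ) * cexp (2 * s)))‖ =
      rexp (-(π * rexp (2 * s.re) * Real.cos (2 * s.im))) := by
    rw [Complex.norm_exp]
    congr 1
    have : ((π : ℂ) * cexp (2 * s)).re = π * (rexp (2 * s.re) * Real.cos (2 * s.im)) := by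
      rw [Complex.re_ofReal_mul, Complex.exp_re]
      simp
    rw [Complex.neg_re, this]
    ring
  rw [e1]
  apply mul_le_mul_of_nonneg_right _ (Real.exp_pos _).le
  apply mul_le_mul_of_nonneg_left _ (by norm_num)
  refine (norm_sub_le _ _).trans ?_
  have e2 : ‖2 * (π : ℂ) ^ 2 * cexp (9 * s / 2)‖ = 2 * π ^ 2 * rexp (9 * s.re / 2) := by
    rw [norm_mul, norm_mul, norm_pow, Complex.norm_exp]
    have : (9 * s / 2).re = 9 * s.re / 2 := by
      have : (9 * s / 2) = ((9 / 2 : ℝ) : ℂ) * s := by push_cast; ring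
      rw [this, Complex.re_ofReal_mul]; ring
    rw [this, Complex.norm_real, Real.norm_of_nonneg Real.pi_pos.le]
    simp
  have e3 : ‖3 * (π : ℂ) * cexp (5 * s / 2)‖ = 3 * π * rexp (5 * s.re / 2) := by
    rw [norm_mul, norm_mul, Complex.norm_exp]
    have : (5 * s / 2).re = 5 * s.re / 2 := by
      have : (5 * s / 2) = ((5 / 2 : ℝ) : ℂ) * s := by push_cast; ring
      rw [this, Complex.re_ofReal_mul]; ring
    rw [this, Complex.norm_real, Real.norm_of_nonneg Real.pi_pos.le]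
    simp
  rw [e2, e3]

theorem norm_ff_le (mu h : ℝ) (w : ℂ) (u y : ℝ) :
    ‖ff mu h w (u + y * I)‖ ≤ rexp (-h / 2) *
      (2 * (2 * π ^ 2 * rexp (9 * (u + h) / 2) + 3 * π * rexp (5 * (u + h) / 2)) *
      rexp (-(π * rexp (2 * (u + h)) * Real.cos (2 * y)))) *
      rexp (-mu * (u ^ 2 - y ^ 2) + w.re * u - w.im * y) := by
  unfold ff
  rw [norm_mul, norm_mul]
  have e1 : ‖cexp (-(h : ℂ) / 2)‖ = rexp (-h / 2) := by
    rw [Complex.norm_exp]
    congr 1
    have : (-(h : ℂ) / 2) = ((-h / 2 : ℝ) : ℂ) := by push_cast; ring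
    rw [this, Complex.ofReal_re]
  have e2 : ‖cexp (-(mu : ℂ) * ((u : ℂ) + y * I) ^ 2 + w * ((u : ℂ) + y * I))‖ =
      rexp (-mu * (u ^ 2 - y ^ 2) + w.re * u - w.im * y) := by
    rw [Complex.norm_exp]
    congr 1
    simp [pow_two, Complex.add_re, Complex.mul_re, Complex.mul_im]
    ring
  have e3 := norm_phi_le ((u : ℂ) + y * I + h)
  have e4 : ((u : ℂ) + y * I + h).re = u + h := by simp
  have e5 : ((u : ℂ) + y * I + h).im = y := by simp
  rw [e4, e5] at e3
  rw [e1, e2]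
  apply mul_le_mul_of_nonneg_right _ (Real.exp_pos _).le
  apply mul_le_mul_of_nonneg_left _ (Real.exp_pos _).le
  exact e3

theorem pi_bound : 2 * (2 * π ^ 2 + 3 * π) ≤ 60 := by
  have h1 : π < 3.15 := Real.pi_lt_d2
  have h2 : 0 < π := Real.pi_pos
  nlinarith

/-- crude bound, uniform in the strip. -/
theorem crude (mu h : ℝ) (hmu : 0 < mu) (w : ℂ) : ∃ C : ℝ, 0 ≤ C ∧
    ∀ u y : ℝ, 0 ≤ y → y ≤ π / 4 → ‖ff mu h w (u + y * I)‖ ≤ C * rexp (-(mu / 2) * u ^ 2) := by
  refine ⟨rexp (-h / 2) * (60 * rexp (9 * |h| / 2)) * rexp (mu + |w.im|) *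
    rexp ((9 / 2 + |w.re|) ^ 2 / (2 * mu)), by positivity, ?_⟩
  intro u y hy0 hy1
  refine (norm_ff_le mu h w u y).trans ?_
  have hpi : π < 3.15 := Real.pi_lt_d2
  have hpi0 : 0 < π := Real.pi_pos
  have hy2 : y ≤ 1 := by linarith
  have hcos : 0 ≤ Real.cos (2 * y) := by
    apply Real.cos_nonneg_of_neg_pi_div_two_le_of_le <;> linarith
  have a1 : rexp (-(π * rexp (2 * (u + h)) * Real.cos (2 * y))) ≤ 1 := by
    apply Real.exp_le_one_iff.mpr
    have : 0 ≤ π * rexp (2 * (u + h)) * Real.cos (2 * y) := by positivity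
    linarith
  have hu := le_abs_self u
  have hh := le_abs_self h
  have hu0 := abs_nonneg u
  have hh0 := abs_nonneg h
  have a2 : rexp (9 * (u + h) / 2) ≤ rexp (9 * |h| / 2) * rexp (9 / 2 * |u|) := by
    rw [← Real.exp_add]
    apply Real.exp_le_exp.mpr
    linarith
  have a3 : rexp (5 * (u + h) / 2) ≤ rexp (9 * |h| / 2) * rexp (9 / 2 * |u|) := by
    rw [← Real.exp_add]
    apply Real.exp_le_exp.mpr
    linarith
  have a4 : 2 * (2 * π ^ 2 * rexp (9 * (u + h) / 2) + 3 * π * rexp (5 * (u + h) / 2)) *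
      rexp (-(π * rexp (2 * (u + h)) * Real.cos (2 * y))) ≤
      60 * rexp (9 * |h| / 2) * rexp (9 / 2 * |u|) := by
    have b1 : 2 * (2 * π ^ 2 * rexp (9 * (u + h) / 2) + 3 * π * rexp (5 * (u + h) / 2)) ≤
        (2 * (2 * π ^ 2 + 3 * π)) * (rexp (9 * |h| / 2) * rexp (9 / 2 * |u|)) := by
      have c1 := mul_le_mul_of_nonneg_left a2 (by positivity : 0 ≤ 2 * (2 * π ^ 2))
      have c2 := mul_le_mul_of_nonneg_left a3 (by positivity : 0 ≤ 2 * (3 * π))
      nlinarith
    have b2 : (2 * (2 * π ^ 2 + 3 * π)) * (rexp (9 * |h| / 2) * rexp (9 / 2 * |u|)) ≤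
        60 * (rexp (9 * |h| / 2) * rexp (9 / 2 * |u|)) :=
      mul_le_mul_of_nonneg_right pi_bound (by positivity)
    have b3 : 0 ≤ 2 * (2 * π ^ 2 * rexp (9 * (u + h) / 2) + 3 * π * rexp (5 * (u + h) / 2)) := by
      positivity
    calc _ ≤ 2 * (2 * π ^ 2 * rexp (9 * (u + h) / 2) + 3 * π * rexp (5 * (u + h) / 2)) * 1 :=
          mul_le_mul_of_nonneg_left a1 b3
      _ ≤ _ := by linarith
  have hs1 : w.re * u ≤ |w.re| * |u| := by
    rw [← abs_mul]; exact le_abs_self _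
  have hs2 : -(w.im * y) ≤ |w.im| := by
    have : |w.im * y| ≤ |w.im| := by
      rw [abs_mul, abs_of_nonneg hy0]
      exact mul_le_of_le_one_right (abs_nonneg _) hy2
    linarith [neg_abs_le (w.im * y)]
  have hs3 : mu * y ^ 2 ≤ mu := by
    have : y ^ 2 ≤ 1 := by nlinarith
    nlinarith
  have a5 : rexp (-mu * (u ^ 2 - y ^ 2) + w.re * u - w.im * y) ≤
      rexp (mu + |w.im|) * rexp (-mu * u ^ 2 + |w.re| * |u|) := by
    rw [← Real.exp_add]
    apply Real.exp_le_exp.mpr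
    nlinarith
  have a6 : rexp (9 / 2 * |u|) * rexp (-mu * u ^ 2 + |w.re| * |u|) ≤
      rexp ((9 / 2 + |w.re|) ^ 2 / (2 * mu)) * rexp (-(mu / 2) * u ^ 2) := by
    rw [← Real.exp_add, ← Real.exp_add]
    apply Real.exp_le_exp.mpr
    have : (9 / 2 + |w.re|) * |u| ≤ (9 / 2 + |w.re|) ^ 2 / (2 * mu) + (mu / 2) * u ^ 2 := by
      have hk : (9 / 2 + |w.re|) ^ 2 / (2 * mu) + (mu / 2) * u ^ 2 - (9 / 2 + |w.re|) * |u| =
          ((9 / 2 + |w.re|) - mu * |u|) ^ 2 / (2 * mu) := by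
        have : u ^ 2 = |u| ^ 2 := (sq_abs u).symm
        rw [this]
        field_simp
        ring
      have : 0 ≤ ((9 / 2 + |w.re|) - mu * |u|) ^ 2 / (2 * mu) := by positivity
      linarith
    linarith
  calc _ ≤ rexp (-h / 2) * (60 * rexp (9 * |h| / 2) * rexp (9 / 2 * |u|)) *
        (rexp (mu + |w.im|) * rexp (-mu * u ^ 2 + |w.re| * |u|)) := by
        apply mul_le_mul _ a5 (Real.exp_pos _).le (by positivity)
        exact mul_le_mul_of_nonneg_left a4 (Real.exp_pos _).le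
    _ = rexp (-h / 2) * (60 * rexp (9 * |h| / 2)) * rexp (mu + |w.im|) *
        (rexp (9 / 2 * |u|) * rexp (-mu * u ^ 2 + |w.re| * |u|)) := by ring
    _ ≤ rexp (-h / 2) * (60 * rexp (9 * |h| / 2)) * rexp (mu + |w.im|) *
        (rexp ((9 / 2 + |w.re|) ^ 2 / (2 * mu)) * rexp (-(mu / 2) * u ^ 2)) :=
        mul_le_mul_of_nonneg_left a6 (by positivity)
    _ = _ := by ring

theorem ff_integrable (mu h : ℝ) (hmu : 0 < mu) (w : ℂ) (y : ℝ) (hy0 : 0 ≤ y) (hy1 : y ≤ π / 4) :
    Integrable (fun u : ℝ => ff mu h w (u + y * I)) := by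
  obtain ⟨C, -, hC⟩ := crude mu h hmu w
  have h1 : Integrable (fun u : ℝ => C * rexp (-(mu / 2) * u ^ 2)) :=
    (integrable_exp_neg_mul_sq (by positivity)).const_mul C
  refine h1.mono' ?_ ?_
  · have : Continuous (fun u : ℝ => ff mu h w (u + y * I)) :=
      (ff_differentiable mu h w).continuous.comp (by fun_prop)
    exact this.aestronglyMeasurable
  · exact Eventually.of_forall (fun u => hC u y hy0 hy1)

theorem shift (mu h : ℝ) (hmu : 0 < mu) (w : ℂ) (θ : ℝ) (h0 : 0 ≤ θ) (h1 : θ ≤ π / 4) :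
    ∫ u : ℝ, ff mu h w u = ∫ u : ℝ, ff mu h w (u + θ * I) := by
  obtain ⟨C, hC0, hC⟩ := crude mu h hmu w
  have hi0 : Integrable (fun u : ℝ => ff mu h w u) := by
    have := ff_integrable mu h hmu w 0 le_rfl (by positivity)
    simpa using this
  have hi1 := ff_integrable mu h hmu w θ h0 h1
  have t0 : Tendsto (fun R : ℝ => ∫ u in (-R)..R, ff mu h w u) atTop
      (𝓝 (∫ u : ℝ, ff mu h w u)) :=
    intervalIntegral_tendsto_integral hi0 tendsto_neg_atTop_atBot tendsto_id
  have t1 : Tendsto (fun R : ℝ => ∫ u in (-R)..R, ff mu h w (u + θ * I)) atTop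
      (𝓝 (∫ u : ℝ, ff mu h w (u + θ * I))) :=
    intervalIntegral_tendsto_integral hi1 tendsto_neg_atTop_atBot tendsto_id
  have key : ∀ R : ℝ, (∫ u in (-R)..R, ff mu h w u) - (∫ u in (-R)..R, ff mu h w (u + θ * I)) =
      I • (∫ y in (0 : ℝ)..θ, ff mu h w ((-R : ℝ) + y * I)) -
      I • (∫ y in (0 : ℝ)..θ, ff mu h w ((R : ℝ) + y * I)) := by
    intro R
    have := Complex.integral_boundary_rect_eq_zero_of_differentiableOn (ff mu h w)
      ((-R : ℝ) : ℂ) ((R : ℝ) + θ * I) (ff_differentiable mu h w).differentiableOn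
    simp only [Complex.ofReal_re, Complex.ofReal_im, Complex.add_re, Complex.add_im,
      Complex.mul_re, Complex.mul_im, Complex.I_re, Complex.I_im, mul_zero, mul_one,
      add_zero, zero_add, sub_self, Complex.ofReal_zero, zero_mul] at this
    rw [sub_eq_zero] at this
    rw [← this]
    ring
  have tb : Tendsto (fun R : ℝ => C * rexp (-(mu / 2) * R ^ 2) * |θ - 0|) atTop (𝓝 0) := by
    have a1 : Tendsto (fun R : ℝ => -(mu / 2) * R ^ 2) atTop atBot := by
      apply Tendsto.const_mul_atTop_of_neg (by linarith)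
      exact tendsto_pow_atTop (by norm_num)
    have a2 : Tendsto (fun R : ℝ => rexp (-(mu / 2) * R ^ 2)) atTop (𝓝 0) :=
      Real.tendsto_exp_atBot.comp a1
    have := (a2.const_mul C).mul_const |θ - 0|
    simpa using this
  have tv : ∀ s : ℝ, s ^ 2 = 1 → Tendsto (fun R : ℝ =>
      I • (∫ y in (0 : ℝ)..θ, ff mu h w ((s * R : ℝ) + y * I))) atTop (𝓝 0) := by
    intro s hs
    apply squeeze_zero_norm _ tb
    intro R
    rw [norm_smul, Complex.norm_I, one_mul]
    apply intervalIntegral.norm_integral_le_of_norm_le_const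
    intro y hy
    rw [Set.uIoc_of_le h0] at hy
    have := hC (s * R) y hy.1.le (hy.2.trans h1)
    have e : (s * R) ^ 2 = R ^ 2 := by rw [mul_pow, hs, one_mul]
    rw [e] at this
    exact this
  have t2 : Tendsto (fun R : ℝ => (∫ u in (-R)..R, ff mu h w u) -
      (∫ u in (-R)..R, ff mu h w (u + θ * I))) atTop (𝓝 (0 - 0)) := by
    have e1 := tv (-1) (by norm_num)
    have e2 := tv 1 (by norm_num)
    refine (e1.sub e2).congr (fun R => ?_)
    rw [key R]
    simp
  have t3 := t0.sub t1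
  have := tendsto_nhds_unique t3 t2
  rw [sub_zero] at this
  exact sub_eq_zero.mp this

/-- polynomial factor against the exponential. -/
theorem poly_bound (a X : ℝ) (hX : 1 ≤ X) :
    2 * (2 * π ^ 2 * rexp (9 * a / 2) + 3 * π * rexp (5 * a / 2)) *
      rexp (-(π * rexp (2 * a) / X)) ≤ 420 * X ^ 3 * rexp (-(rexp (2 * a) / X)) := by
  set y := rexp (2 * a) with hy
  have hy0 : 0 < y := Real.exp_pos _
  have hX0 : 0 < X := by linarith
  have hpi3 : 3 < π := Real.pi_gt_three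
  have e6 : y ^ 3 = rexp (6 * a) := by
    rw [hy, ← Real.exp_nat_mul]; congr 1; push_cast; ring
  have a1 : rexp (9 * a / 2) ≤ y ^ 3 + 1 := by
    rw [e6]
    rcases le_total 0 a with h | h
    · have : rexp (9 * a / 2) ≤ rexp (6 * a) := Real.exp_le_exp.mpr (by linarith)
      linarith
    · have : rexp (9 * a / 2) ≤ 1 := Real.exp_le_one_iff.mpr (by linarith)
      have := Real.exp_pos (6 * a)
      linarith
  have a2 : rexp (5 * a / 2) ≤ y ^ 3 + 1 := by
    rw [e6]
    rcases le_total 0 a with h | h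
    · have : rexp (5 * a / 2) ≤ rexp (6 * a) := Real.exp_le_exp.mpr (by linarith)
      linarith
    · have : rexp (5 * a / 2) ≤ 1 := Real.exp_le_one_iff.mpr (by linarith)
      have := Real.exp_pos (6 * a)
      linarith
  have a3 : 2 * (2 * π ^ 2 * rexp (9 * a / 2) + 3 * π * rexp (5 * a / 2)) ≤ 60 * (y ^ 3 + 1) := by
    have c1 := mul_le_mul_of_nonneg_left a1 (by positivity : 0 ≤ 2 * (2 * π ^ 2))
    have c2 := mul_le_mul_of_nonneg_left a2 (by positivity : 0 ≤ 2 * (3 * π))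
    have c3 := mul_le_mul_of_nonneg_right pi_bound (by positivity : 0 ≤ y ^ 3 + 1)
    nlinarith
  have a4 : y ^ 3 ≤ 6 * X ^ 3 * rexp (y / X) := by
    have ht : 0 ≤ y / X := by positivity
    have := Real.pow_div_factorial_le_exp (y / X) ht 3
    have e : (y / X) ^ 3 = y ^ 3 / X ^ 3 := by rw [div_pow]
    rw [e] at this
    have h6 : ((Nat.factorial 3 : ℕ) : ℝ) = 6 := by norm_num [Nat.factorial]
    rw [h6, div_div, div_le_iff₀ (by positivity)] at this
    nlinarith
  have a5 : y ^ 3 + 1 ≤ 7 * X ^ 3 * rexp (y / X) := by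
    have h1 : 1 ≤ rexp (y / X) := Real.one_le_exp (by positivity)
    have h2 : 1 ≤ X ^ 3 := one_le_pow₀ hX
    nlinarith [mul_le_mul h2 h1 (by norm_num) (by positivity)]
  have a6 : rexp (-(π * y / X)) ≤ rexp (-(y / X)) * rexp (-(y / X)) := by
    rw [← Real.exp_add]
    apply Real.exp_le_exp.mpr
    have : 2 * (y / X) ≤ π * y / X := by
      rw [mul_div_assoc]
      exact mul_le_mul_of_nonneg_right (by linarith) (by positivity)
    linarith
  have a7 : rexp (y / X) * rexp (-(y / X)) = 1 := by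
    rw [← Real.exp_add]; simp
  calc 2 * (2 * π ^ 2 * rexp (9 * a / 2) + 3 * π * rexp (5 * a / 2)) * rexp (-(π * y / X))
      ≤ (60 * (7 * X ^ 3 * rexp (y / X))) * (rexp (-(y / X)) * rexp (-(y / X))) := by
        apply mul_le_mul _ a6 (Real.exp_pos _).le (by positivity)
        linarith
    _ = 420 * X ^ 3 * (rexp (y / X) * rexp (-(y / X))) * rexp (-(y / X)) := by ring
    _ = _ := by rw [a7]; ring

/-- pointwise bound of the integrand after the shift. -/
theorem pt (mu X σ c h u : ℝ) (hmu : 0 < mu) (hX : 1 ≤ X)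
    (hσ : |σ| ≤ c * Real.log X) (k : ℝ) (hk2 : 2 ≤ k) (hk : 8 * c / mu ≤ k)
    (hh : k * Real.log X ≤ h) (hh2 : 48 * (mu / 16 + c ^ 2 / (2 * mu)) ≤ h) :
    rexp (-(rexp (2 * (u + h)) / X)) * rexp (-mu * u ^ 2 + σ * u) ≤
      rexp (-(mu / 16) * h ^ 2) * rexp (-(mu / 2) * u ^ 2) := by
  have hX0 : 0 < X := by linarith
  have hL : 0 ≤ Real.log X := Real.log_nonneg hX
  set L := Real.log X with hLdef
  have hh0 : 0 ≤ h := le_trans (by positivity) hh
  have hLh : L ≤ h := by nlinarith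
  rw [← Real.exp_add, ← Real.exp_add]
  apply Real.exp_le_exp.mpr
  have hsu : σ * u ≤ c * L * |u| := by
    calc σ * u ≤ |σ * u| := le_abs_self _
      _ = |σ| * |u| := abs_mul _ _
      _ ≤ c * L * |u| := mul_le_mul_of_nonneg_right hσ (abs_nonneg _)
  rcases le_total u (-h / 2) with hu | hu
  · have habs : |u| = -u := abs_of_nonpos (by linarith)
    have h1 : h / 2 ≤ |u| := by rw [habs]; linarith
    have h2 : k * L / 2 ≤ |u| := by linarith
    have h3 : c * L ≤ mu / 4 * |u| := by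
      have h4 : 8 * c ≤ k * mu := by
        rw [div_le_iff₀ hmu] at hk; exact hk
      have h5 : 8 * c * L ≤ k * mu * L := mul_le_mul_of_nonneg_right h4 hL
      nlinarith
    have h6 : c * L * |u| ≤ mu / 4 * u ^ 2 := by
      have := mul_le_mul_of_nonneg_right h3 (abs_nonneg u)
      calc _ ≤ _ := this
        _ = mu / 4 * |u| ^ 2 := by ring
        _ = _ := by rw [sq_abs]
    have h7 : h ^ 2 / 4 ≤ u ^ 2 := by
      have : (h / 2) ^ 2 ≤ |u| ^ 2 := pow_le_pow_left₀ (by positivity) h1 2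
      rw [sq_abs] at this
      nlinarith
    have h8 : 0 ≤ rexp (2 * (u + h)) / X := by positivity
    nlinarith
  · have h1 : rexp h ≤ rexp (2 * (u + h)) := Real.exp_le_exp.mpr (by linarith)
    have h2 : rexp (h / 2) ≤ rexp (2 * (u + h)) / X := by
      rw [le_div_iff₀ hX0]
      have h3 : X ≤ rexp (h / 2) := by
        have : rexp L = X := Real.exp_log hX0
        rw [← this]
        apply Real.exp_le_exp.mpr
        nlinarith
      calc rexp (h / 2) * X ≤ rexp (h / 2) * rexp (h / 2) :=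
            mul_le_mul_of_nonneg_left h3 (Real.exp_pos _).le
        _ = rexp h := by rw [← Real.exp_add]; congr 1; ring
        _ ≤ _ := h1
    have h4 : h ^ 3 / 48 ≤ rexp (h / 2) := by
      have := Real.pow_div_factorial_le_exp (h / 2) (by positivity) 3
      have h6 : ((Nat.factorial 3 : ℕ) : ℝ) = 6 := by norm_num [Nat.factorial]
      rw [h6] at this
      calc _ = (h / 2) ^ 3 / 6 := by ring
        _ ≤ _ := this
    have h5 : mu / 16 * h ^ 2 + c ^ 2 * L ^ 2 / (2 * mu) ≤ h ^ 3 / 48 := by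
      have i1 : L ^ 2 ≤ h ^ 2 := pow_le_pow_left₀ hL hLh 2
      have i2 : c ^ 2 * L ^ 2 / (2 * mu) ≤ c ^ 2 / (2 * mu) * h ^ 2 := by
        calc _ = c ^ 2 / (2 * mu) * L ^ 2 := by ring
          _ ≤ _ := mul_le_mul_of_nonneg_left i1 (by positivity)
      have i3 := mul_le_mul_of_nonneg_right hh2 (by positivity : 0 ≤ h ^ 2)
      nlinarith
    have h6 : c * L * |u| ≤ c ^ 2 * L ^ 2 / (2 * mu) + mu / 2 * u ^ 2 := by
      have hk : c ^ 2 * L ^ 2 / (2 * mu) + mu / 2 * u ^ 2 - c * L * |u| =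
          (c * L - mu * |u|) ^ 2 / (2 * mu) := by
        have : u ^ 2 = |u| ^ 2 := (sq_abs u).symm
        rw [this]
        field_simp
        ring
      have : 0 ≤ (c * L - mu * |u|) ^ 2 / (2 * mu) := by positivity
      linarith
    nlinarith

theorem G_bound (mu X c h k : ℝ) (w : ℂ) (hmu : 0 < mu) (hX : 2 ≤ X)
    (hσ : |w.re| ≤ c * Real.log X) (hk2 : 2 ≤ k) (hk : 8 * c / mu ≤ k)
    (hh : k * Real.log X ≤ h) (hh2 : 48 * (mu / 16 + c ^ 2 / (2 * mu)) ≤ h)
    (hw : w.im ≤ 2 * X) :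
    ‖G mu h w‖ ≤ 420 * X ^ 3 * rexp (2 + mu - π * w.im / 4) * rexp (-(mu / 16) * h ^ 2) *
      Real.sqrt (π / (mu / 2)) := by
  have hX0 : 0 < X := by linarith
  have hh0 : 0 ≤ h := le_trans (mul_nonneg (by linarith) (Real.log_nonneg (by linarith))) hh
  have hpi : π < 3.15 := Real.pi_lt_d2
  have hpi3 : 3 < π := Real.pi_gt_three
  have hX1 : 1 / X ≤ 1 / 2 := one_div_le_one_div_of_le (by norm_num) hX
  have hX2 : 0 < 1 / X := by positivity
  set θ := π / 4 - 1 / X with hθ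
  have hθ0 : 0 ≤ θ := by rw [hθ]; linarith
  have hθ1 : θ ≤ π / 4 := by rw [hθ]; linarith
  have hGs : G mu h w = ∫ u : ℝ, ff mu h w (u + θ * I) := by
    rw [← shift mu h hmu w θ hθ0 hθ1]
    rfl
  have hcos : 1 / X ≤ Real.cos (2 * θ) := by
    have e : 2 * θ = π / 2 - 2 / X := by rw [hθ]; ring
    rw [e, Real.cos_pi_div_two_sub]
    have h1 : 2 / X ≤ π / 2 := by
      have : 2 / X = 2 * (1 / X) := by ring
      rw [this]; linarith
    have := Real.mul_le_sin (by positivity : 0 ≤ 2 / X) h1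
    refine le_trans ?_ this
    rw [div_mul_div_comm, div_le_div_iff₀ hX0 (by positivity)]
    nlinarith
  rw [hGs]
  have hb : ∀ u : ℝ, ‖ff mu h w (u + θ * I)‖ ≤
      (420 * X ^ 3 * rexp (2 + mu - π * w.im / 4) * rexp (-(mu / 16) * h ^ 2)) *
        rexp (-(mu / 2) * u ^ 2) := by
    intro u
    refine (norm_ff_le mu h w u θ).trans ?_
    have b1 : rexp (-h / 2) ≤ 1 := Real.exp_le_one_iff.mpr (by linarith)
    have b2 : rexp (-(π * rexp (2 * (u + h)) * Real.cos (2 * θ))) ≤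
        rexp (-(π * rexp (2 * (u + h)) / X)) := by
      apply Real.exp_le_exp.mpr
      have := mul_le_mul_of_nonneg_left hcos (by positivity : 0 ≤ π * rexp (2 * (u + h)))
      have e : π * rexp (2 * (u + h)) / X = π * rexp (2 * (u + h)) * (1 / X) := by ring
      rw [e]
      linarith
    have b3 : 2 * (2 * π ^ 2 * rexp (9 * (u + h) / 2) + 3 * π * rexp (5 * (u + h) / 2)) *
        rexp (-(π * rexp (2 * (u + h)) * Real.cos (2 * θ))) ≤
        420 * X ^ 3 * rexp (-(rexp (2 * (u + h)) / X)) := by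
      refine le_trans ?_ (poly_bound (u + h) X (by linarith))
      exact mul_le_mul_of_nonneg_left b2 (by positivity)
    have b4 : rexp (-mu * (u ^ 2 - θ ^ 2) + w.re * u - w.im * θ) ≤
        rexp (2 + mu - π * w.im / 4) * rexp (-mu * u ^ 2 + w.re * u) := by
      rw [← Real.exp_add]
      apply Real.exp_le_exp.mpr
      have i1 : θ ^ 2 ≤ 1 := by
        have : θ ≤ 1 := by linarith
        nlinarith
      have i2 : mu * θ ^ 2 ≤ mu := by nlinarith
      have i3 : -(w.im * θ) ≤ 2 - π * w.im / 4 := by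
        have : w.im * (1 / X) ≤ 2 := by
          calc w.im * (1 / X) ≤ (2 * X) * (1 / X) := mul_le_mul_of_nonneg_right hw hX2.le
            _ = 2 := by field_simp
        rw [hθ]
        nlinarith
      nlinarith
    have b5 := pt mu X w.re c h u hmu (by linarith) hσ k hk2 hk hh hh2
    calc _ ≤ 1 * (420 * X ^ 3 * rexp (-(rexp (2 * (u + h)) / X))) *
          (rexp (2 + mu - π * w.im / 4) * rexp (-mu * u ^ 2 + w.re * u)) := by
          apply mul_le_mul _ b4 (Real.exp_pos _).le (by positivity)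
          exact mul_le_mul b1 b3 (by positivity) (by norm_num)
      _ = 420 * X ^ 3 * rexp (2 + mu - π * w.im / 4) *
          (rexp (-(rexp (2 * (u + h)) / X)) * rexp (-mu * u ^ 2 + w.re * u)) := by ring
      _ ≤ 420 * X ^ 3 * rexp (2 + mu - π * w.im / 4) *
          (rexp (-(mu / 16) * h ^ 2) * rexp (-(mu / 2) * u ^ 2)) :=
          mul_le_mul_of_nonneg_left b5 (by positivity)
      _ = _ := by ring
  have hint : Integrable (fun u : ℝ =>
      (420 * X ^ 3 * rexp (2 + mu - π * w.im / 4) * rexp (-(mu / 16) * h ^ 2)) *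
        rexp (-(mu / 2) * u ^ 2)) :=
    (integrable_exp_neg_mul_sq (by positivity)).const_mul _
  refine (norm_integral_le_of_norm_le hint (Eventually.of_forall hb)).trans ?_
  rw [integral_const_mul, integral_gaussian]

theorem gauss_summable (a : ℝ) (ha : 0 < a) : Summable (fun n : ℕ => rexp (-a * (lg n) ^ 2)) := by
  have h1 : Summable (fun n : ℕ => rexp (1 / a) * (1 / ((n : ℝ) + 1) ^ 2)) := by
    apply Summable.mul_left
    have := (summable_nat_add_iff 1).mpr (Real.summable_one_div_nat_pow.mpr (by norm_num : 1 < 2))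
    simpa using this
  refine Summable.of_nonneg_of_le (fun n => (Real.exp_pos _).le) (fun n => ?_) h1
  have hn : (0 : ℝ) < (n : ℝ) + 1 := by positivity
  have e : 1 / ((n : ℝ) + 1) ^ 2 = rexp (-(2 * lg n)) := by
    unfold lg
    rw [Real.exp_neg, mul_comm 2, Real.exp_mul, Real.exp_log hn]
    simp
  rw [e, ← Real.exp_add]
  apply Real.exp_le_exp.mpr
  have : 1 / a - 2 * lg n + a * (lg n) ^ 2 = (1 - a * lg n) ^ 2 / a := by
    field_simp
    ring
  have h2 : 0 ≤ (1 - a * lg n) ^ 2 / a := by positivity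
  linarith

end TailAux

open TailAux in
theorem tail (mu C1 K : ℝ) (hmu : 0 < mu) : ∃ k0 : ℕ, ∀ k ≥ k0, ∃ X0 : ℝ, 10 ≤ X0 ∧
    ∀ X ≥ X0, ∀ ζ : ℂ, |ζ.re| ≤ C1 * Real.log X → |ζ.im| ≤ X ^ ((1 : ℝ) / 3) →
    (∑' n : ℕ, if X ^ k < (n : ℝ) + 1 then ‖G mu (lg n) (I * X + ζ)‖ else 0) ≤
      rexp (-(π * (X + ζ.im) / 4) - K * (Real.log X) ^ 2) := by
  set c := |C1| with hc
  have hc0 : 0 ≤ c := abs_nonneg _
  obtain ⟨k0, hk0⟩ := exists_nat_ge (2 + 8 * c / mu + 32 * (|K| + 1) / mu)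
  refine ⟨k0, fun k hk => ?_⟩
  have hkk : 2 + 8 * c / mu + 32 * (|K| + 1) / mu ≤ (k : ℝ) :=
    hk0.trans (by exact_mod_cast hk)
  have hp1 : 0 ≤ 8 * c / mu := by positivity
  have hp2 : 0 ≤ 32 * (|K| + 1) / mu := by positivity
  have hk2 : (2 : ℝ) ≤ k := by linarith
  have hk8 : 8 * c / mu ≤ (k : ℝ) := by linarith
  have hk32 : 32 * (|K| + 1) / mu ≤ (k : ℝ) := by linarith
  set S0 : ℝ := ∑' n : ℕ, rexp (-(mu / 32) * (lg n) ^ 2) with hS0
  have hsum := gauss_summable (mu / 32) (by positivity)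
  have hS0n : 0 ≤ S0 := tsum_nonneg (fun n => (Real.exp_pos _).le)
  set M : ℝ := 420 * rexp (2 + mu) * Real.sqrt (π / (mu / 2)) with hM
  have hM0 : 0 ≤ M := by positivity
  set L0 : ℝ := 3 + M * S0 + 48 * (mu / 16 + c ^ 2 / (2 * mu)) with hL0
  have hL0n : 3 ≤ L0 := by
    have : 0 ≤ 48 * (mu / 16 + c ^ 2 / (2 * mu)) := by positivity
    have : 0 ≤ M * S0 := by positivity
    linarith
  refine ⟨max 10 (rexp L0), le_max_left _ _, ?_⟩
  intro X hX ζ hre him
  have hX10 : 10 ≤ X := (le_max_left _ _).trans hX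
  have hX0 : 0 < X := by linarith
  have hL : L0 ≤ Real.log X := by
    rw [Real.le_log_iff_exp_le hX0]
    exact (le_max_right _ _).trans hX
  set L := Real.log X with hLdef
  have hLpos : 0 < L := by linarith
  have hre' : |ζ.re| ≤ c * L := by
    refine hre.trans ?_
    exact mul_le_mul_of_nonneg_right (le_abs_self _) hLpos.le
  have him' : ζ.im ≤ X := by
    have h1 : X ^ ((1 : ℝ) / 3) ≤ X ^ (1 : ℝ) :=
      Real.rpow_le_rpow_of_exponent_le (by linarith) (by norm_num)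
    rw [Real.rpow_one] at h1
    exact (le_abs_self _).trans (him.trans h1)
  have hwre : (I * X + ζ).re = ζ.re := by simp
  have hwim : (I * X + ζ).im = X + ζ.im := by simp
  -- termwise bound
  have hterm : ∀ n : ℕ, (if X ^ k < (n : ℝ) + 1 then ‖G mu (lg n) (I * X + ζ)‖ else 0) ≤
      (M * X ^ 3 * rexp (-(π * (X + ζ.im) / 4)) * rexp (-(mu / 32) * ((k : ℝ) * L) ^ 2)) *
        rexp (-(mu / 32) * (lg n) ^ 2) := by
    intro n
    split_ifs with hn
    · have hlg : (k : ℝ) * L ≤ lg n := by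
        unfold lg
        rw [hLdef, ← Real.log_pow]
        exact Real.log_le_log (by positivity) hn.le
      have hlg2 : 48 * (mu / 16 + c ^ 2 / (2 * mu)) ≤ lg n := by
        have : 0 ≤ M * S0 := by positivity
        have h1 : 48 * (mu / 16 + c ^ 2 / (2 * mu)) ≤ L := by linarith
        have h2 : 1 * L ≤ (k : ℝ) * L := mul_le_mul_of_nonneg_right (by linarith) hLpos.le
        linarith
      have := G_bound mu X c (lg n) k (I * X + ζ) hmu (by linarith) (by rw [hwre]; exact hre')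
        hk2 hk8 hlg hlg2 (by rw [hwim]; linarith)
      rw [hwim] at this
      refine this.trans ?_
      have e1 : rexp (2 + mu - π * (X + ζ.im) / 4) =
          rexp (2 + mu) * rexp (-(π * (X + ζ.im) / 4)) := by
        rw [← Real.exp_add]; congr 1
      have e2 : rexp (-(mu / 16) * (lg n) ^ 2) =
          rexp (-(mu / 32) * (lg n) ^ 2) * rexp (-(mu / 32) * (lg n) ^ 2) := by
        rw [← Real.exp_add]; congr 1; ring
      have e3 : rexp (-(mu / 32) * (lg n) ^ 2) ≤ rexp (-(mu / 32) * ((k : ℝ) * L) ^ 2) := by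
        apply Real.exp_le_exp.mpr
        have h1 : ((k : ℝ) * L) ^ 2 ≤ (lg n) ^ 2 := pow_le_pow_left₀ (by positivity) hlg 2
        have h2 := mul_le_mul_of_nonneg_left h1 (by positivity : 0 ≤ mu / 32)
        linarith
      rw [e1, e2, hM]
      calc 420 * X ^ 3 * (rexp (2 + mu) * rexp (-(π * (X + ζ.im) / 4))) *
            (rexp (-(mu / 32) * (lg n) ^ 2) * rexp (-(mu / 32) * (lg n) ^ 2)) *
            Real.sqrt (π / (mu / 2))
          = (420 * rexp (2 + mu) * Real.sqrt (π / (mu / 2)) * X ^ 3 *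
            rexp (-(π * (X + ζ.im) / 4)) * rexp (-(mu / 32) * (lg n) ^ 2)) *
            rexp (-(mu / 32) * (lg n) ^ 2) := by ring
        _ ≤ _ := by
          apply mul_le_mul_of_nonneg_right _ (Real.exp_pos _).le
          exact mul_le_mul_of_nonneg_left e3 (by positivity)
    · positivity
  have hsum2 : Summable (fun n : ℕ =>
      (M * X ^ 3 * rexp (-(π * (X + ζ.im) / 4)) * rexp (-(mu / 32) * ((k : ℝ) * L) ^ 2)) *
        rexp (-(mu / 32) * (lg n) ^ 2)) := hsum.mul_left _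
  have hsum1 : Summable (fun n : ℕ =>
      if X ^ k < (n : ℝ) + 1 then ‖G mu (lg n) (I * X + ζ)‖ else 0) := by
    refine Summable.of_nonneg_of_le (fun n => ?_) hterm hsum2
    split_ifs
    · exact norm_nonneg _
    · exact le_rfl
  refine (hsum1.tsum_le_tsum hterm hsum2).trans ?_
  rw [tsum_mul_left, ← hS0]
  -- final comparison
  have hX3 : X ^ 3 = rexp (3 * L) := by
    have : X = rexp L := (Real.exp_log hX0).symm
    conv_lhs => rw [this]
    rw [← Real.exp_nat_mul]; congr 1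
  have hMS : M * S0 ≤ rexp (M * S0) := by
    have := Real.add_one_le_exp (M * S0)
    linarith
  have hkL : (|K| + 1) * L ^ 2 ≤ mu / 32 * ((k : ℝ) * L) ^ 2 := by
    have h1 : 32 * (|K| + 1) ≤ k * mu := by
      rw [div_le_iff₀ hmu] at hk32; exact hk32
    have h2 : (k : ℝ) ≤ (k : ℝ) ^ 2 := le_self_pow₀ (by linarith) (by norm_num)
    have h3 : 32 * (|K| + 1) ≤ (k : ℝ) ^ 2 * mu :=
      h1.trans (mul_le_mul_of_nonneg_right h2 hmu.le)
    have h4 := mul_le_mul_of_nonneg_right h3 (sq_nonneg L)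
    calc (|K| + 1) * L ^ 2 = (32 * (|K| + 1) * L ^ 2) / 32 := by ring
      _ ≤ ((k : ℝ) ^ 2 * mu * L ^ 2) / 32 := by linarith
      _ = _ := by ring
  have hLL : M * S0 + 3 * L ≤ L ^ 2 := by
    have h1 : M * S0 + 3 ≤ L := by
      have : 0 ≤ 48 * (mu / 16 + c ^ 2 / (2 * mu)) := by positivity
      linarith
    have h2 : 0 ≤ M * S0 := by positivity
    have h3 : (M * S0 + 3) * L ≤ L * L := mul_le_mul_of_nonneg_right h1 hLpos.le
    have h4 : M * S0 * 1 ≤ M * S0 * L := mul_le_mul_of_nonneg_left (by linarith) h2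
    calc M * S0 + 3 * L ≤ (M * S0 + 3) * L := by linarith
      _ ≤ L * L := h3
      _ = L ^ 2 := by ring
  calc M * X ^ 3 * rexp (-(π * (X + ζ.im) / 4)) * rexp (-(mu / 32) * ((k : ℝ) * L) ^ 2) * S0
      = (M * S0) * (rexp (3 * L) * rexp (-(π * (X + ζ.im) / 4)) *
        rexp (-(mu / 32) * ((k : ℝ) * L) ^ 2)) := by rw [hX3]; ring
    _ ≤ rexp (M * S0) * (rexp (3 * L) * rexp (-(π * (X + ζ.im) / 4)) *
        rexp (-(mu / 32) * ((k : ℝ) * L) ^ 2)) :=
        mul_le_mul_of_nonneg_right hMS (by positivity)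
    _ = rexp (M * S0 + 3 * L + -(π * (X + ζ.im) / 4) + -(mu / 32) * ((k : ℝ) * L) ^ 2) := by
        rw [Real.exp_add, Real.exp_add, Real.exp_add]; ring
    _ ≤ _ := by
        apply Real.exp_le_exp.mpr
        have : K * L ^ 2 ≤ |K| * L ^ 2 := mul_le_mul_of_nonneg_right (le_abs_self _) (sq_nonneg L)
        linarith

end

end Pool.Agent.H732R2.KK
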